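import Pool.Agent.Lib.MP_deca50_lc.Three.Kos

/-! Projection to a weight. -/

set_option linter.unusedSectionVars false

namespace Pool.Agent.Lib.MP_deca50_lc.Three

open Finset

variable {R : Type} [CommRing R] [IsDomain R] {ι : Type} [Fintype ι] [DecidableEq ι]
  {p Q k ρ : ℕ} (X : Ctx R ι p Q k ρ)

theorem Ctx.cp_sg (w : Wt) (a : ι × Bool) (I : Finset (ι × Bool)) (g : R) :
    X.cp w (sg R a I * g) = sg R a I * X.cp w g := by
  rcases sg_eq (R := R) a I with e | e <;> rw [e] <;> simp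

theorem Ctx.pow_mem_H {g : R} {v : Wt} (hg : g ∈ X.H v) (n : ℕ) : g ^ n ∈ X.H (n • v) := by
  induction n with
  | zero => simpa using X.one_mem
  | succ n ih =>
    rw [pow_succ, succ_nsmul]
    exact X.mul_mem _ _ _ _ ih hg

theorem Ctx.prod_z_mem (S : Finset ι) : ∏ s ∈ S, X.z s ∈ X.H (S.card • ew 2) := by
  induction S using Finset.induction_on with
  | empty => simpa using X.one_mem
  | insert a S h ih =>
    rw [prod_insert h, card_insert_of_notMem h, succ_nsmul']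
    exact X.mul_mem _ _ _ _ (X.z_mem a) ih

theorem Ctx.mem_PU (t : ι) (A I : Finset (ι × Bool)) (g : R) :
    g ∈ X.PU t A I ↔ (I ⊆ A → X.uz t I ∣ g) ∧ (¬ I ⊆ A → g = 0) := by
  unfold Ctx.PU
  split_ifs with h
  · simp [h, Ideal.mem_span_singleton]
  · simp [h]

theorem Ctx.uz_dvd_insert (t : ι) (a : ι × Bool) (I : Finset (ι × Bool)) :
    X.uz t I ∣ X.uz t (insert a I) :=
  prod_dvd_prod_of_subset _ _ _ (erase_subset_erase _ (image_subset_image (subset_insert a I)))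

theorem Ctx.uz_dvd_erase (t : ι) (a : ι × Bool) (I : Finset (ι × Bool)) :
    X.uz t I ∣ X.z a.1 * X.uz t (I.erase a) := by
  have hsub : (I.image Prod.fst).erase t ⊆ insert a.1 (((I.erase a).image Prod.fst).erase t) := by
    intro s hs
    obtain ⟨hst, hs⟩ := mem_erase.1 hs
    obtain ⟨b, hb, rfl⟩ := mem_image.1 hs
    by_cases hba : b = a
    · rw [hba]
      exact mem_insert_self _ _
    · exact mem_insert_of_mem (mem_erase.2 ⟨hst, mem_image_of_mem _ (mem_erase.2 ⟨hba, hb⟩)⟩)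
  refine (prod_dvd_prod_of_subset _ _ X.z hsub).trans ?_
  by_cases h : a.1 ∈ ((I.erase a).image Prod.fst).erase t
  · rw [insert_eq_of_mem h]
    exact Dvd.intro_left _ rfl
  · rw [prod_insert h]
    exact dvd_rfl

theorem Ctx.pr_mem (t : ι) (A : Finset (ι × Bool)) (w : Wt) (i : ℤ) {x : Finset (ι × Bool) → R}
    (hx : Mem (X.PU t A) i x) : Mem (X.PW t A w) i (X.pr w x) := by
  intro I
  obtain ⟨h1, h2⟩ := hx I
  rw [X.mem_PU] at h1
  refine ⟨⟨(X.mem_PU t A I _).2 ⟨fun h => ?_, fun h => ?_⟩, X.cp_mem _ _⟩, fun h => ?_⟩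
  · obtain ⟨g, hg⟩ := h1.1 h
    have hu : X.uz t I ∈ X.H (((I.image Prod.fst).erase t).card • ew 2) := X.prod_z_mem _
    have e := X.cp_mul _ (w - ∑ a ∈ I, wE a - ((I.image Prod.fst).erase t).card • ew 2) _ g hu
    rw [add_sub_cancel] at e
    exact ⟨_, by rw [Ctx.pr, hg, e]⟩
  · rw [Ctx.pr, h1.2 h, map_zero]
  · rw [Ctx.pr, h2 h, map_zero]

theorem Ctx.pr_add (w : Wt) (x x' : Finset (ι × Bool) → R) :
    X.pr w (x + x') = X.pr w x + X.pr w x' := by
  funext I
  exact map_add _ _ _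

theorem Ctx.pr_neg (w : Wt) (x : Finset (ι × Bool) → R) : X.pr w (-x) = -X.pr w x := by
  funext I
  exact map_neg _ _

theorem Ctx.pr_sum (w : Wt) {α : Type} (s : Finset α) (x : α → Finset (ι × Bool) → R) :
    X.pr w (∑ a ∈ s, x a) = ∑ a ∈ s, X.pr w (x a) := by
  funext I
  rw [Ctx.pr, Finset.sum_apply, Finset.sum_apply, map_sum]
  rfl

theorem Ctx.pr_lo (w : Wt) (a : ι × Bool) (x : Finset (ι × Bool) → R) :
    X.pr w (lo a x) = lo a (X.pr (w + wE a) x) := by
  funext I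
  rw [Ctx.pr, lo_apply, lo_apply]
  split_ifs with h
  · exact map_zero _
  · rw [X.cp_sg, Ctx.pr, sum_insert h, add_comm w, add_sub_add_left_eq_sub]

theorem Ctx.pr_up (w : Wt) (a : ι × Bool) (x : Finset (ι × Bool) → R) :
    X.pr (w + wE a) (up a x) = up a (X.pr w x) := by
  funext I
  rw [Ctx.pr, up_apply, up_apply]
  split_ifs with h
  · rw [X.cp_sg, Ctx.pr, ← add_sum_erase I wE h, add_comm w, add_sub_add_left_eq_sub]
  · exact map_zero _

theorem Ctx.pr_smul {g : R} {v : Wt} (hg : g ∈ X.H v) (w : Wt) (x : Finset (ι × Bool) → R) :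
    X.pr (v + w) (g • x) = g • X.pr w x := by
  funext I
  rw [Ctx.pr, add_sub_assoc]
  exact X.cp_mul _ _ _ _ hg

theorem Ctx.pr_smul_one (w : Wt) (g : R) : X.pr w (g • one) = X.cp w g • one := by
  funext I
  by_cases h : I = ∅ <;> simp [Ctx.pr, one, h]

theorem Ctx.pr_dd (w : Wt) (A : Finset (ι × Bool)) (x : Finset (ι × Bool) → R) :
    X.pr w (dd A X.fE x) = dd A X.fE (X.pr w x) := by
  rw [dd_apply, dd_apply, X.pr_sum]
  refine sum_congr rfl fun a _ => ?_
  have h := X.pr_smul (g := X.fE a) (v := wE a) (X.y_mem a.2 a.1) (w - wE a) (lo a x)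
  rw [add_sub_cancel, X.pr_lo, sub_add_cancel] at h
  exact h

theorem Ctx.pr_xc (w : Wt) (c : Bool) (S : Finset ι) (x : Finset (ι × Bool) → R) :
    X.pr (w + (ew (bl c) + p • ew 2)) (X.xc c S x) = X.xc c S (X.pr w x) := by
  unfold Ctx.xc
  rw [xi_apply, xi_apply, X.pr_sum]
  refine sum_congr rfl fun a ha => ?_
  have hc : wE a = ew (bl c) := by rw [wE, mem_singleton.1 (mem_product.1 ha).2]
  have h := X.pr_smul (X.pow_mem_H (X.z_mem a.1) p) (w + wE a) (up a x)
  rw [X.pr_up, hc] at h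
  rw [← h]
  congr 1
  abel

/-- `xc` keeps the divisibility conditions. -/
theorem Ctx.xc_mem (hp : 1 ≤ p) (t : ι) (A : Finset (ι × Bool)) (c : Bool) (S : Finset ι)
    (hS : S ×ˢ {c} ⊆ A) (w : Wt) (i : ℤ) {x : Finset (ι × Bool) → R}
    (hx : Mem (X.PW t A w) i x) :
    Mem (X.PW t A (w + (ew (bl c) + p • ew 2))) (i + 1) (X.xc c S x) := by
  unfold Ctx.xc
  rw [xi_apply]
  refine Mem.sum _ _ fun a ha I => ?_
  have hc : wE a = ew (bl c) := by rw [wE, mem_singleton.1 (mem_product.1 ha).2]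
  rw [Pi.smul_apply, smul_eq_mul, up_apply]
  split_ifs with h
  · obtain ⟨⟨h1, h2⟩, h3⟩ := hx (I.erase a)
    have h1' := (X.mem_PU t A _ _).1 h1
    refine ⟨⟨(X.mem_PU t A I _).2 ⟨fun hI => ?_, fun hI => ?_⟩, ?_⟩, fun hi => ?_⟩
    · refine (X.uz_dvd_erase t a I).trans (mul_dvd_mul (dvd_pow_self _ (by omega)) ?_)
      exact (h1'.1 ((erase_subset a I).trans hI)).mul_left _
    · rw [h1'.2 fun h4 => hI ?_, mul_zero, mul_zero]
      rw [← insert_erase h]
      exact insert_subset (hS ha) h4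
    · have h5 := X.mul_mem _ _ _ _ (X.pow_mem_H (X.z_mem a.1) p) (sg_mul_mem _ a I h2)
      have e : p • ew 2 + (w - ∑ b ∈ I.erase a, wE b) =
          w + (ew (bl c) + p • ew 2) - ∑ b ∈ I, wE b := by
        rw [← add_sum_erase I wE h, hc]
        abel
      rw [e] at h5
      exact h5
    · rw [h3 fun h4 => hi ?_, mul_zero, mul_zero]
      rw [← h4, ← card_erase_add_one h]
      push_cast
      rfl
  · rw [mul_zero]
    exact ⟨AddSubgroup.zero_mem _, fun _ => rfl⟩

/-- The differential keeps the divisibility conditions. -/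
theorem Ctx.dd_mem (t : ι) (A B : Finset (ι × Bool)) (w : Wt) (i : ℤ)
    {x : Finset (ι × Bool) → R} (hx : Mem (X.PW t A w) (i + 1) x) :
    Mem (X.PW t A w) i (dd B X.fE x) := by
  rw [dd_apply]
  refine Mem.sum _ _ fun a _ I => ?_
  rw [Pi.smul_apply, smul_eq_mul, lo_apply]
  split_ifs with h
  · rw [mul_zero]
    exact ⟨AddSubgroup.zero_mem _, fun _ => rfl⟩
  · obtain ⟨⟨h1, h2⟩, h3⟩ := hx (insert a I)
    have h1' := (X.mem_PU t A _ _).1 h1
    refine ⟨⟨(X.mem_PU t A I _).2 ⟨fun hI => ?_, fun hI => ?_⟩, ?_⟩, fun hi => ?_⟩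
    · by_cases h4 : insert a I ⊆ A
      · exact (((X.uz_dvd_insert t a I).trans (h1'.1 h4)).mul_left _).mul_left _
      · rw [h1'.2 h4, mul_zero, mul_zero]
        exact dvd_zero _
    · rw [h1'.2 fun h4 => hI ((subset_insert a I).trans h4), mul_zero, mul_zero]
    · have h5 := X.mul_mem _ _ _ _ (X.y_mem a.2 a.1) (sg_mul_mem _ a I h2)
      have e : ew (bl a.2) + (w - ∑ b ∈ insert a I, wE b) = w - ∑ b ∈ I, wE b := by
        rw [sum_insert h, wE]
        abel
      rw [e] at h5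
      exact h5
    · rw [h3 fun h4 => hi ?_, mul_zero, mul_zero]
      rw [card_insert_of_notMem h] at h4
      push_cast at h4
      omega

/-- The component of a binomial power. -/
theorem Ctx.cp_binom (c : Bool) (s : ι) (n r : ℕ) (hr : r ≤ n) :
    X.cp (r • ew (bl (!c)) + (n - r) • ew (bl c)) ((X.y c s + X.y (!c) s) ^ n) =
      (n.choose r : R) * (X.y (!c) s ^ r * X.y c s ^ (n - r)) := by
  have hm : ∀ m, X.y (!c) s ^ m * X.y c s ^ (n - m) * (n.choose m : R) ∈
      X.H (m • ew (bl (!c)) + (n - m) • ew (bl c)) := by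
    intro m
    rw [mul_comm, ← nsmul_eq_mul]
    exact AddSubgroup.nsmul_mem _ (X.mul_mem _ _ _ _ (X.pow_mem_H (X.y_mem _ s) m)
      (X.pow_mem_H (X.y_mem _ s) (n - m))) _
  rw [add_comm (X.y c s), add_pow, map_sum, sum_eq_single r, X.cp_self _ _ (hm r), mul_comm]
  · intro m _ hne
    refine X.cp_ne _ _ _ (hm m) fun e => hne ?_
    have e1 := congrFun e (bl (!c))
    cases c <;> simpa [ew, bl] using e1
  · intro h
    exact absurd (mem_range.2 (by omega)) h

end Pool.Agent.Lib.MP_deca50_lc.Three
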