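import Pool.Agent.Lib.MP_deca50_lc.Three.Defs

/-! Translation of one copy by the other. -/

set_option linter.unusedSectionVars false

namespace Pool.Agent.Lib.MP_deca50_lc.Three

open Finset

section Site

variable {R : Type} [CommRing R] {γ : Type} [Fintype γ] [DecidableEq γ]

/-- The substitution `a ↦ a + b` of one generator. -/
noncomputable def psiT (a b : γ) : (Finset γ → R) →ₗ[R] (Finset γ → R) :=
  LinearMap.id + (up b).comp (lo a)

theorem psiT_apply (a b : γ) (x : Finset γ → R) : psiT a b x = x + up b (lo a x) := rfl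

theorem psiT_one (a b : γ) : psiT a b (one : Finset γ → R) = one := by
  rw [psiT_apply, lo_one, map_zero, add_zero]

theorem psiT_up_ne {a e : γ} (b : γ) (h : a ≠ e) (x : Finset γ → R) :
    psiT a b (up e x) = up e (psiT a b x) := by
  rw [psiT_apply, psiT_apply, lo_up_ne h, map_neg, up_comm b e, neg_neg, map_add]

theorem psiT_up_self (a b : γ) (x : Finset γ → R) :
    psiT a b (up a x) = up a (psiT a b x) + up b (psiT a b x) := by
  have h : lo a (up a x) = x - up a (lo a x) := eq_sub_of_add_eq (lo_up_self a x)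
  rw [psiT_apply, psiT_apply, h, map_sub, map_add, map_add, up_up, up_comm b a]
  abel

theorem psiT_lo_ne (a : γ) {b e : γ} (h : e ≠ b) (x : Finset γ → R) :
    psiT a b (lo e x) = lo e (psiT a b x) := by
  rw [psiT_apply, psiT_apply, map_add, lo_up_ne h, lo_comm a e, map_neg]

theorem psiT_lo_self {a b : γ} (h : a ≠ b) (x : Finset γ → R) :
    psiT a b (lo b x) = lo b (psiT a b x) - lo a (psiT a b x) := by
  have h1 : lo b (up b (lo a x)) = lo a x - up b (lo b (lo a x)) :=
    eq_sub_of_add_eq (lo_up_self b (lo a x))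
  rw [psiT_apply, psiT_apply, map_add, map_add, h1, lo_up_ne h, lo_lo, map_zero, lo_comm b a,
    map_neg]
  abel

/-- A ring homomorphism applied to the coefficients. -/
def psiP (φ : R →+* R) : (Finset γ → R) →+ (Finset γ → R) where
  toFun x := fun I => φ (x I)
  map_zero' := by funext I; simp
  map_add' x y := by funext I; simp

theorem psiP_apply (φ : R →+* R) (x : Finset γ → R) (I : Finset γ) : psiP φ x I = φ (x I) := rfl

theorem psi_map_sg (φ : R →+* R) (a : γ) (I : Finset γ) : φ (sg R a I) = sg R a I := by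
  unfold sg
  rw [map_pow, map_neg, map_one]

theorem psiP_smul (φ : R →+* R) (g : R) (x : Finset γ → R) :
    psiP φ (g • x) = φ g • psiP φ x := by
  funext I
  simp [psiP_apply]

theorem psiP_one (φ : R →+* R) : psiP φ (one : Finset γ → R) = one := by
  funext I
  rw [psiP_apply]
  unfold one
  split_ifs <;> simp

theorem psiP_lo (φ : R →+* R) (a : γ) (x : Finset γ → R) :
    psiP φ (lo a x) = lo a (psiP φ x) := by
  funext I
  rw [psiP_apply, lo_apply, lo_apply]
  split_ifs
  · exact map_zero φ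
  · rw [map_mul, psi_map_sg, psiP_apply]

theorem psiP_up (φ : R →+* R) (a : γ) (x : Finset γ → R) :
    psiP φ (up a x) = up a (psiP φ x) := by
  funext I
  rw [psiP_apply, up_apply, up_apply]
  split_ifs
  · rw [map_mul, psi_map_sg, psiP_apply]
  · exact map_zero φ

end Site

variable {R : Type} [CommRing R] [IsDomain R] {ι : Type} [Fintype ι] [DecidableEq ι]
  {p Q k ρ : ℕ} (X : Ctx R ι p Q k ρ)

theorem Ctx.psiT_mem (t s : ι) (c d : Bool) {A : Finset (ι × Bool)} (hA : (s, d) ∈ A) {i : ℤ}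
    {x : Finset (ι × Bool) → R} (hx : Mem (X.PU t A) i x) :
    Mem (X.PU t A) i (psiT (s, c) (s, d) x) := by
  rw [psiT_apply]
  refine hx.add fun I => ?_
  rw [up_apply]
  by_cases hb : (s, d) ∈ I
  swap
  · rw [if_neg hb]
    exact ⟨zero_mem _, fun _ => rfl⟩
  rw [if_pos hb, lo_apply]
  by_cases ha : (s, c) ∈ I.erase (s, d)
  · rw [if_pos ha, mul_zero]
    exact ⟨zero_mem _, fun _ => rfl⟩
  rw [if_neg ha]
  have hcard : (insert (s, c) (I.erase (s, d))).card = I.card := by
    rw [card_insert_of_notMem ha, card_erase_add_one hb]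
  have himg : (insert (s, c) (I.erase (s, d))).image Prod.fst = I.image Prod.fst := by
    conv_rhs => rw [← insert_erase hb]
    rw [image_insert, image_insert]
  obtain ⟨h1, h2⟩ := hx (insert (s, c) (I.erase (s, d)))
  refine ⟨sg_mul_mem _ _ _ (sg_mul_mem _ _ _ ?_), fun h => ?_⟩
  · unfold Ctx.PU at h1 ⊢
    by_cases hJ : insert (s, c) (I.erase (s, d)) ⊆ A
    · have hI : I ⊆ A := by
        rw [← insert_erase hb]
        exact insert_subset hA ((subset_insert _ _).trans hJ)
      rw [if_pos hJ] at h1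
      rw [if_pos hI]
      unfold Ctx.uz at h1 ⊢
      rwa [himg] at h1
    · rw [if_neg hJ, AddSubgroup.mem_bot] at h1
      rw [h1]
      exact zero_mem _
  · rw [h2 (by rwa [hcard]), mul_zero, mul_zero]

theorem Ctx.psiP_mem (t : ι) (c : Bool) {A : Finset (ι × Bool)} {i : ℤ}
    {x : Finset (ι × Bool) → R} (hx : Mem (X.PU t A) i x) :
    Mem (X.PU t A) i (psiP (X.ψ c) x) := by
  intro I
  obtain ⟨h1, h2⟩ := hx I
  rw [psiP_apply]
  refine ⟨?_, fun h => by rw [h2 h, map_zero]⟩
  unfold Ctx.PU at h1 ⊢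
  by_cases hI : I ⊆ A
  · rw [if_pos hI] at h1 ⊢
    have hu : X.ψ c (X.uz t I) = X.uz t I := by
      unfold Ctx.uz
      rw [map_prod]
      exact prod_congr rfl fun s _ => X.ψ_z c s
    obtain ⟨g, hg⟩ := Ideal.mem_span_singleton'.1 (show x I ∈ Ideal.span {X.uz t I} from h1)
    exact Ideal.mem_span_singleton'.2 ⟨X.ψ c g, by rw [← hg, map_mul, hu]⟩
  · rw [if_neg hI, AddSubgroup.mem_bot] at h1 ⊢
    rw [h1, map_zero]

theorem Ctx.exists_psiT (t : ι) (c : Bool) (S : Finset ι) :
    ∃ T : (Finset (ι × Bool) → R) →ₗ[R] (Finset (ι × Bool) → R), T one = one ∧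
      (∀ s x, T (lo (s, c) x) = lo (s, c) (T x)) ∧
      (∀ s x, T (lo (s, !c) x) = lo (s, !c) (T x) - if s ∈ S then lo (s, c) (T x) else 0) ∧
      (∀ s x, T (up (s, c) x) = up (s, c) (T x) + if s ∈ S then up (s, !c) (T x) else 0) ∧
      (∀ s x, T (up (s, !c) x) = up (s, !c) (T x)) ∧
      ∀ A : Finset (ι × Bool), (∀ s ∈ S, (s, !c) ∈ A) → ∀ i x, Mem (X.PU t A) i x →
        Mem (X.PU t A) i (T x) := by
  have n1 : ∀ r s : ι, ((r, c) : ι × Bool) ≠ (s, !c) := fun r s h => by
    have := congrArg Prod.snd h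
    simp at this
  induction S using Finset.induction_on with
  | empty => exact ⟨LinearMap.id, rfl, by simp, by simp, by simp, by simp, fun _ _ _ _ h => h⟩
  | insert s S hs ih =>
    obtain ⟨T, h1, h2, h3, h4, h5, h6⟩ := ih
    refine ⟨(psiT (s, c) (s, !c)).comp T, ?_, fun r x => ?_, fun r x => ?_, fun r x => ?_,
      fun r x => ?_, fun A hA i x hx => ?_⟩
    · rw [LinearMap.comp_apply, h1, psiT_one]
    · rw [LinearMap.comp_apply, LinearMap.comp_apply, h2, psiT_lo_ne _ (n1 r s)]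
    · rw [LinearMap.comp_apply, LinearMap.comp_apply, h3]
      by_cases hr : r = s
      · subst hr
        rw [if_neg hs, sub_zero, if_pos (mem_insert_self _ _), psiT_lo_self (n1 r r)]
      · have hne : ((r, !c) : ι × Bool) ≠ (s, !c) := fun h => hr (congrArg Prod.fst h)
        by_cases hS : r ∈ S
        · rw [if_pos hS, if_pos (mem_insert_of_mem hS), map_sub, psiT_lo_ne _ hne,
            psiT_lo_ne _ (n1 r s)]
        · rw [if_neg hS, if_neg (fun h => (mem_insert.1 h).elim hr hS), sub_zero, sub_zero,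
            psiT_lo_ne _ hne]
    · rw [LinearMap.comp_apply, LinearMap.comp_apply, h4]
      by_cases hr : r = s
      · subst hr
        rw [if_neg hs, add_zero, if_pos (mem_insert_self _ _), psiT_up_self]
      · have hne : ((s, c) : ι × Bool) ≠ (r, c) := fun h => hr (congrArg Prod.fst h).symm
        by_cases hS : r ∈ S
        · rw [if_pos hS, if_pos (mem_insert_of_mem hS), map_add, psiT_up_ne _ hne,
            psiT_up_ne _ (n1 s r)]
        · rw [if_neg hS, if_neg (fun h => (mem_insert.1 h).elim hr hS), add_zero, add_zero,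
            psiT_up_ne _ hne]
    · rw [LinearMap.comp_apply, LinearMap.comp_apply, h5, psiT_up_ne _ (n1 s r)]
    · rw [LinearMap.comp_apply]
      exact X.psiT_mem t s c (!c) (hA s (mem_insert_self _ _))
        (h6 A (fun r hr => hA r (mem_insert_of_mem hr)) i x hx)

theorem psi_sum_G0 {M : Type} [AddCommMonoid M] (t : ι) (c : Bool) (g : ι × Bool → M) :
    ∑ a ∈ G0 t, g a = ∑ s ∈ univ.erase t, (g (s, c) + g (s, !c)) := by
  have h : G0 t = (univ.erase t) ×ˢ (univ : Finset Bool) := by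
    ext a
    simp [G0]
  rw [h, sum_product]
  refine sum_congr rfl fun s _ => ?_
  rw [Fintype.sum_bool]
  cases c
  · exact add_comm _ _
  · rfl

/-- The substitution `y c ↦ y c + y (!c)`, `E c ↦ E c + E (!c)` (sites other than `t`). -/
theorem Ctx.exists_psi (t : ι) (c : Bool) :
    ∃ Ψ : (Finset (ι × Bool) → R) →+ (Finset (ι × Bool) → R),
      (∀ (g : R) x, Ψ (g • x) = X.ψ c g • Ψ x) ∧ Ψ one = one ∧
      (∀ x, Ψ (X.d0 t x) = X.d0 t (Ψ x)) ∧
      (∀ s x, s ≠ t → Ψ (up (s, c) x) = up (s, c) (Ψ x) + up (s, !c) (Ψ x)) ∧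
      (∀ s x, Ψ (up (s, !c) x) = up (s, !c) (Ψ x)) ∧
      (∀ b x, Ψ (up (t, b) x) = up (t, b) (Ψ x)) ∧ (∀ b x, Ψ (lo (t, b) x) = lo (t, b) (Ψ x)) ∧
      (∀ i x, Mem (X.PU t (G0 t)) i x → Mem (X.PU t (G0 t)) i (Ψ x)) ∧
      (∀ i x, Mem (X.PU t (Gt t)) i x → Mem (X.PU t (Gt t)) i (Ψ x)) := by
  obtain ⟨T, h1, h2, h3, h4, h5, h6⟩ := X.exists_psiT t c (univ.erase t)
  have ht : t ∉ (univ.erase t : Finset ι) := notMem_erase t _
  have hb : ∀ b : Bool, b = c ∨ b = !c := fun b => by cases b <;> cases c <;> simp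
  have hG : ∀ s ∈ (univ.erase t : Finset ι), (s, !c) ∈ G0 t := fun s hs => by
    simpa [G0] using (mem_erase.1 hs).1
  have e : ∀ x, (T.toAddMonoidHom.comp (psiP (X.ψ c))) x = T (psiP (X.ψ c) x) := fun _ => rfl
  refine ⟨T.toAddMonoidHom.comp (psiP (X.ψ c)), fun g x => ?_, ?_, fun x => ?_, fun s x hs => ?_,
    fun s x => ?_, fun b x => ?_, fun b x => ?_, fun i x hx => ?_, fun i x hx => ?_⟩
  · rw [e, e, psiP_smul, map_smul]
  · rw [e, psiP_one, h1]
  · rw [e, e]
    unfold Ctx.d0
    rw [dd_apply, dd_apply, map_sum, map_sum, psi_sum_G0 t c, psi_sum_G0 t c]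
    refine sum_congr rfl fun s hs => ?_
    rw [psiP_smul, psiP_smul, map_smul, map_smul, psiP_lo, psiP_lo, h2, h3, if_pos hs]
    unfold Ctx.fE
    rw [X.ψ_self, X.ψ_other, add_smul, smul_sub]
    abel
  · rw [e, e, psiP_up, h4, if_pos (mem_erase.2 ⟨hs, mem_univ _⟩)]
  · rw [e, e, psiP_up, h5]
  · rw [e, e, psiP_up]
    rcases hb b with rfl | rfl
    · rw [h4, if_neg ht, add_zero]
    · exact h5 _ _
  · rw [e, e, psiP_lo]
    rcases hb b with rfl | rfl
    · exact h2 _ _
    · rw [h3, if_neg ht, sub_zero]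
  · rw [e]
    exact h6 _ hG i _ (X.psiP_mem t c hx)
  · rw [e]
    exact h6 _ (fun s hs => mem_insert_of_mem (hG s hs)) i _ (X.psiP_mem t c hx)

end Pool.Agent.Lib.MP_deca50_lc.Three
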