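import Pool.Agent.Lib.MP_deca50_lc.Three.TW
import Pool.Agent.Lib.MP_deca50_lc.Three.Pr
import Pool.Agent.Lib.MP_deca50_lc.Three.Psi

/-! The start of the induction. -/

set_option linter.unusedSectionVars false

namespace Pool.Agent.Lib.MP_deca50_lc.Three

open Finset

section Aux

variable {R : Type} [CommRing R] {γ : Type} [Fintype γ] [DecidableEq γ]

theorem base_mem_of_supp {U : Finset γ → AddSubgroup R} {i : ℤ} {x : Finset γ → R}
    (J : Finset γ) (h : ∀ I, I ≠ J → x I = 0) (hJ : x J ∈ U J) (hc : (J.card : ℤ) = i) :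
    Mem U i x := by
  intro I
  by_cases e : I = J
  · subst e
    exact ⟨hJ, fun h' => absurd hc h'⟩
  · rw [h I e]
    exact ⟨(U I).zero_mem, fun _ => rfl⟩

theorem base_up_one_ne (a : γ) (I : Finset γ) (h : I ≠ {a}) :
    up a (one : Finset γ → R) I = 0 := by
  rw [up_apply]
  split_ifs with ha
  · have : I.erase a ≠ ∅ := by
      intro e
      apply h
      rw [← insert_erase ha, e]
      rfl
    simp [one, this]
  · rfl

theorem base_up_up_ne (a b : γ) (I : Finset γ) (h : I ≠ {a, b}) :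
    up a (up b (one : Finset γ → R)) I = 0 := by
  rw [up_apply]
  split_ifs with ha
  · have : I.erase a ≠ {b} := by
      intro e
      apply h
      rw [← insert_erase ha, e]
    rw [base_up_one_ne b _ this, mul_zero]
  · rfl

theorem base_dd_one (A : Finset γ) (f : γ → R) : dd A f (one : Finset γ → R) = 0 := by
  simp [dd_apply, lo_one]

theorem base_dd_up_one {A : Finset γ} (f : γ → R) {a : γ} (ha : a ∈ A) :
    dd A f (up a (one : Finset γ → R)) = f a • one := by
  have := dd_up A f a (one : Finset γ → R)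
  rw [base_dd_one, map_zero, add_zero, if_pos ha] at this
  exact this

theorem base_dd_up_up {A : Finset γ} (f : γ → R) {a b : γ} (ha : a ∈ A) (hb : b ∈ A) :
    dd A f (up a (up b (one : Finset γ → R))) = f a • up b one - f b • up a one := by
  have := dd_up A f a (up b (one : Finset γ → R))
  rw [base_dd_up_one f hb, map_smul, if_pos ha] at this
  exact eq_sub_of_add_eq this

end Aux

variable {R : Type} [CommRing R] [IsDomain R] {ι : Type} [Fintype ι] [DecidableEq ι]
  {p Q k ρ : ℕ} (X : Ctx R ι p Q k ρ)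

theorem Ctx.base_cp1 (n : ℕ) (hn : ((n + 2 : ℕ) : R) = 0) (s : ι) {u : R} {v : Wt}
    (hu : u ∈ X.H v) :
    X.cp (v + (ew 0 + n • ew 1)) (u * (X.y true s + X.y false s) ^ (n + 1)) =
      -(u * (X.y false s * X.y true s ^ n)) := by
  have h := X.cp_binom true s (n + 1) 1 (by omega)
  simp only [Bool.not_true, bl, Nat.add_sub_cancel, one_smul, if_true, Nat.choose_one_right,
    pow_one, Bool.false_eq_true, if_false] at h
  rw [X.cp_mul _ _ _ _ hu, h]
  have e : ((n + 1 : ℕ) : R) = -1 := by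
    push_cast at hn ⊢
    linear_combination hn
  rw [e]
  ring

theorem Ctx.base_cp0 (n : ℕ) (s : ι) {u : R} {v : Wt} (hu : u ∈ X.H v) :
    X.cp (v + n • ew 1) (u * (X.y true s + X.y false s) ^ n) = u * X.y true s ^ n := by
  have h := X.cp_binom true s n 0 (by omega)
  simp only [Bool.not_true, bl, Nat.sub_zero, zero_smul, if_true, Nat.choose_zero_right,
    pow_zero, zero_add, Nat.cast_one, one_mul] at h
  rw [X.cp_mul _ _ _ _ hu, h]

theorem Ctx.base_xc (c : Bool) (S : Finset ι) :
    X.xc c S one = ∑ s ∈ S, X.z s ^ p • up (s, c) (one : Finset (ι × Bool) → R) := by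
  simp [Ctx.xc, xi_apply]

theorem base_mem_G0 {t s : ι} (h : s ≠ t) (b : Bool) : (s, b) ∈ G0 t := by
  simp [G0, h]

theorem Ctx.base (hp : 2 ≤ p) (hQ : (Q : R) = 0) (hQ2 : 2 ≤ Q) (h1 : (p : ℤ) - Q < k)
    (h2 : (Q : ℤ) - p < ρ) (t : ι) : X.BB t (Q - 2) := by
  obtain ⟨n, rfl⟩ : ∃ n, Q = n + 2 := ⟨Q - 2, by omega⟩
  obtain ⟨a, rfl⟩ : ∃ a, p = a + 1 := ⟨p - 1, by omega⟩
  have hz1 : ∀ s, X.z t ^ a * X.z s ∈ X.H ((a + 1) • ew 2) := by
    intro s
    rw [succ_nsmul]
    exact X.mul_mem _ _ _ _ (X.toGrd.pow_mem (X.z_mem t) a) (X.z_mem s)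
  have hz2 : ∀ s, X.z s ^ (a + 1) ∈ X.H ((a + 1) • ew 2) :=
    fun s => X.toGrd.pow_mem (X.z_mem s) (a + 1)
  have hy : ∀ s, X.y true s ^ (n + 1) ∈ X.H ((n + 1) • ew 1) :=
    fun s => X.toGrd.pow_mem (X.y_mem true s) (n + 1)
  set co : ι → R := fun s =>
    X.z t ^ a * X.z s * X.y true s ^ (n + 1) - X.z s ^ (a + 1) * X.y true t ^ (n + 1) with hco
  set c : Finset (ι × Bool) → R := ∑ s ∈ univ.erase t, co s • up (s, true) one with hc
  set w : Wt := (a + 1) • ew 2 + (n + 1) • ew 1 + ew 1 with hw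
  have hw0 : w 0 = 0 := by simp [hw, ew]
  have hw1 : w 1 = n + 2 := by simp [hw, ew]; ring
  have hw2 : w 2 = a + 1 := by simp [hw, ew]
  have hcm : Mem (X.PW t (Gt t) w) 1 c := by
    refine Mem.sum _ _ fun s hs => ?_
    have hst : s ≠ t := ne_of_mem_erase hs
    refine base_mem_of_supp {(s, true)} (fun I hI => ?_) ?_ (by simp)
    · rw [Pi.smul_apply, base_up_one_ne _ _ hI, smul_zero]
    · have e : (co s • up (s, true) (one : Finset (ι × Bool) → R)) {(s, true)} =
          sg R (s, true) {(s, true)} * co s := by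
        simp [up_apply, one, mul_comm]
      rw [e]
      refine sg_mul_mem _ _ _ ⟨?_, ?_⟩
      · have hsub : ({(s, true)} : Finset (ι × Bool)) ⊆ Gt t :=
          singleton_subset_iff.2 (mem_insert_of_mem (base_mem_G0 hst true))
        have hu : X.uz t {(s, true)} = X.z s := by
          simp [Ctx.uz, erase_eq_of_notMem, hst.symm]
        show co s ∈ X.PU t (Gt t) {(s, true)}
        rw [Ctx.PU, if_pos hsub, hu]
        exact Ideal.mem_span_singleton.2
          ⟨X.z t ^ a * X.y true s ^ (n + 1) - X.z s ^ a * X.y true t ^ (n + 1), by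
            simp only [hco]; ring⟩
      · have e2 : w - ∑ b ∈ ({(s, true)} : Finset (ι × Bool)), wE b =
            (a + 1) • ew 2 + (n + 1) • ew 1 := by
          simp [hw, wE, bl]
        show co s ∈ X.H (w - ∑ b ∈ ({(s, true)} : Finset (ι × Bool)), wE b)
        rw [e2]
        exact (X.H _).sub_mem (X.mul_mem _ _ _ _ (hz1 s) (hy s))
          (X.mul_mem _ _ _ _ (hz2 s) (hy t))
  have hcd : dd (Gt t) X.fE c = 0 := by
    have e1 : dd (Gt t) X.fE c = (∑ s ∈ univ.erase t, co s * X.y true s) • one := by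
      rw [hc, map_sum, sum_smul]
      refine sum_congr rfl fun s hs => ?_
      have hm : (s, true) ∈ Gt t := mem_insert_of_mem (base_mem_G0 (ne_of_mem_erase hs) true)
      rw [map_smul, base_dd_up_one _ hm, smul_smul]
      rfl
    have e2 := X.theta true
    have e3 := X.kappa true
    rw [← add_sum_erase _ _ (mem_univ t)] at e2 e3
    have e4 : ∑ s ∈ univ.erase t, co s * X.y true s =
        X.z t ^ a * ∑ s ∈ univ.erase t, X.y true s ^ (n + 2) * X.z s -
          X.y true t ^ (n + 1) * ∑ s ∈ univ.erase t, X.y true s * X.z s ^ (a + 1) := by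
      rw [mul_sum, mul_sum, ← sum_sub_distrib]
      refine sum_congr rfl fun s _ => ?_
      simp only [hco]
      ring
    have e5 : ∑ s ∈ univ.erase t, co s * X.y true s = 0 := by
      rw [e4]
      linear_combination X.z t ^ a * e2 - X.y true t ^ (n + 1) * e3
    rw [e1, e5, zero_smul]
  obtain ⟨η, hηm, hηd⟩ := X.tw t w 1 (by rw [hw0]; norm_num) (by rw [hw0]; positivity)
    (by rw [hw1, hw2]; push_cast at h1; linarith)
    (by rw [hw0, hw1, hw2]; push_cast at h2; linarith) c hcm hcd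
  have hηt : ∀ I, (t, false) ∈ I → η I = 0 := by
    intro I hI
    refine X.neg _ 0 _ ?_ (hηm I).1.2
    have e1 : (1 : ℤ) ≤ ∑ b ∈ I, wE b 0 := by
      have : wE (t, false) 0 = 1 := by simp [wE, bl, ew]
      rw [← this]
      refine single_le_sum (f := fun b : ι × Bool => wE b 0) (fun b _ => ?_) hI
      simp only [wE, ew, Pi.single_apply]
      split_ifs <;> norm_num
    rw [Pi.sub_apply, Finset.sum_apply, hw0]
    linarith
  have hηU : Mem (X.PU t (G0 t)) 2 η := by
    intro I
    refine ⟨?_, (hηm I).2⟩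
    by_cases hI : (t, false) ∈ I
    · rw [hηt I hI]
      exact AddSubgroup.zero_mem _
    · have e1 : η I ∈ X.PU t (Gt t) I := (hηm I).1.1
      have e2 : I ⊆ Gt t ↔ I ⊆ G0 t := subset_insert_iff_of_notMem hI
      simpa only [Ctx.PU, e2] using e1
  have hηd0 : X.d0 t η = c := by
    have e1 : lo (t, false) η = 0 := by
      funext I
      rw [lo_apply]
      split_ifs
      · rfl
      · rw [hηt _ (mem_insert_self _ _), mul_zero]
        rfl
    rw [Gt, dd_insert (by simp [G0]), e1, smul_zero, zero_add] at hηd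
    exact hηd
  obtain ⟨Ψ, hΨs, hΨ1, hΨd, hΨu, -, -, -, hΨm, -⟩ := X.exists_psi t true
  set w' : Wt := (a + 1) • ew 2 + (n + 1) • ew 1 + ew 0 with hw'
  set g : Finset (ι × Bool) → R := ∑ s ∈ univ.erase t,
    (X.z t ^ a * X.z s * X.y true s ^ n) • up (s, true) (up (s, false) one) with hg
  have hgm : Mem (X.PU t (G0 t)) 2 g := by
    refine Mem.sum _ _ fun s hs => ?_
    have hst : s ≠ t := ne_of_mem_erase hs
    refine base_mem_of_supp {(s, true), (s, false)} (fun I hI => ?_) ?_ (by simp)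
    · rw [Pi.smul_apply, base_up_up_ne _ _ _ hI, smul_zero]
    · have hsub : ({(s, true), (s, false)} : Finset (ι × Bool)) ⊆ G0 t :=
        insert_subset (base_mem_G0 hst true) (singleton_subset_iff.2 (base_mem_G0 hst false))
      have hu : X.uz t {(s, true), (s, false)} = X.z s := by
        simp [Ctx.uz, erase_eq_of_notMem, hst.symm]
      rw [Ctx.PU, if_pos hsub, hu, Pi.smul_apply, smul_eq_mul]
      exact Ideal.mem_span_singleton.2
        ⟨X.z t ^ a * X.y true s ^ n * up (s, true) (up (s, false) one) {(s, true), (s, false)},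
          by ring⟩
  have hψ : ∀ s, X.ψ true (co s) =
      X.z t ^ a * X.z s * (X.y true s + X.y false s) ^ (n + 1) -
        X.z s ^ (a + 1) * (X.y true t + X.y false t) ^ (n + 1) := by
    intro s
    simp only [hco, map_sub, map_mul, map_pow, X.ψ_z, X.ψ_self, Bool.not_true]
  have hpr : ∀ s ∈ univ.erase t, X.pr w' (Ψ (co s • up (s, true) one)) =
      (X.z s ^ (a + 1) * (X.y false t * X.y true t ^ n) -
          X.z t ^ a * X.z s * (X.y false s * X.y true s ^ n)) • up (s, true) one +
        co s • up (s, false) one := by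
    intro s hs
    have e1 : w' = (a + 1) • ew 2 + (ew 0 + n • ew 1) + wE (s, true) := by
      simp only [hw', wE, bl, if_true, succ_nsmul]
      abel
    have e2 : w' = (a + 1) • ew 2 + (n + 1) • ew 1 + wE (s, false) := by
      simp [hw', wE, bl]
    rw [hΨs, hΨu s _ (ne_of_mem_erase hs), hΨ1, smul_add, X.pr_add, Bool.not_true]
    congr 1
    · rw [← map_smul, e1, X.pr_up, X.pr_smul_one, map_smul, hψ, map_sub,
        X.base_cp1 n hQ s (hz1 s), X.base_cp1 n hQ t (hz2 s)]
      congr 1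
      ring
    · rw [← map_smul, e2, X.pr_up, X.pr_smul_one, map_smul, hψ, map_sub,
        X.base_cp0 (n + 1) s (hz1 s), X.base_cp0 (n + 1) t (hz2 s)]
  have hprsum : ∀ (S : Finset ι) (x : ι → Finset (ι × Bool) → R),
      X.pr w' (∑ s ∈ S, x s) = ∑ s ∈ S, X.pr w' (x s) := by
    intro S x
    funext I
    simp [Ctx.pr, Finset.sum_apply]
  refine ⟨X.pr w' (Ψ η) - g, Mem.sub ?_ hgm, ?_⟩
  · exact (X.pr_mem t (G0 t) w' 2 (hΨm 2 η hηU)).mono fun I => inf_le_left
  · have e1 : X.d0 t (X.pr w' (Ψ η)) = X.pr w' (Ψ c) := by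
      rw [← hηd0, hΨd]
      exact (X.pr_dd w' (G0 t) (Ψ η)).symm
    rw [map_sub, e1, hc, map_sum, hprsum, sum_congr rfl hpr, hg, map_sum, Nat.add_sub_cancel,
      Ctx.vt, X.base_xc, X.base_xc, smul_sum, smul_sum, ← sum_sub_distrib, ← sum_sub_distrib,
      smul_sum]
    refine sum_congr rfl fun s hs => ?_
    have hst : s ≠ t := ne_of_mem_erase hs
    rw [map_smul, Ctx.d0, base_dd_up_up _ (base_mem_G0 hst true) (base_mem_G0 hst false)]
    simp only [hco, Ctx.fE]
    module

end Pool.Agent.Lib.MP_deca50_lc.Three
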