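import Mathlib

/-! Exterior algebras in coordinates, graded families and the data of the two-copy argument. -/

set_option linter.unusedSectionVars false

namespace Pool.Agent.Lib.MP_deca50_lc.Three

open Finset

section Ext

variable {R : Type} [CommRing R] {γ : Type} [Fintype γ] [DecidableEq γ]

/-- A fixed numbering of the generators. -/
noncomputable def rk (a : γ) : ℕ := Fintype.equivFin γ a

theorem rk_inj {a b : γ} (h : rk a = rk b) : a = b :=
  (Fintype.equivFin γ).injective (Fin.ext h)

/-- The sign of moving `a` past the smaller generators of `I`. -/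
noncomputable def sg (R : Type) [CommRing R] (a : γ) (I : Finset γ) : R :=
  (-1) ^ (I.filter fun b => rk b < rk a).card

/-- Contraction with the generator `a`. -/
noncomputable def lo (a : γ) : (Finset γ → R) →ₗ[R] (Finset γ → R) where
  toFun x := fun I => if a ∈ I then 0 else sg R a I * x (insert a I)
  map_add' x y := by funext I; by_cases h : a ∈ I <;> simp [h, mul_add]
  map_smul' c x := by funext I; by_cases h : a ∈ I <;> simp [h, mul_left_comm]

/-- Left multiplication by the generator `a`. -/
noncomputable def up (a : γ) : (Finset γ → R) →ₗ[R] (Finset γ → R) where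
  toFun x := fun I => if a ∈ I then sg R a I * x (I.erase a) else 0
  map_add' x y := by funext I; by_cases h : a ∈ I <;> simp [h, mul_add]
  map_smul' c x := by funext I; by_cases h : a ∈ I <;> simp [h, mul_left_comm]

/-- The Koszul differential sending the generator `a ∈ A` to `f a`. -/
noncomputable def dd (A : Finset γ) (f : γ → R) : (Finset γ → R) →ₗ[R] (Finset γ → R) :=
  ∑ a ∈ A, f a • lo a

/-- Left multiplication by `∑ a ∈ A, f a • a`. -/
noncomputable def xi (A : Finset γ) (f : γ → R) : (Finset γ → R) →ₗ[R] (Finset γ → R) :=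
  ∑ a ∈ A, f a • up a

/-- The unit of the exterior algebra. -/
def one : Finset γ → R := fun I => if I = ∅ then 1 else 0

/-- `x` has exterior degree `i` and its coefficients lie in the family `U`. -/
def Mem (U : Finset γ → AddSubgroup R) (i : ℤ) (x : Finset γ → R) : Prop :=
  ∀ I, x I ∈ U I ∧ ((I.card : ℤ) ≠ i → x I = 0)

/-- Exactness of the Koszul complex with coefficients in `U` at exterior degree `i`. -/
def Exa (A : Finset γ) (f : γ → R) (U : Finset γ → AddSubgroup R) (i : ℤ) : Prop :=
  ∀ x, Mem U i x → dd A f x = 0 → ∃ y, Mem U (i + 1) y ∧ dd A f y = x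

/-- The part of `U` in which the generators of `B` are in the state `J`. -/
def slice (B J : Finset γ) (U : Finset γ → AddSubgroup R) : Finset γ → AddSubgroup R :=
  fun I => if I ∩ B = J then U I else ⊥

theorem lo_apply (a : γ) (x : Finset γ → R) (I : Finset γ) :
    lo a x I = if a ∈ I then 0 else sg R a I * x (insert a I) := rfl

theorem up_apply (a : γ) (x : Finset γ → R) (I : Finset γ) :
    up a x I = if a ∈ I then sg R a I * x (I.erase a) else 0 := rfl

theorem dd_apply (A : Finset γ) (f : γ → R) (x : Finset γ → R) :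
    dd A f x = ∑ a ∈ A, f a • lo a x := by
  simp [dd, LinearMap.sum_apply]

theorem xi_apply (A : Finset γ) (f : γ → R) (x : Finset γ → R) :
    xi A f x = ∑ a ∈ A, f a • up a x := by
  simp [xi, LinearMap.sum_apply]

theorem sg_mul_self (a : γ) (I : Finset γ) : sg R a I * sg R a I = 1 := by
  unfold sg; rw [← mul_pow]; simp

theorem sg_eq (a : γ) (I : Finset γ) : sg R a I = 1 ∨ sg R a I = -1 := neg_one_pow_eq_or R _

theorem sg_insert (a : γ) {b : γ} {I : Finset γ} (h : b ∉ I) :
    sg R a (insert b I) = (if rk b < rk a then -1 else 1) * sg R a I := by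
  unfold sg
  rw [filter_insert]
  split_ifs with h1
  · rw [card_insert_of_notMem (fun h2 => h (mem_filter.1 h2).1), pow_succ]; ring
  · ring

theorem sg_insert_self {a : γ} {I : Finset γ} (h : a ∉ I) : sg R a (insert a I) = sg R a I := by
  rw [sg_insert a h]; simp

theorem sg_erase (a : γ) {b : γ} {I : Finset γ} (h : b ∈ I) :
    sg R a (I.erase b) = (if rk b < rk a then -1 else 1) * sg R a I := by
  have := sg_insert (R := R) a (notMem_erase b I)
  rw [insert_erase h] at this
  rw [this]
  split_ifs <;> ring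

theorem sg_swap {a b : γ} (h : a ≠ b) :
    (if rk b < rk a then (-1 : R) else 1) = -(if rk a < rk b then -1 else 1) := by
  have : rk a ≠ rk b := fun h1 => h (rk_inj h1)
  split_ifs <;> first | omega | simp

theorem lo_lo (a : γ) (x : Finset γ → R) : lo a (lo a x) = 0 := by
  funext I; simp [lo_apply]

theorem up_up (a : γ) (x : Finset γ → R) : up a (up a x) = 0 := by
  funext I; simp [up_apply]

theorem lo_comm (a b : γ) (x : Finset γ → R) : lo a (lo b x) = -lo b (lo a x) := by
  by_cases h : a = b
  · subst h; simp [lo_lo]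
  funext I
  simp only [lo_apply, Pi.neg_apply, mem_insert, h, Ne.symm h, false_or]
  by_cases ha : a ∈ I <;> by_cases hb : b ∈ I <;> simp only [ha, hb, if_true, if_false] <;>
    try simp
  rw [sg_insert b ha, sg_insert a hb, insert_comm, sg_swap (R := R) h]
  ring

theorem up_comm (a b : γ) (x : Finset γ → R) : up a (up b x) = -up b (up a x) := by
  by_cases h : a = b
  · subst h; simp [up_up]
  funext I
  simp only [up_apply, Pi.neg_apply, mem_erase, ne_eq, h, Ne.symm h, not_false_eq_true, true_and]
  by_cases ha : a ∈ I <;> by_cases hb : b ∈ I <;> simp only [ha, hb, if_true, if_false] <;>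
    try simp
  rw [sg_erase b ha, sg_erase a hb, erase_right_comm, sg_swap (R := R) h]
  ring

theorem lo_up_self (a : γ) (x : Finset γ → R) : lo a (up a x) + up a (lo a x) = x := by
  funext I
  by_cases ha : a ∈ I
  · simp [lo_apply, up_apply, ha, sg_erase a ha, ← mul_assoc, sg_mul_self, insert_erase ha]
  · simp [lo_apply, up_apply, ha, sg_insert_self ha, ← mul_assoc, sg_mul_self, erase_insert ha]

theorem lo_up_ne {a b : γ} (h : a ≠ b) (x : Finset γ → R) : lo a (up b x) = -up b (lo a x) := by
  funext I
  simp only [lo_apply, up_apply, Pi.neg_apply, mem_insert, mem_erase, ne_eq, h, Ne.symm h,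
    not_false_eq_true, true_and, false_or]
  by_cases ha : a ∈ I <;> by_cases hb : b ∈ I <;> simp only [ha, hb, if_true, if_false] <;>
    try simp
  rw [sg_insert b ha, sg_erase a hb, erase_insert_of_ne h, sg_swap (R := R) h]
  ring

theorem lo_one (a : γ) : lo a (one : Finset γ → R) = 0 := by
  funext I; simp [lo_apply, one]

theorem lo_dd (a : γ) (A : Finset γ) (f : γ → R) (x : Finset γ → R) :
    lo a (dd A f x) = -dd A f (lo a x) := by
  simp only [dd_apply, map_sum, map_smul, lo_comm a, smul_neg, sum_neg_distrib]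

theorem up_xi (a : γ) (A : Finset γ) (f : γ → R) (x : Finset γ → R) :
    up a (xi A f x) = -xi A f (up a x) := by
  simp only [xi_apply, map_sum, map_smul, up_comm a, smul_neg, sum_neg_distrib]

theorem up_dd {a : γ} {A : Finset γ} (h : a ∉ A) (f : γ → R) (x : Finset γ → R) :
    dd A f (up a x) = -up a (dd A f x) := by
  simp only [dd_apply, map_sum, map_smul, ← sum_neg_distrib, ← smul_neg]
  exact sum_congr rfl fun b hb => by rw [lo_up_ne (a := b) (b := a) (fun e => h (e ▸ hb))]

theorem dd_insert {a : γ} {A : Finset γ} (h : a ∉ A) (f : γ → R) (x : Finset γ → R) :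
    dd (insert a A) f x = f a • lo a x + dd A f x := by
  rw [dd_apply, sum_insert h, dd_apply]

theorem xi_insert {a : γ} {A : Finset γ} (h : a ∉ A) (f : γ → R) (x : Finset γ → R) :
    xi (insert a A) f x = f a • up a x + xi A f x := by
  rw [xi_apply, sum_insert h, xi_apply]

theorem dd_dd (A : Finset γ) (f : γ → R) (x : Finset γ → R) : dd A f (dd A f x) = 0 := by
  induction A using Finset.induction_on generalizing x with
  | empty => simp [dd_apply]
  | insert a A h ih =>
    simp only [dd_insert h, map_add, map_smul, lo_lo, lo_dd, ih, smul_zero, zero_add, smul_neg]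
    abel

theorem xi_xi (A : Finset γ) (f : γ → R) (x : Finset γ → R) : xi A f (xi A f x) = 0 := by
  induction A using Finset.induction_on generalizing x with
  | empty => simp [xi_apply]
  | insert a A h ih =>
    simp only [xi_insert h, map_add, map_smul, up_up, up_xi, ih, smul_zero, zero_add, smul_neg]
    abel

theorem dd_up (A : Finset γ) (f : γ → R) (b : γ) (x : Finset γ → R) :
    dd A f (up b x) + up b (dd A f x) = (if b ∈ A then f b else 0) • x := by
  by_cases h : b ∈ A
  · rw [← insert_erase h]
    simp only [dd_insert (notMem_erase b A), up_dd (notMem_erase b A), map_add, map_smul,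
      mem_insert, true_or, if_true]
    conv_rhs => rw [← lo_up_self b x, smul_add]
    abel
  · rw [up_dd h]; simp [h]

theorem dd_xi (A B : Finset γ) (f g : γ → R) (x : Finset γ → R) :
    dd A f (xi B g x) + xi B g (dd A f x) = (∑ b ∈ B, if b ∈ A then f b * g b else 0) • x := by
  simp only [xi_apply, map_sum, map_smul, ← sum_add_distrib, ← smul_add, dd_up, sum_smul,
    smul_smul]
  exact sum_congr rfl fun b _ => by split_ifs <;> simp [mul_comm]

theorem Mem.zero (U : Finset γ → AddSubgroup R) (i : ℤ) : Mem U i 0 :=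
  fun I => ⟨(U I).zero_mem, fun _ => rfl⟩

theorem Mem.add {U : Finset γ → AddSubgroup R} {i : ℤ} {x y : Finset γ → R} (hx : Mem U i x)
    (hy : Mem U i y) : Mem U i (x + y) :=
  fun I => ⟨(U I).add_mem (hx I).1 (hy I).1, fun h => by simp [(hx I).2 h, (hy I).2 h]⟩

theorem Mem.neg {U : Finset γ → AddSubgroup R} {i : ℤ} {x : Finset γ → R} (hx : Mem U i x) :
    Mem U i (-x) :=
  fun I => ⟨(U I).neg_mem (hx I).1, fun h => by simp [(hx I).2 h]⟩

theorem Mem.sub {U : Finset γ → AddSubgroup R} {i : ℤ} {x y : Finset γ → R} (hx : Mem U i x)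
    (hy : Mem U i y) : Mem U i (x - y) := by
  rw [sub_eq_add_neg]; exact hx.add hy.neg

theorem Mem.mono {U V : Finset γ → AddSubgroup R} {i : ℤ} {x : Finset γ → R} (hx : Mem U i x)
    (h : ∀ I, U I ≤ V I) : Mem V i x := fun I => ⟨h I (hx I).1, (hx I).2⟩

theorem Mem.sum {U : Finset γ → AddSubgroup R} {i : ℤ} {α : Type} (s : Finset α)
    (x : α → Finset γ → R) (h : ∀ a ∈ s, Mem U i (x a)) : Mem U i (∑ a ∈ s, x a) :=
  Finset.sum_induction x (Mem U i) (fun _ _ => Mem.add) (Mem.zero U i) h

theorem sg_mul_mem (U : AddSubgroup R) (a : γ) (I : Finset γ) {g : R} (h : g ∈ U) :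
    sg R a I * g ∈ U := by
  rcases sg_eq (R := R) a I with e | e <;> rw [e]
  · simpa using h
  · simpa using h

end Ext

/-- Weights: first copy, second copy, dual side. -/
abbrev Wt := Fin 3 → ℤ

/-- The unit weight of block `j`. -/
def ew (j : Fin 3) : Wt := Pi.single j 1

/-- The block of the copy `c`. -/
def bl (c : Bool) : Fin 3 := if c then 1 else 0

/-- A grading of `R` by weights with nonnegative entries, with its component maps. -/
structure Grd (R : Type) [CommRing R] where
  H : Wt → AddSubgroup R
  cp : Wt → R →+ R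
  cp_mem : ∀ w g, cp w g ∈ H w
  cp_self : ∀ w g, g ∈ H w → cp w g = g
  cp_ne : ∀ v w g, g ∈ H v → v ≠ w → cp w g = 0
  cp_mul : ∀ v w f g, f ∈ H v → cp (v + w) (f * g) = f * cp w g
  mul_mem : ∀ v w f g, f ∈ H v → g ∈ H w → f * g ∈ H (v + w)
  one_mem : (1 : R) ∈ H 0
  neg : ∀ w j g, w j < 0 → g ∈ H w → g = 0

section Std

variable {R : Type} [CommRing R] {γ : Type} [Fintype γ] [DecidableEq γ]

/-- Weight `w` part of the Koszul complex on `A`, the other generators being in the state `J`. -/
def Std (G : Grd R) (wt : γ → Wt) (A J : Finset γ) (w : Wt) : Finset γ → AddSubgroup R :=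
  fun I => if I \ A = J then G.H (w - ∑ a ∈ I ∩ A, wt a) else ⊥

/-- Exactness of the Koszul complex on `A` in weight `w` and total exterior degree `i`. -/
def KE (G : Grd R) (f : γ → R) (wt : γ → Wt) (A J : Finset γ) (w : Wt) (i : ℤ) : Prop :=
  Exa A f (Std G wt A J w) i

/-- The elements `f a`, `a ∈ A`, form a regular sequence in every order. -/
def Reg (A : Finset γ) (f : γ → R) : Prop :=
  ∀ s ∈ A, ∀ B ⊆ A.erase s, ∀ g, f s * g ∈ Ideal.span (f '' B) → g ∈ Ideal.span (f '' B)

end Std

/-- The data of the argument: coordinates `y c s` of two copies of the code (dimension `k`) and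
coordinates `z s` of the twisted dual code (dimension `ρ`). -/
structure Ctx (R : Type) [CommRing R] (ι : Type) [Fintype ι] [DecidableEq ι] (p Q k ρ : ℕ)
    extends Grd R where
  y : Bool → ι → R
  z : ι → R
  ψ : Bool → R →+* R
  card : Fintype.card ι = k + ρ
  y_mem : ∀ c s, y c s ∈ H (ew (bl c))
  z_mem : ∀ s, z s ∈ H (ew 2)
  y_ne : ∀ c s, y c s ≠ 0
  z_ne : ∀ s, z s ≠ 0
  reg : ∀ (c : Bool) (Y Z : Finset ι), Disjoint Y Z → Y.card ≤ k → Z.card ≤ ρ →
    Reg (Y ∪ Z) fun s => if s ∈ Y then y c s else z s
  span_y : ∀ (c : Bool) (Y : Finset ι), Y.card = k → ∀ w g, 0 < w (bl c) → g ∈ H w →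
    g ∈ Ideal.span (y c '' Y)
  span_z : ∀ Z : Finset ι, Z.card = ρ → ∀ w g, 0 < w 2 → g ∈ H w → g ∈ Ideal.span (z '' Z)
  theta : ∀ c, ∑ s, y c s ^ Q * z s = 0
  kappa : ∀ c, ∑ s, y c s * z s ^ p = 0
  ψ_self : ∀ c s, ψ c (y c s) = y c s + y (!c) s
  ψ_other : ∀ c s, ψ c (y (!c) s) = y (!c) s
  ψ_z : ∀ c s, ψ c (z s) = z s

namespace Ctx

variable {R : Type} [CommRing R] {ι : Type} [Fintype ι] [DecidableEq ι] {p Q k ρ : ℕ}
  (X : Ctx R ι p Q k ρ)

/-- The differential of a generator. -/
def fE (a : ι × Bool) : R := X.y a.2 a.1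

/-- Differential of the one-copy complexes: `y` on `Y`, `y z` elsewhere. -/
def fY (Y : Finset ι) (a : ι × Bool) : R :=
  if a.1 ∈ Y then X.y a.2 a.1 else X.y a.2 a.1 * X.z a.1

/-- The product of the `z s` over the sites other than `t` touched by `I`. -/
def uz (t : ι) (I : Finset (ι × Bool)) : R := ∏ s ∈ (I.image Prod.fst).erase t, X.z s

/-- Coefficients divisible by `uz`, generators in `A`. -/
def PU (t : ι) (A : Finset (ι × Bool)) : Finset (ι × Bool) → AddSubgroup R :=
  fun I => if I ⊆ A then (Ideal.span {X.uz t I}).toAddSubgroup else ⊥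

end Ctx

/-- Weight of a generator. -/
def wE {ι : Type} (a : ι × Bool) : Wt := ew (bl a.2)

/-- Weight of a generator in the one-copy complexes. -/
def wY {ι : Type} [DecidableEq ι] (Y : Finset ι) (a : ι × Bool) : Wt :=
  if a.1 ∈ Y then ew (bl a.2) else ew (bl a.2) + ew 2

/-- Generators at the sites other than `t`. -/
def G0 {ι : Type} [Fintype ι] [DecidableEq ι] (t : ι) : Finset (ι × Bool) :=
  univ.filter fun a => a.1 ≠ t

/-- Generators at the sites other than `t`, and the first-copy generator at `t`. -/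
def Gt {ι : Type} [Fintype ι] [DecidableEq ι] (t : ι) : Finset (ι × Bool) :=
  insert (t, false) (G0 t)

namespace Ctx

variable {R : Type} [CommRing R] {ι : Type} [Fintype ι] [DecidableEq ι] {p Q k ρ : ℕ}
  (X : Ctx R ι p Q k ρ)

/-- The weight `w` part of `PU`. -/
def PW (t : ι) (A : Finset (ι × Bool)) (w : Wt) : Finset (ι × Bool) → AddSubgroup R :=
  fun I => X.PU t A I ⊓ X.H (w - ∑ a ∈ I, wE a)

/-- Projection to the weight `w`. -/
def pr (w : Wt) (x : Finset (ι × Bool) → R) : Finset (ι × Bool) → R :=
  fun I => X.cp (w - ∑ a ∈ I, wE a) (x I)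

/-- The differential without the site `t`. -/
noncomputable def d0 (t : ι) := dd (G0 t) X.fE

/-- The differential with the first-copy generator at `t`. -/
noncomputable def dt (t : ι) := dd (Gt t) X.fE

/-- Multiplication by `∑ z s ^ p E_(s, c)` over the sites in `S`. -/
noncomputable def xc (c : Bool) (S : Finset ι) := xi (S ×ˢ {c}) fun a => X.z a.1 ^ p

/-- The invariant cycle. -/
noncomputable def vt (t : ι) : Finset (ι × Bool) → R :=
  X.y false t • X.xc true (univ.erase t) one - X.y true t • X.xc false (univ.erase t) one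

/-- The statement `B (m + 1)` of the induction. -/
def BB (t : ι) (m : ℕ) : Prop :=
  ∃ x, Mem (X.PU t (G0 t)) 2 x ∧ X.d0 t x = X.y true t ^ m • X.vt t

end Ctx

end Pool.Agent.Lib.MP_deca50_lc.Three
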