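import Pool.Agent.Lib.MP_deca50_lc.Three.Reg

/-! One-copy complexes. -/

set_option linter.unusedSectionVars false

namespace Pool.Agent.Lib.MP_deca50_lc.Three

open Finset

section Pts

variable {R : Type} [CommRing R] {γ : Type} [Fintype γ] [DecidableEq γ]

theorem kv_reg_congr {B : Finset γ} {f f' : γ → R} (h : Reg B f) (e : ∀ a ∈ B, f' a = f a) :
    Reg B f' := fun s hs C hC g hg => by
  have e' : f' '' C = f '' C :=
    Set.image_congr fun a ha => e a (mem_of_mem_erase (hC (mem_coe.1 ha)))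
  rw [e', e s hs] at hg
  rw [e']
  exact h s hs C hC g hg

/-- Exactness from a regular subfamily, the other generators being filtered into points. -/
theorem kv_pts (G : Grd R) (f : γ → R) (wt : γ → Wt) (A B J : Finset γ) (w : Wt) (i : ℤ)
    (hBA : B ⊆ A) (hJ : Disjoint J A) (hf : ∀ a ∈ A, f a ∈ G.H (wt a)) (hreg : Reg B f)
    (h : ∀ J' ⊆ A \ B, ((J ∪ J').card : ℤ) = i →
      ∀ g ∈ G.H (w - ∑ a ∈ J', wt a), g ∈ Ideal.span (f '' B)) :
    KE G f wt A J w i := by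
  have e : B ∪ A \ B = A := union_sdiff_of_subset hBA
  have := ke_filter G f wt B (A \ B) J w i disjoint_sdiff (by rwa [e])
    (fun b hb => hf b (mem_sdiff.1 hb).1) fun J' hJ' => by
      rcases lt_trichotomy i ((J ∪ J').card : ℤ) with hi | hi | hi
      · exact ke_low G f wt _ _ _ i hi
      · rw [hi]
        exact ke_zero G f wt _ _ _ (fun a ha => hf a (hBA ha)) (h J' hJ' hi.symm)
      · exact ke_reg G f wt _ _ _ i (fun a ha => hf a (hBA ha)) hreg hi
  rwa [e] at this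

end Pts

variable {R : Type} [CommRing R] [IsDomain R] {ι : Type} [Fintype ι] [DecidableEq ι]
  {p Q k ρ : ℕ} (X : Ctx R ι p Q k ρ)

/-- `y` on `Y`, `z` on `Z`, the product elsewhere. -/
def Ctx.kvF (Y Z : Finset ι) (a : ι × Bool) : R :=
  if a.1 ∈ Y then X.y a.2 a.1 else if a.1 ∈ Z then X.z a.1 else X.y a.2 a.1 * X.z a.1

/-- The weights of `kvF`. -/
def kvW (Y Z : Finset ι) (a : ι × Bool) : Wt :=
  if a.1 ∈ Y then ew (bl a.2) else if a.1 ∈ Z then ew 2 else ew (bl a.2) + ew 2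

theorem Ctx.kvF_mem (Y Z : Finset ι) (a : ι × Bool) : X.kvF Y Z a ∈ X.H (kvW Y Z a) := by
  unfold Ctx.kvF kvW
  split_ifs
  · exact X.y_mem _ _
  · exact X.z_mem _
  · exact X.mul_mem _ _ _ _ (X.y_mem _ _) (X.z_mem _)

theorem kv_ew_self (j : Fin 3) : ew j j = 1 := Pi.single_eq_same _ _

theorem kv_ew_bl (c : Bool) : ew (bl c) 2 = 0 := by cases c <;> rfl

theorem kv_ew_two (c : Bool) : ew 2 (bl c) = 0 := by cases c <;> rfl

theorem kv_sum {Y Z : Finset ι} (h : Disjoint Y Z) (c : Bool) (I : Finset ι) :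
    (∑ a ∈ I ×ˢ {c}, kvW Y Z a) (bl c) = (I \ Z).card ∧
    (∑ a ∈ I ×ˢ {c}, kvW Y Z a) 2 = (I \ Y).card := by
  rw [sum_product]
  simp only [sum_singleton, Finset.sum_apply]
  constructor
  · rw [sdiff_eq_filter, card_filter]
    push_cast
    refine sum_congr rfl fun s _ => ?_
    by_cases h1 : s ∈ Y
    · simp [kvW, h1, disjoint_left.1 h h1, kv_ew_self]
    · by_cases h2 : s ∈ Z <;> simp [kvW, h1, h2, kv_ew_self, kv_ew_two]
  · rw [sdiff_eq_filter, card_filter]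
    push_cast
    refine sum_congr rfl fun s _ => ?_
    by_cases h1 : s ∈ Y
    · simp [kvW, h1, kv_ew_bl]
    · by_cases h2 : s ∈ Z <;> simp [kvW, h1, h2, kv_ew_self, kv_ew_bl]

theorem kv_sub {S B : Finset ι} {c : Bool} {J' : Finset (ι × Bool)}
    (h : J' ⊆ S ×ˢ {c} \ B ×ˢ {c}) : ∃ I ⊆ S \ B, J' = I ×ˢ {c} := by
  refine ⟨J'.image Prod.fst, fun s hs => ?_, ?_⟩
  · obtain ⟨a, ha, rfl⟩ := mem_image.1 hs
    have h1 := mem_sdiff.1 (h ha)
    have h2 := mem_product.1 h1.1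
    exact mem_sdiff.2 ⟨h2.1, fun hb => h1.2 (mem_product.2 ⟨hb, h2.2⟩)⟩
  · ext ⟨s, b⟩
    constructor
    · intro ha
      exact mem_product.2 ⟨mem_image_of_mem _ ha, (mem_product.1 (mem_sdiff.1 (h ha)).1).2⟩
    · intro ha
      obtain ⟨h1, h2⟩ := mem_product.1 ha
      obtain ⟨a, ha', e⟩ := mem_image.1 h1
      have h3 := mem_singleton.1 (mem_product.1 (mem_sdiff.1 (h ha')).1).2
      have : a = (s, b) := Prod.ext e (h3.trans (mem_singleton.1 h2).symm)
      exact this ▸ ha'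

theorem kv_image {B : Finset ι} {c : Bool} {f : ι × Bool → R} {g : ι → R}
    (e : ∀ s ∈ B, f (s, c) = g s) : f '' (B ×ˢ {c} : Finset (ι × Bool)) = g '' B := by
  ext r
  constructor
  · rintro ⟨⟨s, b⟩, ha, rfl⟩
    obtain ⟨h1, h2⟩ := mem_product.1 (mem_coe.1 ha)
    obtain rfl : b = c := mem_singleton.1 h2
    exact ⟨s, mem_coe.2 h1, (e s h1).symm⟩
  · rintro ⟨s, hs, rfl⟩
    exact ⟨(s, c), mem_coe.2 (mem_product.2 ⟨mem_coe.1 hs, mem_singleton_self c⟩), e s hs⟩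

theorem kv_reg_copy {B : Finset ι} {c : Bool} {f : ι × Bool → R} {g : ι → R} (h : Reg B g)
    (e : ∀ s ∈ B, f (s, c) = g s) : Reg (B ×ˢ {c}) f :=
  kv_reg_congr (h.copy c) fun ⟨s, b⟩ ha => by
    obtain ⟨h1, h2⟩ := mem_product.1 ha
    obtain rfl : b = c := mem_singleton.1 h2
    exact e s h1

/-- A basis among the sites of `Y`. -/
theorem Ctx.kv_exY (c : Bool) {S Y Z B : Finset ι} (h : Disjoint Y Z) (hB : B ⊆ Y) (hS : B ⊆ S)
    (hc : B.card = k) {J : Finset (ι × Bool)} (hJ : Disjoint J (S ×ˢ {c})) (w : Wt) (i : ℤ)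
    (hw : ∀ I ⊆ S \ B, w (bl c) ≤ (I \ Z).card → w 2 < (I \ Y).card) :
    KE X.toGrd (X.kvF Y Z) (kvW Y Z) (S ×ˢ {c}) J w i := by
  have e : ∀ s ∈ B, X.kvF Y Z (s, c) = X.y c s := fun s hs => if_pos (hB hs)
  have hr := X.reg c B ∅ (disjoint_empty_right _) hc.le (Nat.zero_le _)
  rw [union_empty] at hr
  refine kv_pts _ _ _ _ (B ×ˢ {c}) J w i (product_subset_product_left hS) hJ
    (fun a _ => X.kvF_mem Y Z a) (kv_reg_copy hr fun s hs => by rw [e s hs, if_pos hs])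
    fun J' hJ' _ g hg => ?_
  obtain ⟨I, hI, rfl⟩ := kv_sub hJ'
  obtain ⟨s1, s2⟩ := kv_sum h c I
  by_cases hl : w (bl c) ≤ (I \ Z).card
  · rw [X.neg _ 2 g (by rw [Pi.sub_apply, s2]; exact sub_neg.2 (hw I hI hl)) hg]
    exact zero_mem _
  · rw [kv_image e]
    exact X.span_y c B hc _ g (by rw [Pi.sub_apply, s1]; exact sub_pos.2 (not_le.1 hl)) hg

/-- A basis among the sites of `Z`. -/
theorem Ctx.kv_exZ (c : Bool) {S Y Z B : Finset ι} (h : Disjoint Y Z) (hB : B ⊆ Z) (hS : B ⊆ S)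
    (hc : B.card = ρ) {J : Finset (ι × Bool)} (hJ : Disjoint J (S ×ˢ {c})) (w : Wt) (i : ℤ)
    (hw : ∀ I ⊆ S \ B, w 2 ≤ (I \ Y).card → w (bl c) < (I \ Z).card) :
    KE X.toGrd (X.kvF Y Z) (kvW Y Z) (S ×ˢ {c}) J w i := by
  have e : ∀ s ∈ B, X.kvF Y Z (s, c) = X.z s := fun s hs => by
    unfold Ctx.kvF
    rw [if_neg (disjoint_right.1 h (hB hs)), if_pos (hB hs)]
  have hr := X.reg c ∅ B (disjoint_empty_left _) (Nat.zero_le _) hc.le
  rw [empty_union] at hr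
  refine kv_pts _ _ _ _ (B ×ˢ {c}) J w i (product_subset_product_left hS) hJ
    (fun a _ => X.kvF_mem Y Z a) (kv_reg_copy hr fun s hs => by
      rw [e s hs, if_neg (notMem_empty s)]) fun J' hJ' _ g hg => ?_
  obtain ⟨I, hI, rfl⟩ := kv_sub hJ'
  obtain ⟨s1, s2⟩ := kv_sum h c I
  by_cases hl : w 2 ≤ (I \ Y).card
  · rw [X.neg _ (bl c) g (by rw [Pi.sub_apply, s1]; exact sub_neg.2 (hw I hI hl)) hg]
    exact zero_mem _
  · rw [kv_image e]
    exact X.span_z B hc _ g (by rw [Pi.sub_apply, s2]; exact sub_pos.2 (not_le.1 hl)) hg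

theorem kv_upd {M : Type} (a b d : ι × Bool → M) {S Y Z : Finset ι} {u : ι} (c : Bool)
    (hY : u ∉ Y) :
    (∀ x ∈ S ×ˢ {c}, (if x.1 ∈ insert u Y then a x else if x.1 ∈ Z then b x else d x) =
      Function.update (fun x => if x.1 ∈ Y then a x else if x.1 ∈ Z then b x else d x)
        (u, c) (a (u, c)) x) ∧
    (∀ x ∈ S ×ˢ {c}, (if x.1 ∈ Y then a x else if x.1 ∈ insert u Z then b x else d x) =
      Function.update (fun x => if x.1 ∈ Y then a x else if x.1 ∈ Z then b x else d x)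
        (u, c) (b (u, c)) x) := by
  constructor <;> rintro ⟨s, e⟩ hx <;>
    obtain rfl : e = c := mem_singleton.1 (mem_product.1 hx).2 <;>
    rcases eq_or_ne s u with rfl | h <;> simp [*]

/-- Splitting a product site, first `z` then `y`. -/
theorem Ctx.kv_splitZ (c : Bool) {S Y Z : Finset ι} {u : ι} (hS : u ∈ S) (hY : u ∉ Y) (hZ : u ∉ Z)
    {J : Finset (ι × Bool)} {w : Wt} {i : ℤ}
    (h1 : KE X.toGrd (X.kvF Y (insert u Z)) (kvW Y (insert u Z)) (S ×ˢ {c}) J w i)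
    (h2 : KE X.toGrd (X.kvF (insert u Y) Z) (kvW (insert u Y) Z) (S ×ˢ {c}) J (w - ew 2) i) :
    KE X.toGrd (X.kvF Y Z) (kvW Y Z) (S ×ˢ {c}) J w i := by
  obtain ⟨a1, a2⟩ := kv_upd (fun a => X.y a.2 a.1) (fun a => X.z a.1)
    (fun a => X.y a.2 a.1 * X.z a.1) (S := S) (Z := Z) c hY
  obtain ⟨b1, b2⟩ := kv_upd (fun a : ι × Bool => ew (bl a.2)) (fun _ => ew 2)
    (fun a => ew (bl a.2) + ew 2) (S := S) (Z := Z) c hY
  exact ke_mul _ _ _ _ J w i (u, c) (mem_product.2 ⟨hS, mem_singleton_self c⟩) (X.z u) (X.y c u)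
    (ew 2) (ew (bl c)) (X.z_mem u) (X.y_mem c u) (by simp [Ctx.kvF, hY, hZ, mul_comm])
    (by simp [kvW, hY, hZ, add_comm]) (ke_congr _ a2 b2 h1) (ke_congr _ a1 b1 h2)

/-- Splitting a product site, first `y` then `z`. -/
theorem Ctx.kv_splitY (c : Bool) {S Y Z : Finset ι} {u : ι} (hS : u ∈ S) (hY : u ∉ Y) (hZ : u ∉ Z)
    {J : Finset (ι × Bool)} {w : Wt} {i : ℤ}
    (h1 : KE X.toGrd (X.kvF (insert u Y) Z) (kvW (insert u Y) Z) (S ×ˢ {c}) J w i)
    (h2 : KE X.toGrd (X.kvF Y (insert u Z)) (kvW Y (insert u Z)) (S ×ˢ {c}) J (w - ew (bl c)) i) :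
    KE X.toGrd (X.kvF Y Z) (kvW Y Z) (S ×ˢ {c}) J w i := by
  obtain ⟨a1, a2⟩ := kv_upd (fun a => X.y a.2 a.1) (fun a => X.z a.1)
    (fun a => X.y a.2 a.1 * X.z a.1) (S := S) (Z := Z) c hY
  obtain ⟨b1, b2⟩ := kv_upd (fun a : ι × Bool => ew (bl a.2)) (fun _ => ew 2)
    (fun a => ew (bl a.2) + ew 2) (S := S) (Z := Z) c hY
  exact ke_mul _ _ _ _ J w i (u, c) (mem_product.2 ⟨hS, mem_singleton_self c⟩) (X.y c u) (X.z u)
    (ew (bl c)) (ew 2) (X.y_mem c u) (X.z_mem u) (by simp [Ctx.kvF, hY, hZ])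
    (by simp [kvW, hY, hZ]) (ke_congr _ a1 b1 h1) (ke_congr _ a2 b2 h2)

theorem kv_free {S Y Z : Finset ι} (h : Y.card + Z.card < S.card) :
    ∃ u ∈ S, u ∉ Y ∧ u ∉ Z := by
  by_contra hh
  have : S ⊆ Y ∪ Z := fun u hu => by
    by_contra h'
    exact hh ⟨u, hu, fun a => h' (mem_union_left _ a), fun a => h' (mem_union_right _ a)⟩
  have h1 := card_le_card this
  have h2 := card_union_le Y Z
  omega

theorem kv_full {S Y Z : Finset ι} (h : Disjoint Y Z) (hY : Y ⊆ S) (hZ : Z ⊆ S)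
    (hc : Y.card + Z.card = S.card) : Y ∪ Z = S :=
  eq_of_subset_of_card_le (union_subset hY hZ) (by rw [card_union_of_disjoint h, hc])

theorem Ctx.kv_aux (c : Bool) {S : Finset ι} (hι : S.card + 1 ≤ k + ρ) {J : Finset (ι × Bool)}
    (hJ : Disjoint J (S ×ˢ {c})) {i : ℤ} (hi : (J.card : ℤ) < i) (n : ℕ) :
    ∀ (Y Z : Finset ι) (w : Wt), Disjoint Y Z → Y ⊆ S → Z ⊆ S → Y.card ≤ k → Z.card ≤ ρ →
      Y.card + Z.card + n = S.card →
      (n = 0 ∨ (w 2 - w (bl c) < k - Y.card ∧ w (bl c) - w 2 < ρ - Z.card)) →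
      KE X.toGrd (X.kvF Y Z) (kvW Y Z) (S ×ˢ {c}) J w i := by
  induction n with
  | zero =>
    intro Y Z w h sY sZ hY hZ hc _
    have hu := kv_full h sY sZ hc
    have hr := X.reg c Y Z h hY hZ
    rw [hu] at hr
    refine ke_reg _ _ _ _ J w i (fun a _ => X.kvF_mem Y Z a) (kv_reg_copy hr fun s hs => ?_) hi
    unfold Ctx.kvF
    by_cases h1 : s ∈ Y
    · rw [if_pos h1, if_pos h1]
    · rw [if_neg h1, if_neg h1, if_pos ((mem_union.1 (hu ▸ hs)).resolve_left h1)]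
  | succ n ih =>
    intro Y Z w h sY sZ hY hZ hc hb
    obtain ⟨b1, b2⟩ := hb.resolve_left (by omega)
    by_cases hk : Y.card = k
    · refine X.kv_exY c h subset_rfl sY hk hJ w i fun I hI hl => ?_
      have := card_le_card (sdiff_subset : I \ Z ⊆ I)
      rw [sdiff_eq_self_of_disjoint (disjoint_of_subset_left hI sdiff_disjoint)]
      omega
    by_cases hr : Z.card = ρ
    · refine X.kv_exZ c h subset_rfl sZ hr hJ w i fun I hI hl => ?_
      have := card_le_card (sdiff_subset : I \ Y ⊆ I)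
      rw [sdiff_eq_self_of_disjoint (disjoint_of_subset_left hI sdiff_disjoint)]
      omega
    obtain ⟨u, huS, huY, huZ⟩ := kv_free (S := S) (Y := Y) (Z := Z) (by omega)
    have cY := card_insert_of_notMem huY
    have cZ := card_insert_of_notMem huZ
    have dY : Disjoint (insert u Y) Z := disjoint_insert_left.2 ⟨huZ, h⟩
    have dZ : Disjoint Y (insert u Z) := disjoint_insert_right.2 ⟨huY, h⟩
    have iY := insert_subset huS sY
    have iZ := insert_subset huS sZ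
    by_cases h1 : w (bl c) - w 2 < ρ - Z.card - 1
    · refine X.kv_splitZ c huS huY huZ (ih _ _ _ dZ sY iZ hY (by omega) (by omega) (by omega))
        (ih _ _ _ dY iY sZ (by omega) hZ (by omega) ?_)
      rw [Pi.sub_apply, Pi.sub_apply, kv_ew_self, kv_ew_two]
      omega
    · refine X.kv_splitY c huS huY huZ (ih _ _ _ dY iY sZ (by omega) hZ (by omega) (by omega))
        (ih _ _ _ dZ sY iZ hY (by omega) (by omega) ?_)
      rw [Pi.sub_apply, Pi.sub_apply, kv_ew_self, kv_ew_bl]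
      omega

theorem Ctx.kv_back {Y : Finset ι} {A J : Finset (ι × Bool)} {w : Wt} {i : ℤ}
    (h : KE X.toGrd (X.kvF Y ∅) (kvW Y ∅) A J w i) : KE X.toGrd (X.fY Y) (wY Y) A J w i :=
  ke_congr _ (fun a _ => by simp [Ctx.kvF, Ctx.fY]) (fun a _ => by simp [kvW, wY]) h

/-- Lemma KV. -/
theorem Ctx.kv (c : Bool) (Y W : Finset ι) (hYW : Disjoint Y W) (J : Finset (ι × Bool))
    (hJ : Disjoint J ((Y ∪ W) ×ˢ {c})) (w : Wt) (i : ℤ) (hi : (J.card : ℤ) < i)
    (hY : Y.card ≤ k) (hW : W.card + Y.card + 1 ≤ k + ρ)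
    (h1 : w 2 - w (bl c) + Y.card < k) (h2 : w (bl c) - w 2 < ρ) :
    KE X.toGrd (X.fY Y) (wY Y) ((Y ∪ W) ×ˢ {c}) J w i := by
  have hc := card_union_of_disjoint hYW
  exact X.kv_back (X.kv_aux c (by omega) hJ hi W.card Y ∅ w (disjoint_empty_right _)
    subset_union_left (empty_subset _) hY (Nat.zero_le _) (by rw [card_empty]; omega)
    (Or.inr ⟨by omega, by rw [card_empty]; omega⟩))

theorem Ctx.kf_aux (c : Bool) {J : Finset (ι × Bool)}
    (hJ : Disjoint J ((univ : Finset ι) ×ˢ {c})) (i : ℤ) (n : ℕ) :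
    ∀ (Y Z : Finset ι) (w : Wt), Disjoint Y Z → Y.card + Z.card + n = k + ρ →
      (k : ℤ) < w 2 + Y.card → w 2 + Y.card < k + w (bl c) →
      KE X.toGrd (X.kvF Y Z) (kvW Y Z) (univ ×ˢ {c}) J w i := by
  have hι : (univ : Finset ι).card = k + ρ := X.card
  induction n with
  | zero =>
    intro Y Z w h hc h1 h2
    have hu := kv_full h (subset_univ _) (subset_univ _) (by omega)
    have hm : ∀ s, s ∈ Y ∨ s ∈ Z := fun s => mem_union.1 (hu ▸ mem_univ s)
    by_cases hr : ρ ≤ Z.card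
    · obtain ⟨B, hB, hc'⟩ := exists_subset_card_eq hr
      refine X.kv_exZ c h hB (subset_univ _) hc' hJ w i fun I hI hl => ?_
      have e : I \ Y ⊆ Z \ B := fun s hs => mem_sdiff.2
        ⟨(hm s).resolve_left (mem_sdiff.1 hs).2, (mem_sdiff.1 (hI (mem_sdiff.1 hs).1)).2⟩
      have := card_le_card e
      rw [card_sdiff_of_subset hB] at this
      omega
    · obtain ⟨B, hB, hc'⟩ := exists_subset_card_eq (show k ≤ Y.card by omega)
      refine X.kv_exY c h hB (subset_univ _) hc' hJ w i fun I hI hl => ?_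
      have e : I \ Z ⊆ Y \ B := fun s hs => mem_sdiff.2
        ⟨(hm s).resolve_right (mem_sdiff.1 hs).2, (mem_sdiff.1 (hI (mem_sdiff.1 hs).1)).2⟩
      have := card_le_card e
      rw [card_sdiff_of_subset hB] at this
      omega
  | succ n ih =>
    intro Y Z w h hc h1 h2
    obtain ⟨u, huS, huY, huZ⟩ := kv_free (S := univ) (Y := Y) (Z := Z) (by omega)
    have cY := card_insert_of_notMem huY
    have cZ := card_insert_of_notMem huZ
    refine X.kv_splitZ c huS huY huZ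
      (ih _ _ _ (disjoint_insert_right.2 ⟨huY, h⟩) (by omega) h1 h2)
      (ih _ _ _ (disjoint_insert_left.2 ⟨huZ, h⟩) (by omega) ?_ ?_)
    · rw [Pi.sub_apply, kv_ew_self]
      omega
    · rw [Pi.sub_apply, Pi.sub_apply, kv_ew_self, kv_ew_two]
      omega

/-- Lemma KF: all sites, every degree. -/
theorem Ctx.kf (c : Bool) (Y : Finset ι) (J : Finset (ι × Bool))
    (hJ : Disjoint J ((univ : Finset ι) ×ˢ {c})) (w : Wt) (i : ℤ)
    (h1 : (k : ℤ) < w 2 + Y.card) (h2 : w 2 + Y.card < k + w (bl c)) :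
    KE X.toGrd (X.fY Y) (wY Y) (univ ×ˢ {c}) J w i := by
  have hc := card_le_univ Y
  rw [X.card] at hc
  exact X.kv_back (X.kf_aux c hJ i (k + ρ - Y.card) Y ∅ w (disjoint_empty_right _)
    (by rw [card_empty]; omega) h1 h2)

end Pool.Agent.Lib.MP_deca50_lc.Three
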