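import Pool.Agent.Lib.MP_deca50_lc.Three.Defs

/-! Filtering and rescaling of Koszul complexes with coefficients in a family. -/

set_option linter.unusedSectionVars false
set_option linter.unusedSimpArgs false

namespace Pool.Agent.Lib.MP_deca50_lc.Three

open Finset

variable {R : Type} [CommRing R] {γ : Type} [Fintype γ] [DecidableEq γ]

theorem lo_up_apply (s : γ) (x : Finset γ → R) (I : Finset γ) :
    lo s (up s x) I = if s ∈ I then 0 else x I := by
  by_cases h : s ∈ I
  · simp [lo_apply, h]
  · simp [lo_apply, up_apply, h, sg_insert_self h, ← mul_assoc, sg_mul_self, erase_insert h]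

theorem up_lo_apply (s : γ) (x : Finset γ → R) (I : Finset γ) :
    up s (lo s x) I = if s ∈ I then x I else 0 := by
  by_cases h : s ∈ I
  · simp [lo_apply, up_apply, h, sg_erase s h, ← mul_assoc, sg_mul_self, insert_erase h]
  · simp [up_apply, h]

theorem dd_at (A : Finset γ) (f : γ → R) (x : Finset γ → R) (I : Finset γ) :
    dd A f x I = ∑ a ∈ A, f a * (if a ∈ I then 0 else sg R a I * x (insert a I)) := by
  rw [dd_apply, Finset.sum_apply]; rfl

theorem dd_congr {A : Finset γ} {f g : γ → R} (h : ∀ a ∈ A, f a = g a) : dd A f = dd A g :=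
  sum_congr rfl fun a ha => by rw [h a ha]

theorem dd_lo (a : γ) (A : Finset γ) (f : γ → R) (x : Finset γ → R) :
    dd A f (lo a x) = -lo a (dd A f x) := by
  rw [lo_dd, neg_neg]

theorem dd_upd {s : γ} {A : Finset γ} (hs : s ∈ A) (f : γ → R) (c : R) (x : Finset γ → R) :
    dd A (Function.update f s c) x = dd (A.erase s) f x + c • lo s x := by
  conv_lhs => rw [← insert_erase hs]
  rw [dd_insert (notMem_erase _ _), Function.update_self,
    dd_congr (fun a ha => Function.update_of_ne (ne_of_mem_erase ha) c f), add_comm]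

/-- Filtering by a single generator. -/
theorem exa_one (A : Finset γ) (b : γ) (hb : b ∉ A) (f : γ → R) (U : Finset γ → AddSubgroup R)
    (i : ℤ) (hcl : ∀ I, b ∉ I → ∀ g ∈ U (insert b I), f b * g ∈ U I)
    (h0 : Exa A f (fun I => if b ∈ I then ⊥ else U I) i)
    (h1 : Exa A f (fun I => if b ∈ I then U I else ⊥) i) : Exa (insert b A) f U i := by
  intro x hx hc
  have hD : dd A f x = -(f b • lo b x) := by
    rw [dd_insert hb] at hc
    exact eq_neg_of_add_eq_zero_right hc
  obtain ⟨y1, hy1, e1⟩ := h1 (up b (lo b x)) (fun I => by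
      rw [up_lo_apply]
      by_cases h : b ∈ I
      · simp only [h, if_true]; exact hx I
      · simp [h]) (by
      rw [up_dd hb, dd_lo, hD]; simp [lo_lo])
  have e0 : x - dd (insert b A) f y1 = lo b (up b x) - f b • lo b y1 := by
    rw [dd_insert hb, e1]
    conv_lhs => rw [← lo_up_self b x]
    simp only [map_add, lo_lo, add_zero, map_zero]
    have : up b (lo b (up b (lo b x))) = up b (lo b x) := by
      funext I; rw [up_lo_apply, up_lo_apply]; split_ifs <;> rfl
    rw [this]; abel
  obtain ⟨y0, hy0, e2⟩ := h0 (x - dd (insert b A) f y1) (fun I => by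
      rw [e0, Pi.sub_apply, Pi.smul_apply, lo_up_apply, lo_apply, smul_eq_mul]
      by_cases h : b ∈ I
      · simp [h]
      · have hI := hy1 (insert b I)
        simp only [mem_insert_self, if_true, card_insert_of_notMem h] at hI
        simp only [h, if_false]
        refine ⟨sub_mem (hx I).1 (hcl I h _ (sg_mul_mem _ _ _ hI.1)), fun hh => ?_⟩
        rw [(hx I).2 hh, hI.2 (by push_cast; omega)]; simp) (by
      have e3 : dd (insert b A) f (x - dd (insert b A) f y1) = 0 := by
        rw [map_sub, hc, dd_dd, sub_zero]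
      rw [dd_insert hb] at e3
      have e4 : lo b (x - dd (insert b A) f y1) = 0 := by
        rw [e0, map_sub, map_smul, lo_lo, lo_lo]; simp
      rwa [e4, smul_zero, zero_add] at e3)
  have e5 : lo b y0 = 0 := by
    funext I
    have hI := (hy0 (insert b I)).1
    simp only [mem_insert_self, if_true, AddSubgroup.mem_bot] at hI
    simp [lo_apply, hI]
  refine ⟨y1 + y0, (hy1.mono fun I => ?_).add (hy0.mono fun I => ?_), ?_⟩
  · split_ifs <;> simp
  · split_ifs <;> simp
  · rw [map_add, dd_insert hb f y0, e5, e2]; simp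

/-- Filtering: exactness of every slice for the differential on `A` gives exactness on `A ∪ B`. -/
theorem exa_filter (A B : Finset γ) (hAB : Disjoint A B) (f : γ → R)
    (U : Finset γ → AddSubgroup R) (i : ℤ)
    (hcl : ∀ b ∈ B, ∀ I, b ∉ I → ∀ g ∈ U (insert b I), f b * g ∈ U I)
    (h : ∀ J ⊆ B, Exa A f (slice B J U) i) : Exa (A ∪ B) f U i := by
  induction B using Finset.induction_on generalizing U with
  | empty =>
    have e : slice ∅ ∅ U = U := by funext I; simp [slice]
    have := h ∅ subset_rfl
    rwa [e, ← union_empty A] at this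
  | insert b B hb ih =>
    have hbA : b ∉ A := fun hh => disjoint_left.1 hAB hh (mem_insert_self _ _)
    have hd : Disjoint A B := hAB.mono_right (subset_insert _ _)
    rw [union_insert]
    refine exa_one (A ∪ B) b (by simp [hbA, hb]) f U i (hcl b (mem_insert_self _ _))
      (ih hd _ (fun c hc I hI g hg => ?_) fun J hJ => ?_)
      (ih hd _ (fun c hc I hI g hg => ?_) fun J hJ => ?_)
    · have hbc : b ≠ c := fun e => hb (e ▸ hc)
      by_cases h1 : b ∈ I
      · simp only [mem_insert, h1, or_true, if_true, AddSubgroup.mem_bot] at hg ⊢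
        rw [hg, mul_zero]
      · simp only [mem_insert, h1, hbc, or_false, if_false] at hg ⊢
        exact hcl c (mem_insert_of_mem hc) I hI g hg
    · have e : slice B J (fun I => if b ∈ I then ⊥ else U I) = slice (insert b B) J U := by
        funext I
        by_cases h1 : b ∈ I
        · have : I ∩ insert b B ≠ J := fun e => hb (hJ (e ▸ mem_inter.2 ⟨h1, mem_insert_self _ _⟩))
          simp only [slice, h1, if_true, this, if_false, ite_self]
        · simp [slice, h1, inter_insert_of_notMem h1]
      rw [e]; exact h J (hJ.trans (subset_insert _ _))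
    · have hbc : b ≠ c := fun e => hb (e ▸ hc)
      by_cases h1 : b ∈ I
      · simp only [mem_insert, h1, or_true, if_true] at hg ⊢
        exact hcl c (mem_insert_of_mem hc) I hI g hg
      · simp only [mem_insert, h1, hbc, or_false, if_false, AddSubgroup.mem_bot] at hg ⊢
        rw [hg, mul_zero]
    · have hbJ : b ∉ J := fun hh => hb (hJ hh)
      have e : slice B J (fun I => if b ∈ I then U I else ⊥) =
          slice (insert b B) (insert b J) U := by
        funext I
        by_cases h1 : b ∈ I
        · have e1 : I ∩ insert b B = insert b J ↔ I ∩ B = J := by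
            rw [inter_insert_of_mem h1]
            refine ⟨fun e => ?_, fun e => by rw [e]⟩
            have := congrArg (fun K => K.erase b) e
            simpa only [erase_insert hbJ, erase_insert (fun hh => hb (mem_inter.1 hh).2)] using this
          simp only [slice, h1, if_true, e1]
        · have : I ∩ insert b B ≠ insert b J := fun e =>
            h1 (mem_inter.1 (e ▸ mem_insert_self b J : b ∈ I ∩ insert b B)).1
          simp only [slice, h1, if_false, this, ite_self]
      rw [e]; exact h _ (insert_subset_insert _ hJ)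

/-- Rescaling the coefficient of `I` by `u I`. -/
theorem exa_rescale [IsDomain R] (A : Finset γ) (f f' : γ → R) (U U' : Finset γ → AddSubgroup R)
    (u : Finset γ → R) (i : ℤ) (hu : ∀ I, u I ≠ 0)
    (hU : ∀ I g, g ∈ U I ↔ ∃ h ∈ U' I, g = u I * h)
    (hf : ∀ a ∈ A, ∀ I, a ∉ I → U' (insert a I) ≠ ⊥ → f a * u (insert a I) = f' a * u I)
    (h : Exa A f' U' i) : Exa A f U i := by
  have key : ∀ x : Finset γ → R, (∀ I, x I ∈ U' I) → ∀ I,
      dd A f (fun K => u K * x K) I = u I * dd A f' x I := fun x hx I => by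
    rw [dd_at, dd_at, mul_sum]
    refine sum_congr rfl fun a ha => ?_
    by_cases h1 : a ∈ I
    · simp [h1]
    · simp only [h1, if_false]
      by_cases h2 : U' (insert a I) = ⊥
      · have := hx (insert a I)
        rw [h2, AddSubgroup.mem_bot] at this
        rw [this]; simp
      · linear_combination (sg R a I * x (insert a I)) * hf a ha I h1 h2
  intro x hx hc
  choose x' hx' ex using fun I => (hU I (x I)).1 (hx I).1
  obtain ⟨y, hy, e⟩ := h x' (fun I => ⟨hx' I, fun hh => by
      have := (hx I).2 hh
      rw [ex I] at this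
      exact (mul_eq_zero.1 this).resolve_left (hu I)⟩) (by
      funext I
      have := key x' hx' I
      rw [← funext ex, hc] at this
      exact (mul_eq_zero.1 this.symm).resolve_left (hu I))
  refine ⟨fun K => u K * y K, fun I => ⟨(hU I _).2 ⟨y I, (hy I).1, rfl⟩, fun hh => ?_⟩, ?_⟩
  · simp only [(hy I).2 hh, mul_zero]
  · funext I
    rw [key y (fun K => (hy K).1), e, ex I]

theorem ke_congr (G : Grd R) {f f' : γ → R} {wt wt' : γ → Wt} {A J : Finset γ} {w : Wt} {i : ℤ}
    (hf : ∀ a ∈ A, f a = f' a) (hw : ∀ a ∈ A, wt a = wt' a) (h : KE G f wt A J w i) :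
    KE G f' wt' A J w i := by
  have e : Std G wt' A J w = Std G wt A J w := by
    funext I
    simp only [Std]
    rw [sum_congr rfl fun a ha => hw a (mem_inter.1 ha).2]
  unfold KE Exa at h ⊢
  rw [e, ← dd_congr hf]
  exact h

/-- Filtering the generators of `B` into points. -/
theorem ke_filter (G : Grd R) (f : γ → R) (wt : γ → Wt) (A B J : Finset γ) (w : Wt) (i : ℤ)
    (hAB : Disjoint A B) (hJ : Disjoint J (A ∪ B)) (hf : ∀ b ∈ B, f b ∈ G.H (wt b))
    (h : ∀ J' ⊆ B, KE G f wt A (J ∪ J') (w - ∑ a ∈ J', wt a) i) :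
    KE G f wt (A ∪ B) J w i := by
  refine exa_filter A B hAB f _ i (fun b hb I hI g hg => ?_) fun J' hJ' => ?_
  · have hbm : b ∈ A ∪ B := mem_union_right _ hb
    simp only [Std, insert_sdiff_of_mem I hbm, insert_inter_of_mem hbm] at hg ⊢
    split_ifs at hg ⊢
    · rw [sum_insert fun hh => hI (mem_inter.1 hh).1] at hg
      convert G.mul_mem _ _ _ _ (hf b hb) hg using 2
      abel
    · rw [AddSubgroup.mem_bot] at hg ⊢
      rw [hg, mul_zero]
  · have e : slice B J' (Std G wt (A ∪ B) J w) = Std G wt A (J ∪ J') (w - ∑ a ∈ J', wt a) := by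
      funext I
      have d1 := disjoint_left.1 hAB
      have d2 := disjoint_left.1 hJ
      have e1 : I \ A = J ∪ J' ↔ I ∩ B = J' ∧ I \ (A ∪ B) = J := by
        simp only [Finset.ext_iff, mem_sdiff, mem_union, mem_inter] at d2 ⊢
        constructor
        · intro h1
          refine ⟨fun a => ?_, fun a => ?_⟩
          · have := h1 a; have := @d1 a; have := @d2 a; have := @hJ' a; tauto
          · have := h1 a; have := @d1 a; have := @d2 a; have := @hJ' a; tauto
        · intro h1 a
          have := h1.1 a; have := h1.2 a; have := @d1 a; have := @d2 a; have := @hJ' a; tauto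
      simp only [slice, Std, e1]
      by_cases h1 : I ∩ B = J'
      · by_cases h2 : I \ (A ∪ B) = J
        · simp only [h1, h2, if_true, and_self]
          rw [inter_union_distrib_left,
            sum_union (hAB.mono inter_subset_right inter_subset_right), h1]
          congr 1
          abel
        · simp only [h1, h2, if_true, if_false, and_false]
      · simp only [h1, if_false, false_and]
    rw [e]; exact h J' hJ'

/-- A generator whose differential is a product, for families of coefficients. -/
theorem exa_mul (A : Finset γ) (f : γ → R) (U U1 U2 : Finset γ → AddSubgroup R) (i : ℤ) (s : γ)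
    (hs : s ∈ A) (a b : R) (p1 : ∀ I, s ∉ I → U1 I = U I) (p2 : ∀ I, s ∈ I → U2 I = U I)
    (p3 : ∀ I, s ∈ I → ∀ g ∈ U I, b * g ∈ U1 I) (p4 : ∀ I, s ∉ I → U1 (insert s I) ≤ U2 I)
    (p5 : ∀ I, s ∉ I → ∀ g ∈ U2 I, a * g ∈ U I)
    (h1 : Exa A (Function.update f s a) U1 i) (h2 : Exa A (Function.update f s b) U2 i) :
    Exa A (Function.update f s (a * b)) U i := by
  intro x hx hc
  have nu : s ∉ A.erase s := notMem_erase _ _
  have ac : ∀ v : Finset γ → R, lo s (up s v) = v - up s (lo s v) := fun v =>
    eq_sub_of_add_eq (lo_up_self s v)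
  have aca : ∀ v : Finset γ → R, lo s (up s (lo s v)) = lo s v := fun v => by
    rw [ac, lo_lo, map_zero, sub_zero]
  rw [dd_upd hs] at hc
  have hD : dd (A.erase s) f x = -((a * b) • lo s x) := eq_neg_of_add_eq_zero_left hc
  obtain ⟨P, hP, eP⟩ := h1 (lo s (up s x) + b • up s (lo s x)) (fun I => by
      rw [Pi.add_apply, Pi.smul_apply, lo_up_apply, up_lo_apply, smul_eq_mul]
      by_cases h : s ∈ I
      · simp only [h, if_true, zero_add]
        exact ⟨p3 I h _ (hx I).1, fun hh => by rw [(hx I).2 hh, mul_zero]⟩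
      · simp only [h, if_false, mul_zero, add_zero]
        rw [p1 I h]; exact hx I) (by
      simp only [dd_upd hs, map_add, map_smul, dd_lo, up_dd nu, hD, map_neg, neg_neg, aca,
        lo_lo, map_zero, smul_zero, neg_zero, add_zero, zero_add]
      rw [smul_smul]
      abel)
  rw [dd_upd hs] at eP
  have hDP := eq_sub_of_add_eq eP
  obtain ⟨S, hS, eS⟩ := h2 (lo s P + up s (lo s x)) (fun I => by
      rw [Pi.add_apply, lo_apply, up_lo_apply]
      by_cases h : s ∈ I
      · simp only [h, if_true, zero_add]
        rw [p2 I h]; exact hx I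
      · have hI := hP (insert s I)
        rw [card_insert_of_notMem h] at hI
        simp only [h, if_false, add_zero]
        exact ⟨sg_mul_mem _ _ _ (p4 I h hI.1), fun hh => by
          rw [hI.2 (by push_cast; omega), mul_zero]⟩) (by
      simp only [dd_upd hs, map_add, map_sub, map_smul, dd_lo, up_dd nu, hD, hDP, map_neg, neg_neg,
        aca, lo_lo, map_zero, smul_zero, neg_zero, zero_add, add_zero, sub_zero]
      abel)
  rw [dd_upd hs] at eS
  have hDS := eq_sub_of_add_eq eS
  refine ⟨lo s (up s P) + a • lo s (up s S) + up s (lo s S), fun I => ?_, ?_⟩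
  · rw [Pi.add_apply, Pi.add_apply, Pi.smul_apply, lo_up_apply, lo_up_apply, up_lo_apply,
      smul_eq_mul]
    by_cases h : s ∈ I
    · simp only [h, if_true, zero_add, mul_zero, add_zero]
      rw [← p2 I h]; exact hS I
    · simp only [h, if_false, add_zero]
      exact ⟨add_mem (p1 I h ▸ (hP I).1) (p5 I h _ (hS I).1), fun hh => by
        rw [(hP I).2 hh, (hS I).2 hh, mul_zero, add_zero]⟩
  · conv_rhs => rw [← lo_up_self s x]
    simp only [dd_upd hs, map_add, map_sub, map_smul, dd_lo, up_dd nu, hDP, hDS, map_neg, neg_neg,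
      aca, lo_lo, up_up, map_zero, smul_zero, neg_zero, zero_add, add_zero, sub_zero,
      smul_add, smul_sub, smul_smul]
    abel

theorem sum_upd_in {s : γ} {A I : Finset γ} (hs : s ∈ A) (h : s ∈ I) (wt : γ → Wt) (v : Wt) :
    ∑ a ∈ I ∩ A, Function.update wt s v a = v + ∑ a ∈ (I ∩ A).erase s, wt a := by
  rw [sum_update_of_mem (mem_inter.2 ⟨h, hs⟩), sdiff_singleton_eq_erase]

theorem sum_upd_out {s : γ} {I : Finset γ} (A : Finset γ) (h : s ∉ I) (wt : γ → Wt) (v : Wt) :
    ∑ a ∈ I ∩ A, Function.update wt s v a = ∑ a ∈ I ∩ A, wt a :=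
  sum_update_of_notMem (fun hh => h (mem_inter.1 hh).1) _ _

/-- A generator whose differential is a product. -/
theorem ke_mul (G : Grd R) (f : γ → R) (wt : γ → Wt) (A J : Finset γ) (w : Wt) (i : ℤ)
    (s : γ) (hs : s ∈ A) (f1 f2 : R) (w1 w2 : Wt) (h1 : f1 ∈ G.H w1) (h2 : f2 ∈ G.H w2)
    (hf : f s = f1 * f2) (hw : wt s = w1 + w2)
    (e1 : KE G (Function.update f s f1) (Function.update wt s w1) A J w i)
    (e2 : KE G (Function.update f s f2) (Function.update wt s w2) A J (w - w1) i) :
    KE G f wt A J w i := by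
  have hin : ∀ I, s ∈ I → ∑ a ∈ I ∩ A, wt a = w1 + w2 + ∑ a ∈ (I ∩ A).erase s, wt a :=
    fun I h => by rw [← hw, add_sum_erase _ _ (mem_inter.2 ⟨h, hs⟩)]
  have key := exa_mul A f (Std G wt A J w) _ _ i s hs f1 f2 (fun I h => ?_) (fun I h => ?_)
    (fun I h g hg => ?_) (fun I h g hg => ?_) (fun I h g hg => ?_) e1 e2
  · rwa [← hf, Function.update_eq_self] at key
  · simp only [Std, sum_upd_out A h]
  · simp only [Std, sum_upd_in hs h, hin I h]
    congr 2
    abel
  · simp only [Std, sum_upd_in hs h, hin I h] at hg ⊢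
    split_ifs at hg ⊢
    · convert G.mul_mem _ _ _ _ h2 hg using 2
      abel
    · rw [AddSubgroup.mem_bot] at hg ⊢
      rw [hg, mul_zero]
  · simp only [Std, sum_upd_in hs (mem_insert_self s I), sum_upd_out A h,
      insert_sdiff_of_mem I hs] at hg ⊢
    rw [insert_inter_of_mem hs, erase_insert (fun hh : s ∈ I ∩ A => h (mem_inter.1 hh).1)] at hg
    split_ifs at hg ⊢
    · convert hg using 2
      abel
    · exact hg
  · simp only [Std, sum_upd_out A h] at hg ⊢
    split_ifs at hg ⊢
    · convert G.mul_mem _ _ _ _ h1 hg using 2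
      abel
    · rw [AddSubgroup.mem_bot] at hg ⊢
      rw [hg, mul_zero]

/-- A homogeneous element divisible by a homogeneous element has a homogeneous quotient. -/
theorem Grd.dvd_iff (G : Grd R) {u g : R} {v w : Wt} (hu : u ∈ G.H v) :
    (g ∈ G.H w ∧ u ∣ g) ↔ ∃ h ∈ G.H (w - v), g = u * h := by
  constructor
  · rintro ⟨hg, h, rfl⟩
    refine ⟨G.cp (w - v) h, G.cp_mem _ _, ?_⟩
    rw [← G.cp_mul v (w - v) u h hu, add_sub_cancel, G.cp_self w _ hg]
  · rintro ⟨h, hh, rfl⟩
    refine ⟨?_, dvd_mul_right _ _⟩
    simpa using G.mul_mem _ _ _ _ hu hh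

theorem Grd.pow_mem (G : Grd R) {g : R} {v : Wt} (hg : g ∈ G.H v) (n : ℕ) :
    g ^ n ∈ G.H (n • v) := by
  induction n with
  | zero => simpa using G.one_mem
  | succ n ih => rw [pow_succ, succ_nsmul]; exact G.mul_mem _ _ _ _ ih hg

theorem Grd.prod_mem (G : Grd R) {α : Type} (S : Finset α) (g : α → R) (v : α → Wt)
    (hg : ∀ a ∈ S, g a ∈ G.H (v a)) : ∏ a ∈ S, g a ∈ G.H (∑ a ∈ S, v a) := by
  classical
  induction S using Finset.induction_on with
  | empty => simpa using G.one_mem
  | insert a S ha ih =>
    rw [prod_insert ha, sum_insert ha]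
    exact G.mul_mem _ _ _ _ (hg a (mem_insert_self _ _))
      (ih fun b hb => hg b (mem_insert_of_mem hb))

end Pool.Agent.Lib.MP_deca50_lc.Three
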