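import Pool.Agent.Lib.MP_deca50_lc.Three.Defs
import Pool.Agent.Lib.MP_deca50_lc.Odd.Core

/-! The polynomial model of the data. -/

set_option linter.unusedSectionVars false

namespace Pool.Agent.Lib.MP_deca50_lc.Three

open Finset Pool.Agent.Lib.MP_deca50_lc.Even

namespace Model

open MvPolynomial

variable {F : Type} [Field F]

/-- Every `m` columns of the matrix are independent. -/
def Gen {m n : ℕ} (M : Fin m → Fin n → F) : Prop :=
  ∀ Y : Finset (Fin n), Y.card = m → ∀ c : Fin m → F,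
    (∀ s ∈ Y, ∑ j, c j * M j s = 0) → c = 0

theorem gen_of_code {m n : ℕ} (C : Submodule F (Fin n → F)) (hC : Module.finrank F C = m)
    (hA : ∀ A : Finset (Fin n), A.card = m → ∀ x ∈ C, (∀ i ∈ A, x i = 0) → x = 0) :
    ∃ M : Fin m → Fin n → F, (∀ j, M j ∈ C) ∧ Gen M := by
  let b := Module.finBasisOfFinrankEq F C hC
  refine ⟨fun j => (b j : Fin n → F), fun j => (b j).2, ?_⟩
  intro Y hY c hc
  have h1 : ((∑ j, c j • b j : C) : Fin n → F) = 0 := by
    refine hA Y hY _ (Subtype.property _) fun i hi => ?_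
    simpa [Finset.sum_apply] using hc i hi
  have h2 : (∑ j, c j • b j : C) = 0 := Subtype.ext h1
  funext j
  exact Fintype.linearIndependent_iff.1 b.linearIndependent c h2 j

theorem exists_pair {n k ρ : ℕ} (hn : n = k + ρ) (h : MDS F n k) :
    ∃ (G : Fin k → Fin n → F) (u : Fin ρ → Fin n → F), Gen G ∧ Gen u ∧
      ∀ i j, ∑ s, G i s * u j s = 0 := by
  obtain ⟨C, hC, hA⟩ := h
  let B : LinearMap.BilinForm F (Fin n → F) := dotProductBilin F F
  have hB : ∀ x y, B x y = x ⬝ᵥ y := fun _ _ => rfl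
  have hker : LinearMap.ker B = ⊥ := by
    rw [LinearMap.ker_eq_bot']
    intro x hx
    funext i
    have := congrArg (fun f : (Fin n → F) →ₗ[F] F => f (Pi.single i 1)) hx
    simpa [hB] using this
  have hD : Module.finrank F (B.orthogonal C) = ρ := by
    have := LinearMap.BilinForm.finrank_add_finrank_orthogonal' (B := B) C
    rw [hker, inf_bot_eq, finrank_bot, add_zero, hC, Module.finrank_fintype_fun_eq_card,
      Fintype.card_fin] at this
    omega
  have hD2 : ∀ A : Finset (Fin n), A.card = ρ → ∀ y ∈ B.orthogonal C,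
      (∀ i ∈ A, y i = 0) → y = 0 := by
    intro A hAc y hy hy0
    funext i
    by_cases hi : i ∈ A
    · exact hy0 i hi
    · have hc : Aᶜ.card = k := by
        rw [Finset.card_compl, Fintype.card_fin, hAc]; omega
      obtain ⟨x, hxC, hx⟩ := Upper.surj C hC hA Aᶜ hc (Pi.single i 1)
      have h0 : B x y = 0 := (LinearMap.BilinForm.mem_orthogonal_iff.mp hy) x hxC
      rw [hB, dotProduct, Finset.sum_eq_single i] at h0
      · rw [hx i (Finset.mem_compl.mpr hi)] at h0
        simpa using h0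
      · intro j _ hj
        by_cases hjA : j ∈ A
        · rw [hy0 j hjA, mul_zero]
        · rw [hx j (Finset.mem_compl.mpr hjA), Pi.single_eq_of_ne hj, zero_mul]
      · intro hh
        exact absurd (Finset.mem_univ i) hh
  obtain ⟨G, hG1, hG2⟩ := gen_of_code C hC hA
  obtain ⟨u, hu1, hu2⟩ := gen_of_code (B.orthogonal C) hD hD2
  refine ⟨G, u, hG2, hu2, fun i j => ?_⟩
  exact (LinearMap.BilinForm.mem_orthogonal_iff.mp (hu1 j)) (G i) (hG1 i)

theorem Gen.inv {m n : ℕ} {M : Fin m → Fin n → F} (hM : Gen M) (Y : Finset (Fin n))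
    (hY : Y.card = m) :
    ∃ b : Fin n → Fin m → F,
      (∀ s ∈ Y, ∀ t ∈ Y, ∑ j, M j s * b t j = if s = t then 1 else 0) ∧
      ∀ i j, ∑ t ∈ Y, M i t * b t j = if i = j then 1 else 0 := by
  let e : Y ≃ Fin m := Y.equivFinOfCardEq hY
  let A : Matrix (Fin m) (Fin m) F := Matrix.of fun j i => M j (e.symm i)
  have hdet : A.det ≠ 0 := by
    intro h0
    obtain ⟨c, hc0, hc⟩ := Matrix.exists_vecMul_eq_zero_iff.2 h0
    refine hc0 (hM Y hY c fun s hs => ?_)
    have := congrFun hc (e ⟨s, hs⟩)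
    simpa [Matrix.vecMul, dotProduct, A] using this
  have hu : IsUnit A.det := Ne.isUnit hdet
  have h1 := Matrix.nonsing_inv_mul A hu
  have h2 := Matrix.mul_nonsing_inv A hu
  refine ⟨fun t j => if h : t ∈ Y then A⁻¹ (e ⟨t, h⟩) j else 0, ?_, ?_⟩
  · intro s hs t ht
    have := congrFun (congrFun h1 (e ⟨t, ht⟩)) (e ⟨s, hs⟩)
    simp only [Matrix.mul_apply, A, Matrix.of_apply, Equiv.symm_apply_apply, Matrix.one_apply,
      EmbeddingLike.apply_eq_iff_eq, Subtype.mk.injEq] at this
    simp only [ht, dif_pos]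
    rw [show (if s = t then (1 : F) else 0) = if t = s then 1 else 0 by simp [eq_comm], ← this]
    exact Finset.sum_congr rfl fun j _ => mul_comm _ _
  · intro i j
    have := congrFun (congrFun h2 i) j
    rw [Matrix.mul_apply, Matrix.one_apply] at this
    rw [← this, ← Finset.sum_coe_sort Y, ← e.sum_comp]
    refine Finset.sum_congr rfl fun t _ => ?_
    simp [A]

theorem Gen.dual {m n : ℕ} {M : Fin m → Fin n → F} (hM : Gen M) (hmn : m ≤ n)
    (Y : Finset (Fin n)) (hY : Y.card ≤ m) :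
    ∃ b : Fin n → Fin m → F,
      ∀ s ∈ Y, ∀ t ∈ Y, ∑ j, M j s * b t j = if s = t then 1 else 0 := by
  obtain ⟨Y', h1, h2⟩ := Finset.exists_superset_card_eq hY (by simpa using hmn)
  obtain ⟨b, hb, -⟩ := hM.inv Y' h2
  exact ⟨b, fun s hs t ht => hb s (h1 hs) t (h1 ht)⟩

theorem Gen.frob [Fintype F] (p : ℕ) [Fact p.Prime] [CharP F p] (e : ℕ)
    (hq : Fintype.card F = p * p ^ e) {m n : ℕ} {M : Fin m → Fin n → F} (hM : Gen M) :
    Gen fun j s => M j s ^ p ^ e := by
  intro Y hY c hc
  have h1 : (fun j => c j ^ p) = 0 := by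
    refine hM Y hY _ fun s hs => ?_
    have h2 : (∑ j, c j ^ p * M j s) ^ p ^ e = 0 := by
      rw [sum_pow_char_pow, ← hc s hs]
      refine Finset.sum_congr rfl fun j _ => ?_
      rw [mul_pow, ← pow_mul, ← hq, FiniteField.pow_card]
    exact pow_eq_zero_iff (pow_ne_zero _ (Fact.out : p.Prime).ne_zero) |>.1 h2
  funext j
  exact pow_eq_zero_iff (Fact.out : p.Prime).ne_zero |>.1 (congrFun h1 j)

/-- Independent linear forms are a regular sequence in every order. -/
theorem reg_of_dual {σ ι : Type} [Fintype ι] [DecidableEq ι] (A : Finset ι)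
    (f : ι → MvPolynomial σ F) (b : ι → σ → F)
    (hl : ∀ s ∈ A, f s ∈ Submodule.span F (Set.range (X : σ → MvPolynomial σ F)))
    (hd : ∀ s ∈ A, ∀ t ∈ A, aeval (b t) (f s) = if s = t then (1 : F) else 0) : Reg A f := by
  intro s hs B hB g hg
  let π : MvPolynomial σ F →ₐ[F] MvPolynomial σ F :=
    aeval fun v => X v - ∑ t ∈ B, b t v • f t
  have hlin : ∀ l ∈ Submodule.span F (Set.range (X : σ → MvPolynomial σ F)),
      π l = l - ∑ t ∈ B, aeval (b t) l • f t := by
    intro l hl
    induction hl using Submodule.span_induction with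
    | mem x hx =>
      obtain ⟨v, rfl⟩ := hx
      simp [π]
    | zero => simp
    | add x y _ _ hx hy =>
      simp only [map_add, hx, hy, add_smul, Finset.sum_add_distrib]
      ring
    | smul a x _ hx =>
      simp only [map_smul, hx, smul_sub, Finset.smul_sum, smul_assoc]
  have hBA : ∀ t ∈ B, t ∈ A ∧ t ≠ s := fun t ht =>
    ⟨Finset.mem_of_mem_erase (hB ht), Finset.ne_of_mem_erase (hB ht)⟩
  have hs1 : π (f s) = f s := by
    rw [hlin _ (hl s hs), Finset.sum_eq_zero, sub_zero]
    intro t ht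
    rw [hd s hs t (hBA t ht).1, if_neg (hBA t ht).2.symm, zero_smul]
  have ht0 : ∀ t ∈ B, π (f t) = 0 := by
    intro t ht
    rw [hlin _ (hl t (hBA t ht).1), Finset.sum_eq_single t, hd t (hBA t ht).1 t (hBA t ht).1,
      if_pos rfl, one_smul, sub_self]
    · intro r hr hrt
      rw [hd t (hBA t ht).1 r (hBA r hr).1, if_neg hrt.symm, zero_smul]
    · intro h
      exact absurd ht h
  let I : Ideal (MvPolynomial σ F) := Ideal.span (f '' B)
  have key : Ideal.Quotient.mkₐ F I = (Ideal.Quotient.mkₐ F I).comp π := by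
    apply MvPolynomial.algHom_ext
    intro v
    rw [AlgHom.comp_apply]
    apply Ideal.Quotient.eq.2
    simp only [π, aeval_X, sub_sub_cancel]
    refine I.sum_mem fun t ht => ?_
    rw [smul_eq_C_mul]
    exact I.mul_mem_left _ (Ideal.subset_span ⟨t, ht, rfl⟩)
  have hker : ∀ x ∈ I, π x = 0 := by
    have : I ≤ RingHom.ker π := by
      refine Ideal.span_le.2 ?_
      rintro _ ⟨t, ht, rfl⟩
      exact ht0 t ht
    exact fun x hx => this hx
  have hne : f s ≠ 0 := by
    intro h0
    have := hd s hs s hs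
    rw [h0, map_zero, if_pos rfl] at this
    exact zero_ne_one this
  have h1 := hker _ hg
  rw [map_mul, hs1] at h1
  have h2 : π g = 0 := (mul_eq_zero.1 h1).resolve_left hne
  have h3 : Ideal.Quotient.mkₐ F I g = 0 := by
    rw [key, AlgHom.comp_apply, h2, map_zero]
  exact Ideal.Quotient.eq_zero_iff_mem.1 h3

/-- The weights of the variables. -/
def wv (k ρ : ℕ) : (Bool × Fin k) ⊕ Fin ρ → Wt :=
  Sum.elim (fun a => ew (bl a.1)) fun _ => ew 2

theorem ew_nonneg (i j : Fin 3) : 0 ≤ ew i j := by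
  unfold ew
  rw [Pi.single_apply]
  split_ifs <;> omega

theorem wv_nonneg {k ρ : ℕ} (v : (Bool × Fin k) ⊕ Fin ρ) (j : Fin 3) : 0 ≤ wv k ρ v j := by
  cases v <;> exact ew_nonneg _ _

theorem weight_ap {σ : Type} (w : σ → Wt) (d : σ →₀ ℕ) (j : Fin 3) :
    Finsupp.weight w d j = ∑ v ∈ d.support, (d v : ℤ) * w v j := by
  rw [Finsupp.weight_apply, Finsupp.sum, Finset.sum_apply]
  simp

/-- The grading of the polynomial ring by weights with nonnegative entries. -/
noncomputable def grd (F : Type) [Field F] {σ : Type} (w : σ → Wt) (hw : ∀ v j, 0 ≤ w v j) :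
    Grd (MvPolynomial σ F) where
  H a := (weightedHomogeneousSubmodule F w a).toAddSubgroup
  cp a := (weightedHomogeneousComponent w a).toAddMonoidHom
  cp_mem a g := weightedHomogeneousComponent_mem w g a
  cp_self _ _ h := IsWeightedHomogeneous.weightedHomogeneousComponent_same h
  cp_ne _ a _ h hne := IsWeightedHomogeneous.weightedHomogeneousComponent_ne a h hne.symm
  cp_mul v a f g hf := by
    show weightedHomogeneousComponent w (v + a) (f * g) = f * weightedHomogeneousComponent w a g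
    induction g using MvPolynomial.induction_on' with
    | monomial m r =>
      have h1 : IsWeightedHomogeneous w (monomial m r : MvPolynomial σ F) (Finsupp.weight w m) :=
        isWeightedHomogeneous_monomial w m r rfl
      have h2 := IsWeightedHomogeneous.mul hf h1
      rw [weightedHomogeneousComponent_of_mem h2, weightedHomogeneousComponent_of_mem h1]
      by_cases h : a = Finsupp.weight w m
      · rw [if_pos h, if_pos (by rw [h])]
      · rw [if_neg h, if_neg (fun h' => h (add_left_cancel h')), mul_zero]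
    | add A B hA hB => rw [mul_add, map_add, map_add, hA, hB, mul_add]
  mul_mem _ _ _ _ hf hg := IsWeightedHomogeneous.mul hf hg
  one_mem := isWeightedHomogeneous_one F w
  neg a j g hj hg := by
    ext d
    by_contra hd
    have h1 : Finsupp.weight w d = a := hg hd
    have h2 := weight_ap w d j
    rw [h1] at h2
    have h3 : 0 ≤ ∑ v ∈ d.support, (d v : ℤ) * w v j :=
      Finset.sum_nonneg fun v _ => mul_nonneg (Int.natCast_nonneg _) (hw v j)
    omega

theorem mem_of_pos {σ : Type} (w : σ → Wt) (I : Ideal (MvPolynomial σ F)) (j : Fin 3)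
    (hI : ∀ v, w v j ≠ 0 → X v ∈ I) {a : Wt} {g : MvPolynomial σ F} (ha : 0 < a j)
    (hg : IsWeightedHomogeneous w g a) : g ∈ I := by
  rw [g.as_sum]
  refine I.sum_mem fun d hd => ?_
  have h1 : Finsupp.weight w d = a := hg (mem_support_iff.1 hd)
  have h2 := weight_ap w d j
  rw [h1] at h2
  obtain ⟨v, hv, hv0⟩ := Finset.exists_ne_zero_of_sum_ne_zero (h2 ▸ ha.ne')
  have h3 : (X v : MvPolynomial σ F) ∣ monomial d (coeff d g) :=
    X_dvd_monomial.2 (Or.inr (Finsupp.mem_support_iff.1 hv))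
  exact Ideal.mem_of_dvd I h3 (hI v (right_ne_zero_of_mul hv0))

/-- The linear form in the variables `x j` with coefficients the column `s` of `M`. -/
noncomputable def lf {σ : Type} {m n : ℕ} (x : Fin m → σ) (M : Fin m → Fin n → F) (s : Fin n) :
    MvPolynomial σ F := ∑ j, M j s • X (x j)

section lf

variable {σ : Type} {m n : ℕ} (x : Fin m → σ) (M : Fin m → Fin n → F)

theorem lf_lin (s : Fin n) :
    lf x M s ∈ Submodule.span F (Set.range (X : σ → MvPolynomial σ F)) :=
  Submodule.sum_mem _ fun j _ => Submodule.smul_mem _ _ (Submodule.subset_span ⟨x j, rfl⟩)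

theorem lf_hom (w : σ → Wt) (a : Wt) (h : ∀ j, w (x j) = a) (s : Fin n) :
    lf x M s ∈ weightedHomogeneousSubmodule F w a :=
  Submodule.sum_mem _ fun j _ => Submodule.smul_mem _ _ (h j ▸ isWeightedHomogeneous_X F w (x j))

theorem map_lf {A : Type} [CommRing A] [Algebra F A] (b : σ → A) (s : Fin n) :
    aeval b (lf x M s) = ∑ j, M j s • b (x j) := by
  simp [lf]

theorem lf_pow (p : ℕ) [Fact p.Prime] [CharP F p] (e : ℕ) (s : Fin n) :
    lf x M s ^ p ^ e = ∑ j, M j s ^ p ^ e • X (x j) ^ p ^ e := by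
  rw [lf, sum_pow_char_pow]
  simp only [smul_pow]

theorem X_mem_span (hM : Gen M) (Y : Finset (Fin n)) (hY : Y.card = m) (j : Fin m) :
    X (x j) ∈ Ideal.span (lf x M '' Y) := by
  obtain ⟨b, -, hb⟩ := hM.inv Y hY
  have : (X (x j) : MvPolynomial σ F) = ∑ t ∈ Y, b t j • lf x M t := by
    simp only [lf, Finset.smul_sum, smul_smul]
    rw [Finset.sum_comm]
    simp only [← Finset.sum_smul, mul_comm (b _ j), hb]
    simp
  rw [this]
  refine Ideal.sum_mem _ fun t ht => ?_
  rw [smul_eq_C_mul]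
  exact Ideal.mul_mem_left _ _ (Ideal.subset_span ⟨t, ht, rfl⟩)

theorem lf_ne (hM : Gen M) (hx : Function.Injective x) (h1 : 1 ≤ m) (hmn : m ≤ n) (s : Fin n) :
    lf x M s ≠ 0 := by
  obtain ⟨b, hb⟩ := hM.dual hmn {s} (by simpa using h1)
  intro h0
  have h2 := map_lf x M (Function.extend x (b s) 0) s
  rw [h0, map_zero] at h2
  simp only [hx.extend_apply, smul_eq_mul] at h2
  rw [hb s (by simp) s (by simp), if_pos rfl] at h2
  exact zero_ne_one h2

end lf

theorem sum_mul_zero {R : Type} [CommRing R] [Algebra F R] {k ρ n : ℕ} (a : Fin k → Fin n → F)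
    (b : Fin ρ → Fin n → F) (P : Fin k → R) (T : Fin ρ → R)
    (h : ∀ i j, ∑ s, a i s * b j s = 0) :
    ∑ s, (∑ i, a i s • P i) * ∑ j, b j s • T j = 0 := by
  simp only [Finset.sum_mul_sum, smul_mul_smul_comm]
  rw [Finset.sum_comm]
  refine Finset.sum_eq_zero fun i _ => ?_
  rw [Finset.sum_comm]
  refine Finset.sum_eq_zero fun j _ => ?_
  rw [← Finset.sum_smul, h, zero_smul]

section model

variable {k ρ n : ℕ} (G : Fin k → Fin n → F) (U : Fin ρ → Fin n → F)

/-- The coordinates of the copy `c` of the code. -/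
noncomputable def yy (ρ : ℕ) (G : Fin k → Fin n → F) (c : Bool) (s : Fin n) :
    MvPolynomial ((Bool × Fin k) ⊕ Fin ρ) F := lf (fun j => Sum.inl (c, j)) G s

/-- The coordinates of the dual side. -/
noncomputable def zz (k : ℕ) (U : Fin ρ → Fin n → F) (s : Fin n) :
    MvPolynomial ((Bool × Fin k) ⊕ Fin ρ) F := lf Sum.inr U s

/-- The translation of the copy `c` by the other copy. -/
noncomputable def tr (F : Type) [Field F] (k ρ : ℕ) (c : Bool) :
    MvPolynomial ((Bool × Fin k) ⊕ Fin ρ) F →ₐ[F] MvPolynomial ((Bool × Fin k) ⊕ Fin ρ) F :=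
  aeval (Sum.elim
    (fun a => if a.1 = c then X (Sum.inl a) + X (Sum.inl (!c, a.2)) else X (Sum.inl a))
    fun j => X (Sum.inr j))

theorem tr_self (c : Bool) (s : Fin n) :
    tr F k ρ c (yy ρ G c s) = yy ρ G c s + yy ρ G (!c) s := by
  rw [tr, yy, yy, map_lf]
  simp [lf, Finset.sum_add_distrib]

theorem tr_other (c : Bool) (s : Fin n) : tr F k ρ c (yy ρ G (!c) s) = yy ρ G (!c) s := by
  rw [tr, yy, map_lf]
  simp [lf]

theorem tr_z (c : Bool) (s : Fin n) : tr F k ρ c (zz k U s) = zz k U s := by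
  rw [tr, zz, map_lf]
  simp [lf]

theorem yy_mem (c : Bool) (s : Fin n) :
    yy ρ G c s ∈ weightedHomogeneousSubmodule F (wv k ρ) (ew (bl c)) :=
  lf_hom _ G (wv k ρ) (ew (bl c)) (fun _ => rfl) s

theorem zz_mem (s : Fin n) : zz k U s ∈ weightedHomogeneousSubmodule F (wv k ρ) (ew 2) :=
  lf_hom _ U (wv k ρ) (ew 2) (fun _ => rfl) s

variable {G U}

theorem reg_yz (hG : Gen G) (hU : Gen U) (hn : n = k + ρ) (c : Bool) (Y Z : Finset (Fin n))
    (hY : Y.card ≤ k) (hZ : Z.card ≤ ρ) :
    Reg (Y ∪ Z) fun s => if s ∈ Y then yy ρ G c s else zz k U s := by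
  obtain ⟨b, hb⟩ := hG.dual (by omega) Y hY
  obtain ⟨b', hb'⟩ := hU.dual (by omega) Z hZ
  refine reg_of_dual _ _
    (fun t => if t ∈ Y then Sum.elim (fun a => b t a.2) 0 else Sum.elim 0 (b' t)) ?_ ?_
  · intro s _
    split_ifs <;> exact lf_lin _ _ s
  · intro s hs t ht
    by_cases h1 : s ∈ Y <;> by_cases h2 : t ∈ Y <;>
      simp only [h1, h2, if_true, if_false, yy, zz, map_lf, Sum.elim_inl, Sum.elim_inr,
        smul_eq_mul, Pi.zero_apply, mul_zero, Finset.sum_const_zero]
    · exact hb s h1 t h2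
    · rw [if_neg (by rintro rfl; exact h2 h1)]
    · rw [if_neg (by rintro rfl; exact h1 h2)]
    · exact hb' s ((Finset.mem_union.1 hs).resolve_left h1) t
        ((Finset.mem_union.1 ht).resolve_left h2)

theorem span_yy (hG : Gen G) (c : Bool) (Y : Finset (Fin n)) (hY : Y.card = k) (w : Wt)
    (g : MvPolynomial ((Bool × Fin k) ⊕ Fin ρ) F) (hw : 0 < w (bl c))
    (hg : IsWeightedHomogeneous (wv k ρ) g w) : g ∈ Ideal.span (yy ρ G c '' Y) := by
  refine mem_of_pos (wv k ρ) _ (bl c) ?_ hw hg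
  rintro (⟨c', j⟩ | j) hv
  · obtain rfl : c' = c := by
      revert hv
      cases c <;> cases c' <;> simp [wv, ew, bl]
    exact X_mem_span (fun j => Sum.inl (c', j)) G hG Y hY j
  · exfalso
    revert hv
    cases c <;> simp [wv, ew, bl]

theorem span_zz (hU : Gen U) (Z : Finset (Fin n)) (hZ : Z.card = ρ) (w : Wt)
    (g : MvPolynomial ((Bool × Fin k) ⊕ Fin ρ) F) (hw : 0 < w 2)
    (hg : IsWeightedHomogeneous (wv k ρ) g w) : g ∈ Ideal.span (zz k U '' Z) := by
  refine mem_of_pos (wv k ρ) _ 2 ?_ hw hg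
  rintro (⟨c', j⟩ | j) hv
  · exfalso
    revert hv
    cases c' <;> simp [wv, ew, bl]
  · exact X_mem_span Sum.inr U hU Z hZ j

theorem theta_yz (p : ℕ) [Fact p.Prime] [CharP F p] (e : ℕ)
    (h : ∀ i j, ∑ s, G i s * U j s = 0) (c : Bool) :
    ∑ s, yy ρ G c s ^ p ^ e * zz k (fun j s => U j s ^ p ^ e) s = 0 := by
  simp only [yy, lf_pow]
  simp only [zz, lf]
  refine sum_mul_zero (fun i s => G i s ^ p ^ e) (fun j s => U j s ^ p ^ e) _ _ fun i j => ?_
  have := congrArg (· ^ p ^ e) (h i j)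
  simp only [sum_pow_char_pow, mul_pow] at this
  rw [this, zero_pow (pow_ne_zero _ (Fact.out : p.Prime).ne_zero)]

theorem kappa_yz [Fintype F] (p : ℕ) [Fact p.Prime] [CharP F p] (e : ℕ)
    (hq : Fintype.card F = p * p ^ e) (h : ∀ i j, ∑ s, G i s * U j s = 0) (c : Bool) :
    ∑ s, yy ρ G c s * zz k (fun j s => U j s ^ p ^ e) s ^ p = 0 := by
  have h1 := fun s => lf_pow (σ := (Bool × Fin k) ⊕ Fin ρ) Sum.inr
    (fun j s => U j s ^ p ^ e) p 1 s
  simp only [pow_one] at h1
  simp only [zz, h1]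
  simp only [yy, lf]
  refine sum_mul_zero G (fun j s => (U j s ^ p ^ e) ^ p) _ _ fun i j => ?_
  rw [← h i j]
  refine Finset.sum_congr rfl fun s _ => ?_
  rw [← pow_mul, mul_comm (p ^ e), ← hq, FiniteField.pow_card]

end model

end Model

open Model in
theorem exists_ctx {F : Type} [Field F] [Fintype F] (p : ℕ) [Fact p.Prime] [CharP F p]
    (e n k ρ : ℕ) (hq : Fintype.card F = p * p ^ e) (hn : n = k + ρ) (hk : 1 ≤ k)
    (hρ : 1 ≤ ρ) (h : MDS F n k) :
    Nonempty (Ctx (MvPolynomial ((Bool × Fin k) ⊕ Fin ρ) F) (Fin n) p (p ^ e) k ρ) := by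
  obtain ⟨G, u, hG, hu, hGu⟩ := exists_pair hn h
  have hU := hu.frob p e hq
  exact ⟨{
    toGrd := grd F (wv k ρ) wv_nonneg
    y := yy ρ G
    z := zz k fun j s => u j s ^ p ^ e
    ψ := fun c => (tr F k ρ c).toRingHom
    card := by rw [Fintype.card_fin, hn]
    y_mem := yy_mem G
    z_mem := zz_mem _
    y_ne := fun c s => lf_ne _ G hG (fun i j hij => by simpa using hij) hk (by omega) s
    z_ne := fun s => lf_ne _ _ hU Sum.inr_injective hρ (by omega) s
    reg := fun c Y Z _ => reg_yz hG hU hn c Y Z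
    span_y := span_yy hG
    span_z := span_zz hU
    theta := theta_yz p e hGu
    kappa := kappa_yz p e hq hGu
    ψ_self := tr_self G
    ψ_other := tr_other G
    ψ_z := tr_z _ }⟩

end Pool.Agent.Lib.MP_deca50_lc.Three
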