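import Mathlib

namespace Pool.Agent.Lib.MP_deca50_lc.Three

/-- For `Q` a power of `p`, no coefficient of `(1+x)^(Q-1)` is divisible by `p`. -/
theorem not_dvd_choose_pred (p a i : ℕ) [hp : Fact p.Prime] (hi : i < p ^ a) :
    ¬ p ∣ (p ^ a - 1).choose i := by
  have hpos : 0 < p ^ a := Nat.pow_pos hp.out.pos
  induction i with
  | zero => simpa using hp.out.one_lt.ne'
  | succ i ih =>
    intro h
    have h1 : (p ^ a).choose (i + 1) = (p ^ a - 1).choose i + (p ^ a - 1).choose (i + 1) := by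
      conv_lhs => rw [show p ^ a = (p ^ a - 1) + 1 by omega]
      exact Nat.choose_succ_succ' _ _
    have h2 : p ∣ (p ^ a).choose (i + 1) :=
      hp.out.dvd_choose_pow (by omega) (by omega)
    rw [h1] at h2
    exact ih (by omega) ((Nat.dvd_add_left h).1 h2)

/-- Vandermonde: some `r ∈ [i - g, i]` has `p ∤ C(m, r)` when `m + g = Q - 1` and `i < Q`. -/
theorem exists_not_dvd_choose (p a m g i : ℕ) [hp : Fact p.Prime] (hm : m + g + 1 = p ^ a)
    (hi : i < p ^ a) : ∃ r, r ≤ i ∧ i ≤ r + g ∧ ¬ p ∣ m.choose r := by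
  by_contra hcon
  push Not at hcon
  apply not_dvd_choose_pred p a i hi
  rw [show p ^ a - 1 = m + g by omega, Nat.add_choose_eq]
  refine Finset.dvd_sum fun x hx => ?_
  have hx' : x.1 + x.2 = i := by simpa using hx
  by_cases h : x.2 ≤ g
  · exact Dvd.dvd.mul_right (hcon x.1 (by omega) (by omega)) _
  · rw [Nat.choose_eq_zero_of_lt (show g < x.2 by omega)]
    simp

/-- `C(Q-2, d) = ± (d+1)` modulo `p`, in the form needed. -/
theorem not_dvd_choose_pred_pred (p a d : ℕ) [hp : Fact p.Prime]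
    (hd : d + 2 ≤ p ^ a) (hp' : ¬ p ∣ d + 1) : ¬ p ∣ (p ^ a - 2).choose d := by
  intro h
  have h1 : (p ^ a - 2 + 1) * (p ^ a - 2).choose d
      = (p ^ a - 2 + 1).choose (d + 1) * (d + 1) := Nat.add_one_mul_choose_eq _ _
  have h2 : p ∣ (p ^ a - 2 + 1).choose (d + 1) * (d + 1) := h1 ▸ Dvd.dvd.mul_left h _
  rw [show p ^ a - 2 + 1 = p ^ a - 1 by omega] at h2
  rcases (Nat.Prime.dvd_mul hp.out).1 h2 with h3 | h3
  · exact not_dvd_choose_pred p a (d + 1) (by omega) h3
  · exact hp' h3

/-- The NUMBERS paragraph: `B (Q-1)`, the step and the end are contradictory.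
`k'` is `k - 1`, `rho = Q + d`, and `k' + rho = p * Q + 1`. -/
theorem numbers (p a Q d k' rho : ℕ) [hp : Fact p.Prime] (hQa : Q = p ^ a)
    (hrho : rho = Q + d) (hk : k' + rho = p * Q + 1) (hd : d + 2 ≤ Q) (hp' : ¬ p ∣ d + 1)
    (B : ℕ → Prop) (base : B (Q - 1))
    (step : ∀ n r, 1 ≤ r → r < n → (p - 1) * (n + 1) < r + k' → r + n < rho →
      ¬ p ∣ (n - 1).choose r → B n → B (n - 1))
    (stop : ∀ n, 1 ≤ n → (p - 1) * (n + 1) < k' → n < rho → ¬ B n) : False := by
  have hp2 : 2 ≤ p := hp.out.two_le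
  obtain ⟨u, rfl⟩ : ∃ u, p = u + 1 := ⟨p - 1, by omega⟩
  simp only [Nat.add_sub_cancel] at step stop
  have hu : 1 ≤ u := by omega
  have hk2 : k' + d = u * Q + 1 := by
    have : (u + 1) * Q = u * Q + Q := by ring
    omega
  have key : ∀ G, G ≤ d → B (Q - 1 - G) := by
    intro G
    induction G with
    | zero => intro _; simpa using base
    | succ G ih =>
      intro hG
      have hB := ih (by omega)
      have hn : Q - 1 - G + 1 + G = Q := by omega
      have hmul : u * (Q - 1 - G + 1) + u * G = u * Q := by rw [← Nat.mul_add, hn]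
      by_cases hstop : d ≤ u * G
      · exact absurd hB (stop _ (by omega) (by omega) (by omega))
      rw [show Q - 1 - (G + 1) = Q - 1 - G - 1 by omega]
      rcases Nat.eq_zero_or_pos G with rfl | hGpos
      · refine step _ d (by omega) (by omega) (by omega) (by omega) ?_ hB
        rw [show Q - 1 - 0 - 1 = Q - 2 by omega, hQa]
        exact not_dvd_choose_pred_pred _ a d (hQa ▸ hd) hp'
      · obtain ⟨r, hr1, hr2, hr3⟩ := exists_not_dvd_choose (u + 1) a (Q - 1 - G - 1) (G + 1)
          (min (d + G) (Q - 1)) (by omega) (by omega)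
        have hr4 : r ≤ Q - 1 - G - 1 := by
          by_contra hcon
          rw [Nat.choose_eq_zero_of_lt (by omega)] at hr3
          exact hr3 (dvd_zero _)
        have hG2 : G ≤ u * G := Nat.le_mul_of_pos_left _ hu
        exact step _ r (by omega) (by omega) (by omega) (by omega) hr3 hB
  have hn : Q - 1 - d + 1 + d = Q := by omega
  have hmul : u * (Q - 1 - d + 1) + u * d = u * Q := by rw [← Nat.mul_add, hn]
  have hd2 : d ≤ u * d := Nat.le_mul_of_pos_left _ hu
  exact stop _ (by omega) (by omega) (by omega) (key d le_rfl)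

end Pool.Agent.Lib.MP_deca50_lc.Three
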