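import Pool.Agent.Lib.MP_deca50_lc.Three.Zig
import Pool.Agent.Lib.MP_deca50_lc.Three.Psi

/-! The step and the end of the induction. -/

set_option linter.unusedSectionVars false

namespace Pool.Agent.Lib.MP_deca50_lc.Three

open Finset

variable {R : Type} [CommRing R] [IsDomain R] {ι : Type} [Fintype ι] [DecidableEq ι]
  {p Q k ρ : ℕ} (X : Ctx R ι p Q k ρ)

theorem st_tau (t : ι) : (t, false) ∉ G0 t := by simp [G0]

theorem st_sub (t : ι) (c : Bool) : (univ.erase t) ×ˢ ({c} : Finset Bool) ⊆ G0 t := by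
  intro a ha
  simpa [G0] using (mem_product.1 ha).1

theorem Ctx.st_xc (c : Bool) (S : Finset ι) (x : Finset (ι × Bool) → R) :
    X.xc c S x = ∑ s ∈ S, X.z s ^ p • up (s, c) x := by
  simp [Ctx.xc, xi_apply]

theorem Ctx.st_dt (t : ι) (x : Finset (ι × Bool) → R) :
    X.dt t x = X.y false t • lo (t, false) x + X.d0 t x := dd_insert (st_tau t) X.fE x

theorem Ctx.st_smul_U {t : ι} {A : Finset (ι × Bool)} {i : ℤ} {x : Finset (ι × Bool) → R} (g : R)
    (hx : Mem (X.PU t A) i x) : Mem (X.PU t A) i (g • x) := by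
  intro I
  obtain ⟨h1, h2⟩ := hx I
  rw [X.mem_PU] at h1 ⊢
  rw [Pi.smul_apply, smul_eq_mul]
  exact ⟨⟨fun h => (h1.1 h).mul_left g, fun h => by rw [h1.2 h, mul_zero]⟩,
    fun h => by rw [h2 h, mul_zero]⟩

theorem Ctx.st_smul {t : ι} {A : Finset (ι × Bool)} {i : ℤ} {x : Finset (ι × Bool) → R} {g : R}
    {v w : Wt} (hg : g ∈ X.H v) (hx : Mem (X.PW t A w) i x) :
    Mem (X.PW t A (v + w)) i (g • x) := by
  intro I
  obtain ⟨h1, h2⟩ := X.st_smul_U g (hx.mono fun _ => inf_le_left) I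
  refine ⟨⟨h1, ?_⟩, h2⟩
  rw [add_sub_assoc]
  exact X.mul_mem _ _ _ _ hg (hx I).1.2

theorem Ctx.st_one (t : ι) (A : Finset (ι × Bool)) : Mem (X.PW t A 0) 0 one := by
  intro I
  by_cases h : I = ∅
  · subst h
    refine ⟨⟨?_, ?_⟩, fun h => absurd rfl h⟩
    · exact (X.mem_PU t A ∅ _).2 ⟨fun _ => by simp [Ctx.uz], fun h => absurd (empty_subset A) h⟩
    · simpa [one] using X.one_mem
  · simp [one, h]

theorem Ctx.st_mono {t : ι} {w : Wt} {i : ℤ} {x : Finset (ι × Bool) → R}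
    (hx : Mem (X.PW t (G0 t) w) i x) : Mem (X.PW t (Gt t) w) i x := by
  refine hx.mono fun I g hg => ⟨?_, hg.2⟩
  have h := (X.mem_PU _ _ _ _).1 hg.1
  refine (X.mem_PU _ _ _ _).2 ⟨fun _ => ?_, fun hI => h.2 fun e => hI (e.trans (subset_insert _ _))⟩
  by_cases e : I ⊆ G0 t
  · exact h.1 e
  · rw [h.2 e]
    exact dvd_zero _

theorem Ctx.st_lo_zero {t : ι} {i : ℤ} {x : Finset (ι × Bool) → R}
    (hx : Mem (X.PU t (G0 t)) i x) : lo (t, false) x = 0 := by
  funext I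
  rw [lo_apply]
  split_ifs
  · rfl
  · rw [((X.mem_PU _ _ _ _).1 (hx _).1).2 fun e => st_tau t (e (mem_insert_self _ _)), mul_zero]
    rfl

theorem Ctx.st_lo_mem {t : ι} {i : ℤ} {x : Finset (ι × Bool) → R}
    (hx : Mem (X.PU t (Gt t)) (i + 1) x) : Mem (X.PU t (G0 t)) i (lo (t, false) x) := by
  intro I
  rw [lo_apply]
  split_ifs with hI
  · exact ⟨zero_mem _, fun _ => rfl⟩
  obtain ⟨h1, h2⟩ := hx (insert (t, false) I)
  rw [X.mem_PU] at h1
  refine ⟨sg_mul_mem _ _ _ ((X.mem_PU _ _ _ _).2 ⟨fun e => ?_, fun e => h1.2 fun e' => e ?_⟩),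
    fun h => ?_⟩
  · exact (X.uz_dvd_insert t _ I).trans (h1.1 (insert_subset_insert _ e))
  · exact (subset_insert_iff_of_notMem hI).1 ((subset_insert _ _).trans e')
  · rw [h2, mul_zero]
    rw [card_insert_of_notMem hI]
    push_cast
    omega

theorem Ctx.st_up_mem {t : ι} {w : Wt} {i : ℤ} {x : Finset (ι × Bool) → R}
    (hx : Mem (X.PW t (G0 t) w) i x) :
    Mem (X.PW t (Gt t) (w + ew 0)) (i + 1) (up (t, false) x) := by
  intro I
  rw [up_apply]
  split_ifs with hI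
  swap
  · exact ⟨zero_mem _, fun _ => rfl⟩
  obtain ⟨⟨h1, h3⟩, h2⟩ := hx (I.erase (t, false))
  have h1' := (X.mem_PU _ _ _ _).1 h1
  refine ⟨sg_mul_mem _ _ _ ⟨(X.mem_PU _ _ _ _).2 ⟨fun e => ?_, fun e => h1'.2 fun e' => e ?_⟩, ?_⟩,
    fun h => ?_⟩
  · have hu : X.uz t I = X.uz t (I.erase (t, false)) := by
      conv_lhs => rw [← insert_erase hI]
      unfold Ctx.uz
      rw [image_insert, erase_insert_eq_erase]
    rw [hu]
    exact h1'.1 (subset_insert_iff.1 e)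
  · exact subset_insert_iff.2 e'
  · have e : w + ew 0 - ∑ a ∈ I, wE a = w - ∑ a ∈ I.erase (t, false), wE a := by
      have e' : wE (t, false) = ew 0 := rfl
      rw [← add_sum_erase I wE hI, e']
      abel
    rw [e]
    exact h3
  · rw [h2, mul_zero]
    rw [← card_erase_add_one hI] at h
    push_cast at h
    omega

theorem Ctx.st_pr {t : ι} {A : Finset (ι × Bool)} {i : ℤ} {x : Finset (ι × Bool) → R} {v : Wt}
    (hx : Mem (X.PW t A v) i x) (u : Wt) (g : R) : X.pr (u + v) (g • x) = X.cp u g • x := by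
  funext I
  have e : u + v - ∑ a ∈ I, wE a = (v - ∑ a ∈ I, wE a) + u := by ring
  rw [Ctx.pr, e, Pi.smul_apply, Pi.smul_apply, smul_eq_mul, smul_eq_mul, mul_comm g,
    X.cp_mul _ _ _ _ (hx I).1.2, mul_comm]

theorem Ctx.st_xi_mem (hp : 2 ≤ p) (t : ι) (c : Bool) :
    Mem (X.PW t (G0 t) (ew (bl c) + p • ew 2)) 1 (X.xc c (univ.erase t) one) := by
  simpa using X.xc_mem (by omega) t (G0 t) c _ (st_sub t c) 0 0 (X.st_one t _)

theorem Ctx.st_vt_mem (hp : 2 ≤ p) (t : ι) :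
    Mem (X.PW t (G0 t) (ew 0 + (ew 1 + p • ew 2))) 1 (X.vt t) := by
  refine Mem.sub (X.st_smul (X.y_mem false t) (X.st_xi_mem hp t true)) ?_
  rw [add_left_comm]
  exact X.st_smul (X.y_mem true t) (X.st_xi_mem hp t false)

theorem Ctx.st_vt_fix (t : ι) (c : Bool)
    (Ψ : (Finset (ι × Bool) → R) →+ (Finset (ι × Bool) → R))
    (hs : ∀ (g : R) x, Ψ (g • x) = X.ψ c g • Ψ x) (h1 : Ψ one = one)
    (hu : ∀ s x, s ≠ t → Ψ (up (s, c) x) = up (s, c) (Ψ x) + up (s, !c) (Ψ x))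
    (hv : ∀ s x, Ψ (up (s, !c) x) = up (s, !c) (Ψ x)) : Ψ (X.vt t) = X.vt t := by
  have e1 : Ψ (X.xc c (univ.erase t) one) =
      X.xc c (univ.erase t) one + X.xc (!c) (univ.erase t) one := by
    rw [X.st_xc, X.st_xc, map_sum, ← sum_add_distrib]
    refine sum_congr rfl fun s hs' => ?_
    rw [hs, hu s _ (ne_of_mem_erase hs'), h1, map_pow, X.ψ_z, smul_add]
  have e2 : Ψ (X.xc (!c) (univ.erase t) one) = X.xc (!c) (univ.erase t) one := by
    rw [X.st_xc, map_sum]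
    refine sum_congr rfl fun s _ => ?_
    rw [hs, hv, h1, map_pow, X.ψ_z]
  have e3 := X.ψ_self c t
  have e4 := X.ψ_other c t
  unfold Ctx.vt
  rw [map_sub, hs, hs]
  cases c <;> simp only [Bool.not_true, Bool.not_false] at e1 e2 e3 e4 <;>
    rw [e1, e2, e3, e4] <;> module

/-- Elements of positive degree without `z` are multiples of the generator at `t`. -/
theorem Ctx.st_noz {t : ι} {w : Wt} (hw : w 2 = 0) {x : Finset (ι × Bool) → R}
    (hx : Mem (X.PW t (Gt t) w) 1 x) (I : Finset (ι × Bool)) (hI : (t, false) ∉ I) : x I = 0 := by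
  obtain ⟨⟨h1, h3⟩, h2⟩ := hx I
  have h1' := (X.mem_PU _ _ _ _).1 h1
  by_contra hne
  have hc : I.card = 1 := by
    by_contra e
    exact hne (h2 (by exact_mod_cast e))
  obtain ⟨a, rfl⟩ := card_eq_one.1 hc
  have hsub : {a} ⊆ Gt t := by
    by_contra e
    exact hne (h1'.2 e)
  have hat : a.1 ≠ t := by
    simpa [G0] using (subset_insert_iff_of_notMem hI).1 hsub
  have hu : X.uz t {a} = X.z a.1 := by simp [Ctx.uz, erase_eq_of_notMem, hat.symm]
  obtain ⟨g, hg, e⟩ := (X.toGrd.dvd_iff (X.z_mem a.1)).1 ⟨h3, hu ▸ h1'.1 hsub⟩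
  refine hne ?_
  rw [e, X.neg _ 2 g ?_ hg, mul_zero]
  obtain ⟨s, b⟩ := a
  cases b <;> simp [hw, wE, ew, bl]

/-- The first two terms of the zigzag. -/
theorem Ctx.st_start (hp : 2 ≤ p) (t : ι) (m : ℕ) (h : X.BB t m) :
    ∃ xh, Mem (X.PU t (G0 t)) 2 xh ∧ X.d0 t xh = X.y true t ^ m • X.vt t ∧
      Mem (X.PW t (Gt t) ![0, ((m + 1 : ℕ) : ℤ), 0]) 0 (X.y true t ^ (m + 1) • one) ∧
      Mem (X.PW t (Gt t) ![1, ((m + 1 : ℕ) : ℤ), p]) 2
        (xh - up (t, false) (X.y true t ^ m • X.xc true (univ.erase t) one)) ∧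
      X.dt t (xh - up (t, false) (X.y true t ^ m • X.xc true (univ.erase t) one)) =
        -X.xc false univ (X.y true t ^ (m + 1) • one) := by
  obtain ⟨x, hx, hd⟩ := h
  have hy : ∀ n, X.y true t ^ n ∈ X.H (n • ew 1) := fun n => X.toGrd.pow_mem (X.y_mem true t) n
  have w1 : (![1, ((m + 1 : ℕ) : ℤ), p] : Wt) = m • ew 1 + (ew 0 + (ew 1 + p • ew 2)) := by
    funext j
    fin_cases j <;> simp [ew]
  have w0 : (![0, ((m + 1 : ℕ) : ℤ), 0] : Wt) = (m + 1) • ew 1 + 0 := by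
    funext j
    fin_cases j <;> simp [ew]
  have hm := X.pr_mem t _ (m • ew 1 + (ew 0 + (ew 1 + p • ew 2))) 2 hx
  have hm' := hm.mono fun _ => inf_le_left
  have hd' : X.d0 t (X.pr (m • ew 1 + (ew 0 + (ew 1 + p • ew 2))) x) = X.y true t ^ m • X.vt t := by
    rw [Ctx.d0, ← X.pr_dd, ← Ctx.d0, hd, X.st_pr (X.st_vt_mem hp t), X.cp_self _ _ (hy m)]
  refine ⟨_, hm', hd', ?_, ?_, ?_⟩
  · rw [w0]
    exact X.st_smul (hy _) (X.st_one t _)
  · rw [w1]
    refine (X.st_mono hm).sub ?_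
    have := X.st_up_mem (X.st_smul (hy m) (X.st_xi_mem hp t true))
    have e : m • ew 1 + (ew (bl true) + p • ew 2) + ew 0 = m • ew 1 + (ew 0 + (ew 1 + p • ew 2)) := by
      simp only [bl, if_true]
      abel
    rwa [e] at this
  · have e1 : X.dt t (X.xc true (univ.erase t) one) = -(X.y true t * X.z t ^ p) • one := by
      have e2 := dd_xi (Gt t) ((univ.erase t) ×ˢ {true}) X.fE (fun a => X.z a.1 ^ p) one
      have e3 : dd (Gt t) X.fE (one : Finset (ι × Bool) → R) = 0 := by simp [dd_apply, lo_one]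
      have e4 := X.kappa true
      rw [← add_sum_erase _ _ (mem_univ t)] at e4
      rw [e3, map_zero, add_zero, sum_congr rfl fun b hb =>
        if_pos (show b ∈ Gt t from mem_insert_of_mem (st_sub t true hb)), sum_product] at e2
      simp only [sum_singleton, Ctx.fE] at e2
      rw [eq_neg_of_add_eq_zero_right e4] at e2
      exact e2
    have e5 := dd_up (Gt t) X.fE (t, false) (X.xc true (univ.erase t) one)
    rw [if_pos (show (t, false) ∈ Gt t from mem_insert_self _ _)] at e5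
    change X.dt t _ + up _ (X.dt t _) = X.y false t • _ at e5
    rw [map_sub, X.st_dt, X.st_lo_zero hm', hd', map_smul, map_smul, eq_sub_of_add_eq e5, e1,
      map_smul, map_smul, X.st_xc false univ, ← add_sum_erase _ _ (mem_univ t), ← X.st_xc, Ctx.vt]
    module

theorem Ctx.step (hp : 2 ≤ p) (t : ι) (m r : ℕ) (hr : 1 ≤ r) (hrm : r ≤ m)
    (hu : IsUnit (m.choose r : R)) (h1 : ((p : ℤ) - 1) * (m + 2) - (k - 1) < r)
    (h2 : r + (m + 1) < ρ) (h : X.BB t m) : X.BB t (m - 1) := by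
  obtain ⟨xh, hm, hd, m0, m1, e⟩ := X.st_start hp t m h
  obtain ⟨Ψ, hs, ho, hΨd, hu1, hu2, hut, hlt, hm0, hmt⟩ := X.exists_psi t true
  obtain ⟨Y0, Y1, n0, n1, -, e1⟩ := X.zig hp t (m + 1) r (by push_cast; linarith) h2 Ψ
    (fun x => by
      rw [X.st_dt, X.st_dt, map_add, hs, hlt, hΨd]
      exact congrArg (fun g => g • _ + _) (X.ψ_other true t))
    (fun x => by
      rw [X.st_xc, X.st_xc, map_sum]
      refine sum_congr rfl fun s _ => ?_
      rw [hs, map_pow, X.ψ_z]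
      exact congrArg _ (hu2 s x))
    hmt _ _ m0 m1 e
  obtain ⟨a, rfl⟩ : ∃ a, r = a + 1 := ⟨r - 1, by omega⟩
  obtain ⟨b, rfl⟩ : ∃ b, m = a + 1 + b := ⟨m - (a + 1), by omega⟩
  have w1 : (![((a + 1 : ℕ) : ℤ) + 1, ((a + 1 + b + 1 : ℕ) : ℤ) - (a + 1 : ℕ), p] : Wt) =
      ((a + 1) • ew 0 + b • ew 1) + (ew 0 + (ew 1 + p • ew 2)) := by
    funext j
    fin_cases j <;> simp [ew]
    ring
  rw [w1] at e1 n1
  generalize hW : ((a + 1) • ew 0 + b • ew 1) + (ew 0 + (ew 1 + p • ew 2)) = W at e1 n1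
  have hA := (X.pr_mem t _ W 2 (hm0 2 _ hm)).mono fun _ => inf_le_left
  have hY0 : up (t, false) Y0 = 0 := by
    funext I
    rw [up_apply]
    split_ifs
    · rw [X.st_noz rfl n0 _ (notMem_erase _ _), mul_zero]
      rfl
    · rfl
  have e2 : up (t, false) (X.pr W (Ψ xh)) =
      X.y false t • up (t, false) (lo (t, false) Y1) - X.d0 t (up (t, false) Y1) := by
    have e3 := congrArg (up (t, false)) e1
    have e4 : W = (W - wE (t, false)) + wE (t, false) := (sub_add_cancel _ _).symm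
    have hxi : up (t, false) (X.xc false univ Y0) = 0 := by
      rw [Ctx.xc, up_xi, hY0, map_zero, neg_zero]
    rw [map_sub, hut, sub_eq_add_neg, X.pr_add, X.pr_neg, map_add, map_neg, map_add, hxi,
      add_zero, X.st_dt, map_add, LinearMap.map_smul] at e3
    nth_rewrite 2 [e4] at e3
    rw [X.pr_up, up_up, neg_zero, add_zero] at e3
    rw [e3, Ctx.d0, up_dd (st_tau t), sub_neg_eq_add]
  have e5 : X.pr W (Ψ xh) =
      X.y false t • lo (t, false) Y1 + X.d0 t (lo (t, false) (up (t, false) Y1)) := by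
    have e6 := lo_up_self (t, false) (X.pr W (Ψ xh))
    have e7 := lo_up_self (t, false) (lo (t, false) Y1)
    rw [lo_lo, map_zero, add_zero] at e7
    rw [X.st_lo_zero hA, map_zero, add_zero, e2, map_sub, map_smul, e7, Ctx.d0, lo_dd,
      sub_neg_eq_add] at e6
    exact e6.symm
  have hv := X.st_vt_mem hp t
  have e8 : X.y false t • X.d0 t (lo (t, false) Y1) = X.y false t •
      (((a + 1 + b).choose (a + 1) : R) * (X.y true t ^ b * X.y false t ^ a)) • X.vt t := by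
    have e9 := congrArg (X.d0 t) e5
    have e10 := X.cp_binom true t (a + 1 + b) (a + 1) hrm
    simp only [Bool.not_true, bl, if_true, Bool.false_eq_true, if_false, Nat.add_sub_cancel_left]
      at e10
    rw [map_add, map_smul, Ctx.d0, dd_dd, add_zero, ← X.pr_dd, ← Ctx.d0, ← hΨd, hd, hs,
      X.st_vt_fix t true Ψ hs ho hu1 hu2, map_pow, X.ψ_self, ← hW, X.st_pr hv, Bool.not_true,
      e10] at e9
    rw [← e9, smul_smul]
    congr 1
    ring
  have e11 := smul_right_injective _ (X.y_ne false t) e8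
  have hb : Mem (X.PU t (G0 t)) 2 (lo (t, false) Y1) :=
    X.st_lo_mem (n1.mono fun _ => inf_le_left)
  obtain ⟨Φ, gs, go, gd, gu1, gu2, -, -, gm0, -⟩ := X.exists_psi t false
  obtain ⟨c, hc⟩ := hu.exists_left_inv
  refine ⟨c • X.pr ((b • ew 1 + a • ew 1) + (ew 0 + (ew 1 + p • ew 2))) (Φ (lo (t, false) Y1)),
    X.st_smul_U c ((X.pr_mem t _ _ 2 (gm0 2 _ hb)).mono fun _ => inf_le_left), ?_⟩
  have e12 := X.cp_binom false t a a le_rfl
  simp only [Bool.not_false, bl, if_true, Nat.sub_self, zero_smul, add_zero, Nat.choose_self,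
    Nat.cast_one, pow_zero, mul_one, one_mul] at e12
  have e13 : X.ψ false (X.y true t) = X.y true t := X.ψ_other false t
  have e14 : X.y true t ^ b ∈ X.H (b • ew 1) := X.toGrd.pow_mem (X.y_mem true t) b
  rw [map_smul, Ctx.d0, ← X.pr_dd, ← Ctx.d0, ← gd, e11, gs, X.st_vt_fix t false Φ gs go gu1 gu2,
    X.st_pr hv, map_mul (X.ψ false), map_mul (X.ψ false), map_pow, map_pow, map_natCast, e13,
    X.ψ_self, Bool.not_false,
    ← nsmul_eq_mul, map_nsmul, X.cp_mul _ _ _ _ e14, e12,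
    nsmul_eq_mul, smul_smul, ← mul_assoc, hc, one_mul, ← pow_add]
  congr 2
  omega

theorem Ctx.stop (hp : 2 ≤ p) (t : ι) (m : ℕ) (h1 : ((p : ℤ) - 1) * (m + 2) - (k - 1) < 0)
    (h2 : m + 1 < ρ) (h : X.BB t m) : False := by
  obtain ⟨xh, -, -, m0, m1, e⟩ := X.st_start hp t m h
  obtain ⟨Y0, Y1, n0, -, e0, -⟩ := X.zig hp t (m + 1) 0 (by push_cast; linarith) (by omega)
    (AddMonoidHom.id _) (fun _ => rfl) (fun _ => rfl) (fun _ _ h => h) _ _ m0 m1 e
  have hY : Y0 = 0 := by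
    funext I
    by_cases hI : (t, false) ∈ I
    swap
    · exact X.st_noz rfl n0 I hI
    refine X.neg _ 0 _ ?_ (n0 I).1.2
    have e1 : (1 : ℤ) ≤ ∑ b ∈ I, wE b 0 := by
      have : wE (t, false) 0 = 1 := by simp [wE, bl, ew]
      rw [← this]
      refine single_le_sum (f := fun b : ι × Bool => wE b 0) (fun b _ => ?_) hI
      simp only [wE, ew, Pi.single_apply]
      split_ifs <;> norm_num
    rw [Pi.sub_apply, Finset.sum_apply]
    simp only [Nat.cast_zero, Matrix.cons_val_zero]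
    linarith
  have e2 := congrFun e0 ∅
  have e3 := X.cp_self _ _ (m0 ∅).1.2
  rw [hY, map_zero, AddMonoidHom.id_apply, Ctx.pr] at e2
  simp only [Nat.cast_zero, sub_zero] at e2
  rw [e3] at e2
  exact X.y_ne true t (pow_eq_zero_iff (Nat.succ_ne_zero m) |>.1 (by simpa [one] using e2))

end Pool.Agent.Lib.MP_deca50_lc.Three
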