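import Pool.Agent.Lib.MP_deca50_lc.Three.Base
import Pool.Agent.Lib.MP_deca50_lc.Three.Step
import Pool.Agent.Lib.MP_deca50_lc.Three.Model
import Pool.Agent.Lib.MP_deca50_lc.Three.Num

/-! No linear MDS code of length `q + 2` in odd characteristic. -/

set_option linter.unusedSectionVars false

namespace Pool.Agent.Lib.MP_deca50_lc.Three

open Pool.Agent.Lib.MP_deca50_lc.Even Pool.Agent.Lib.MP_deca50_lc.Odd

variable {F : Type} [Field F]

theorem core_three [Fintype F] (p : ℕ) [Fact p.Prime] [CharP F p] (e k d : ℕ) (he : 1 ≤ e)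
    (hq : Fintype.card F = p * p ^ e) (hk : k + p ^ e + d = Fintype.card F + 2)
    (hd : d + 2 ≤ p ^ e) (hp : ¬ p ∣ d + 1) : ¬ MDS F (Fintype.card F + 2) k := by
  intro h
  have hp2 : 2 ≤ p := (Fact.out : p.Prime).two_le
  have hQ : p ≤ p ^ e := Nat.le_self_pow (by omega) p
  have h2Q : 2 * p ^ e ≤ p * p ^ e := Nat.mul_le_mul_right _ hp2
  obtain ⟨X⟩ := exists_ctx p e (Fintype.card F + 2) k (p ^ e + d) hq (by omega) (by omega)
    (by omega) h
  have t : Fin (Fintype.card F + 2) := 0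
  have cast1 : ∀ n : ℕ, (((p - 1) * n : ℕ) : ℤ) = ((p : ℤ) - 1) * n := fun n => by
    rw [Nat.cast_mul, Nat.cast_sub (by omega)]; rfl
  refine numbers p e (p ^ e) d (k - 1) (p ^ e + d) rfl rfl (by omega) hd hp
    (fun n => X.BB t (n - 1)) ?_ ?_ ?_
  · refine X.base hp2 ?_ (by omega) (by omega) (by omega) t
    exact (CharP.cast_eq_zero_iff _ p _).2 (dvd_pow_self p (by omega))
  · intro n r h1 h2 h3 h4 h5 h6
    obtain ⟨m, rfl⟩ : ∃ m, n = m + 1 := ⟨n - 1, by omega⟩
    refine X.step hp2 t m r h1 (by omega) ?_ ?_ h4 h6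
    · exact (CharP.isUnit_natCast_iff (p := p) Fact.out).2 h5
    · have := cast1 (m + 1 + 1)
      generalize (p - 1) * (m + 1 + 1) = N at *
      push_cast at this
      have e2 : ((m : ℤ) + 1 + 1) = m + 2 := by ring
      rw [e2] at this
      omega
  · intro n h1 h2 h3 h4
    obtain ⟨m, rfl⟩ : ∃ m, n = m + 1 := ⟨n - 1, by omega⟩
    refine X.stop hp2 t m ?_ h3 h4
    have := cast1 (m + 1 + 1)
    generalize (p - 1) * (m + 1 + 1) = N at *
    push_cast at this
    have e2 : ((m : ℤ) + 1 + 1) = m + 2 := by ring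
    rw [e2] at this
    omega

theorem core_all [Fintype F] (p : ℕ) [Fact p.Prime] [CharP F p] (hp : 3 ≤ p) (k : ℕ)
    (hk : 2 ≤ k) (hk' : 2 * k ≤ Fintype.card F + 2) : ¬ MDS F (Fintype.card F + 2) k := by
  have hq1 : 1 < Fintype.card F := Fintype.one_lt_card
  by_cases h7 : 3 * k ≤ Fintype.card F + 7
  · exact core_odd p hp k hk (by omega) (Or.inr h7)
  by_cases h5 : 5 ≤ p
  · exact core_odd p hp k hk (by omega) (Or.inl ⟨h5, hk'⟩)
  have hpr : p.Prime := Fact.out
  have hp4 : p ≠ 4 := by rintro rfl; exact absurd hpr (by norm_num)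
  obtain rfl : p = 3 := by omega
  obtain ⟨e, -, he⟩ := FiniteField.card F 3
  obtain ⟨e, hepos⟩ := e
  simp only [PNat.mk_coe] at he
  have h3 : 3 ≤ e := by
    by_contra h
    have : e = 1 ∨ e = 2 := by omega
    rcases this with rfl | rfl <;> omega
  obtain ⟨c, rfl⟩ : ∃ c, e = c + 2 := ⟨e - 2, by omega⟩
  have hc : Fintype.card F = 3 * 3 ^ (c + 1) := by rw [he]; ring
  have hu : 3 ^ (c + 1) = 3 * 3 ^ c := by ring
  have hc3 : 3 ≤ 3 ^ c := Nat.le_self_pow (by omega) 3
  intro h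
  by_cases h2 : 3 ∣ (k - 3 * 3 ^ c) + 1
  · exact core_three 3 (c + 1) k (6 * 3 ^ c + 2 - k) (by omega) hc (by omega) (by omega)
      (by omega) h
  · exact core_three 3 (c + 1) (Fintype.card F + 2 - k) (k - 3 * 3 ^ c) (by omega) hc (by omega)
      (by omega) h2 (h.dual (by omega))

/-- The length bound in odd characteristic. -/
theorem upper_all [Fintype F] (p : ℕ) [Fact p.Prime] [CharP F p] (hp : 3 ≤ p) {n k : ℕ}
    (h : MDS F n k) (h2 : 2 ≤ k) (hk : k + 2 ≤ n) : n ≤ Fintype.card F + 1 := by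
  have hq : 1 < Fintype.card F := Fintype.one_lt_card
  by_contra hn
  have key : ∀ k, MDS F n k → 2 ≤ k → k + 2 ≤ n → k ≤ n - k → False := by
    intro k h h2 hk h3
    exact core_all p hp (max 2 (Fintype.card F + 2 - (n - k))) (le_max_left _ _) (by omega)
      (MDS_minor h (by omega) (by omega) (by omega))
  by_cases h3 : k ≤ n - k
  · exact key k h h2 hk h3
  · exact key (n - k) (h.dual (by omega)) (by omega) (by omega) (by omega)

end Pool.Agent.Lib.MP_deca50_lc.Three
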