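import Pool.Agent.Lib.MP_deca50_lc.Three.Kos

/-! Regular sequences. -/

set_option linter.unusedSectionVars false

namespace Pool.Agent.Lib.MP_deca50_lc.Three

open Finset

variable {R : Type} [CommRing R] {γ : Type} [Fintype γ] [DecidableEq γ]

namespace RegAux

variable {G : Grd R} {wt : γ → Wt} {A J : Finset γ} {w : Wt} {i : ℤ} {x : Finset γ → R}

theorem supp (hx : Mem (Std G wt A J w) i x) {I : Finset γ} (h : I \ A ≠ J) : x I = 0 := by
  have := (hx I).1
  simpa [Std, h] using this

theorem coef (hx : Mem (Std G wt A J w) i x) {I : Finset γ} (h : I \ A = J) :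
    x I ∈ G.H (w - ∑ a ∈ I ∩ A, wt a) := by
  have := (hx I).1
  simpa [Std, h] using this

theorem mk' (h1 : ∀ I, I \ A ≠ J → x I = 0)
    (h2 : ∀ I, I \ A = J → x I ∈ G.H (w - ∑ a ∈ I ∩ A, wt a))
    (h3 : ∀ I : Finset γ, (I.card : ℤ) ≠ i → x I = 0) : Mem (Std G wt A J w) i x := by
  intro I
  refine ⟨?_, h3 I⟩
  by_cases h : I \ A = J
  · simpa [Std, h] using h2 I h
  · simp [Std, h, h1 I h]

theorem sum_erase {a : γ} {I : Finset γ} (ha : a ∈ A) (hI : a ∈ I) :
    w - ∑ b ∈ I ∩ A, wt b = w - wt a - ∑ b ∈ I.erase a ∩ A, wt b := by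
  have e : I ∩ A = insert a (I.erase a ∩ A) := by
    ext b
    by_cases hb : b = a <;> simp [hb, ha, hI]
  rw [e, sum_insert (by simp), sub_sub]

theorem mem_up {a : γ} (ha : a ∈ A) (hx : Mem (Std G wt A J (w - wt a)) i x) :
    Mem (Std G wt A J w) (i + 1) (up a x) := by
  have e : ∀ I : Finset γ, I.erase a \ A = I \ A := by
    intro I
    ext b
    by_cases hb : b = a <;> simp [hb, ha]
  refine mk' (fun I h => ?_) (fun I h => ?_) fun I h => ?_
  · rw [up_apply, supp hx (by rwa [e])]
    simp
  · rw [up_apply]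
    split_ifs with hI
    · rw [sum_erase ha hI]
      exact sg_mul_mem _ _ _ (coef hx (by rwa [e]))
    · exact zero_mem _
  · rw [up_apply]
    split_ifs with hI
    · rw [(hx _).2, mul_zero]
      have := card_erase_add_one hI
      omega
    · rfl

theorem mem_smul {g : R} {v : Wt} (hg : g ∈ G.H v) (hx : Mem (Std G wt A J (w - v)) i x) :
    Mem (Std G wt A J w) i (g • x) := by
  refine mk' (fun I h => ?_) (fun I h => ?_) fun I h => ?_
  · simp [supp hx h]
  · have := G.mul_mem _ _ _ _ hg (coef hx h)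
    have e : v + (w - v - ∑ a ∈ I ∩ A, wt a) = w - ∑ a ∈ I ∩ A, wt a := by abel
    rwa [e] at this
  · simp [(hx I).2 h]

theorem sdiff_ins {s : γ} {I : Finset γ} (hI : s ∉ I) : I \ insert s A = I \ A := by
  ext b
  by_cases hb : b = s <;> simp [hb, hI]

theorem inter_ins {s : γ} {I : Finset γ} (hI : s ∉ I) : I ∩ insert s A = I ∩ A := by
  ext b
  by_cases hb : b = s <;> simp [hb, hI]

theorem zero_of_mem {s : γ} (hs : s ∉ A) (hJ : s ∉ J) (hx : Mem (Std G wt A J w) i x)
    {I : Finset γ} (hI : s ∈ I) : x I = 0 :=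
  supp hx fun h => hJ (h ▸ mem_sdiff.2 ⟨hI, hs⟩)

theorem lo_zero {s : γ} (hs : s ∉ A) (hJ : s ∉ J) (hx : Mem (Std G wt A J w) i x) :
    lo s x = 0 := by
  funext I
  rw [lo_apply, zero_of_mem hs hJ hx (mem_insert_self s I)]
  simp

theorem mem_incl {s : γ} (hs : s ∉ A) (hJ : s ∉ J) (hx : Mem (Std G wt A J w) i x) :
    Mem (Std G wt (insert s A) J w) i x := by
  refine mk' (fun I h => ?_) (fun I h => ?_) fun I h => (hx I).2 h
  · by_cases hI : s ∈ I
    · exact zero_of_mem hs hJ hx hI
    · exact supp hx (by rwa [sdiff_ins hI] at h)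
  · by_cases hI : s ∈ I
    · rw [zero_of_mem hs hJ hx hI]
      exact zero_mem _
    · rw [inter_ins hI]
      exact coef hx (by rwa [sdiff_ins hI] at h)

theorem mem_rest {s : γ} (hx : Mem (Std G wt (insert s A) J w) i x) (h0 : lo s x = 0) :
    Mem (Std G wt A J w) i x := by
  have z : ∀ I : Finset γ, s ∈ I → x I = 0 := by
    intro I hI
    have := congrFun (lo_up_self s x) I
    rw [h0, map_zero, add_zero, lo_apply, if_pos hI] at this
    exact this.symm
  refine mk' (fun I h => ?_) (fun I h => ?_) fun I h => (hx I).2 h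
  · by_cases hI : s ∈ I
    · exact z I hI
    · exact supp hx (by rwa [sdiff_ins hI])
  · by_cases hI : s ∈ I
    · rw [z I hI]
      exact zero_mem _
    · rw [← inter_ins hI]
      exact coef hx (by rwa [sdiff_ins hI])

theorem mem_lo {a : γ} (ha : a ∈ A) (hx : Mem (Std G wt A J w) i x) :
    Mem (Std G wt A J (w - wt a)) (i - 1) (lo a x) := by
  have e : ∀ I : Finset γ, insert a I \ A = I \ A := fun I => insert_sdiff_of_mem I ha
  refine mk' (fun I h => ?_) (fun I h => ?_) fun I h => ?_
  · rw [lo_apply, supp hx (by rwa [e])]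
    simp
  · rw [lo_apply]
    split_ifs with hI
    · exact zero_mem _
    · have := coef hx (I := insert a I) (by rwa [e])
      rw [sum_erase ha (mem_insert_self a I), erase_insert hI] at this
      exact sg_mul_mem _ _ _ this
  · rw [lo_apply]
    split_ifs with hI
    · rfl
    · rw [(hx _).2, mul_zero]
      have := card_insert_of_notMem hI
      omega

theorem dd_mem_span (A : Finset γ) (f : γ → R) (x : Finset γ → R) (I : Finset γ) :
    dd A f x I ∈ Ideal.span (f '' A) := by
  rw [dd_apply, Finset.sum_apply]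
  exact Ideal.sum_mem _ fun a ha =>
    Ideal.mul_mem_right _ _ (Ideal.subset_span ⟨a, ha, rfl⟩)

theorem bottom {f : γ → R} (hf : ∀ a ∈ A, f a ∈ G.H (wt a))
    (hx : Mem (Std G wt A J w) J.card x) (hJ : J \ A = J → x J ∈ Ideal.span (f '' A)) :
    ∃ y, Mem (Std G wt A J w) (J.card + 1) y ∧ dd A f y = x := by
  have z : ∀ I : Finset γ, I ≠ J → x I = 0 := by
    intro I hI
    by_cases h : I \ A = J
    · refine (hx I).2 fun hc => hI ?_
      have h1 : J ⊆ I := h ▸ sdiff_subset
      exact (eq_of_subset_of_card_le h1 (by omega)).symm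
    · exact supp hx h
  by_cases hd : J \ A = J
  swap
  · refine ⟨0, Mem.zero _ _, ?_⟩
    rw [map_zero]
    funext I
    by_cases hI : I = J
    · rw [hI, supp hx hd]; rfl
    · rw [z I hI]; rfl
  have hdis : ∀ a ∈ A, a ∉ J := fun a ha h => (mem_sdiff.1 (hd.symm ▸ h)).2 ha
  have hint : J ∩ A = ∅ := by
    ext b
    simp only [mem_inter, notMem_empty, iff_false, not_and]
    exact fun h1 h2 => hdis b h2 h1
  have hw : x J ∈ G.H w := by simpa [hint] using coef hx hd
  obtain ⟨c, hc⟩ := (Submodule.mem_span_image_finset_iff_exists_fun' R).1 (hJ hd)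
  have hc' : ∑ a ∈ A, f a * G.cp (w - wt a) (c a) = x J := by
    rw [← G.cp_self _ _ hw, ← hc, map_sum]
    refine sum_congr rfl fun a ha => ?_
    rw [← G.cp_mul _ _ _ _ (hf a ha), smul_eq_mul, mul_comm (c a), add_sub_cancel]
  let e : γ → Finset γ → R := fun a I => if I = J then G.cp (w - wt a) (c a) else 0
  have he : ∀ a, Mem (Std G wt A J (w - wt a)) J.card (e a) := by
    intro a
    refine mk' (fun I h => if_neg fun h1 : I = J => h (by rw [h1, hd])) (fun I _ => ?_)
      fun I h => if_neg fun h1 : I = J => h (by rw [h1])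
    by_cases hI : I = J
    · simpa [e, hI, hint] using G.cp_mem _ _
    · simp [e, hI]
  have hde : ∀ a, dd A f (e a) = 0 := by
    intro a
    rw [dd_apply]
    refine sum_eq_zero fun b hb => ?_
    have : lo b (e a) = 0 := by
      funext I
      have h1 : insert b I ≠ J := fun h => hdis b hb (h ▸ mem_insert_self b I)
      simp [lo_apply, e, h1]
    rw [this, smul_zero]
  refine ⟨∑ a ∈ A, up a (e a), Mem.sum _ _ fun a ha => mem_up ha (he a), ?_⟩
  rw [map_sum]
  have : ∀ a ∈ A, dd A f (up a (e a)) = f a • e a := by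
    intro a ha
    have := dd_up A f a (e a)
    rwa [hde, map_zero, add_zero, if_pos ha] at this
  rw [sum_congr rfl this]
  funext I
  rw [Finset.sum_apply]
  by_cases hI : I = J
  · simpa [e, hI] using hc'
  · simp [e, hI, z I hI]

theorem reg_mono {f : γ → R} {A' : Finset γ} (h : Reg A f) (hA : A' ⊆ A) : Reg A' f :=
  fun s hs B hB => h s (hA hs) B (hB.trans (erase_subset_erase s hA))

theorem reg_sign {g σ : γ → R} (h : Reg A g) (hσ : ∀ a ∈ A, σ a = 1 ∨ σ a = -1) :
    Reg A fun a => σ a * g a := by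
  intro s hs B hB u hu
  have e : Ideal.span ((fun a => σ a * g a) '' B) = Ideal.span (g '' B) := by
    apply le_antisymm
    · rw [Ideal.span_le]
      rintro _ ⟨a, ha, rfl⟩
      exact Ideal.mul_mem_left _ _ (Ideal.subset_span ⟨a, ha, rfl⟩)
    · rw [Ideal.span_le]
      rintro _ ⟨a, ha, rfl⟩
      have h1 : σ a * g a ∈ Ideal.span ((fun a => σ a * g a) '' B) :=
        Ideal.subset_span ⟨a, ha, rfl⟩
      rcases hσ a (mem_of_mem_erase (hB ha)) with h2 | h2
      · simpa [h2] using h1
      · simpa [h2] using h1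
  rw [e] at hu ⊢
  refine h s hs B hB u ?_
  rcases hσ s hs with h2 | h2
  · simpa [h2] using hu
  · simpa [h2] using hu

end RegAux

open RegAux

/-- The bottom degree. -/
theorem ke_zero (G : Grd R) (f : γ → R) (wt : γ → Wt) (A J : Finset γ) (w : Wt)
    (hf : ∀ a ∈ A, f a ∈ G.H (wt a)) (h : ∀ g ∈ G.H w, g ∈ Ideal.span (f '' A)) :
    KE G f wt A J w J.card := by
  intro x hx _
  refine bottom hf hx fun hd => h _ ?_
  have hint : J ∩ A = ∅ := by
    ext b
    simp only [mem_inter, notMem_empty, iff_false, not_and]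
    exact fun h1 h2 => (mem_sdiff.1 (hd.symm ▸ h1)).2 h2
  simpa [hint] using coef hx hd

theorem ke_low (G : Grd R) (f : γ → R) (wt : γ → Wt) (A J : Finset γ) (w : Wt) (i : ℤ)
    (hi : i < J.card) : KE G f wt A J w i := by
  intro x hx _
  refine ⟨0, Mem.zero _ _, ?_⟩
  rw [map_zero]
  funext I
  by_cases h : I \ A = J
  · have h1 : J ⊆ I := h ▸ sdiff_subset
    have := card_le_card h1
    exact ((hx I).2 (by omega)).symm
  · exact (supp hx h).symm

/-- Exactness in positive degree. -/
theorem ke_reg (G : Grd R) (f : γ → R) (wt : γ → Wt) (A J : Finset γ) (w : Wt) (i : ℤ)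
    (hf : ∀ a ∈ A, f a ∈ G.H (wt a)) (h : Reg A f) (hi : (J.card : ℤ) < i) :
    KE G f wt A J w i := by
  induction A using Finset.induction_on generalizing w i with
  | empty =>
    intro x hx _
    refine ⟨0, Mem.zero _ _, ?_⟩
    rw [map_zero]
    funext I
    by_cases h : I \ ∅ = J
    · rw [sdiff_empty] at h
      exact ((hx I).2 (by rw [h]; omega)).symm
    · exact (supp hx h).symm
  | insert s A hs ih =>
    intro x hx hd
    by_cases hJ : s ∈ J
    · refine ⟨0, Mem.zero _ _, ?_⟩
      rw [map_zero]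
      funext I
      exact (supp hx fun h => (mem_sdiff.1 (h.symm ▸ hJ)).2 (mem_insert_self s A)).symm
    have hsA := mem_insert_self s A
    have hf' : ∀ a ∈ A, f a ∈ G.H (wt a) := fun a ha => hf a (mem_insert_of_mem ha)
    have hr : Reg A f := reg_mono h (subset_insert s A)
    have hb0 := mem_lo hsA hx
    have hb := mem_rest hb0 (lo_lo s x)
    have hub : Mem (Std G wt (insert s A) J w) i (up s (lo s x)) := by
      simpa using mem_up hsA hb0
    have hla : lo s (x - up s (lo s x)) = 0 := by
      have := lo_up_self s (lo s x)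
      rw [lo_lo, map_zero, add_zero] at this
      rw [map_sub, this, sub_self]
    have ha := mem_rest (hx.sub hub) hla
    have hdb : dd A f (lo s x) = 0 := by
      have := congrArg (lo s) hd
      rw [dd_insert hs, map_add, map_smul, lo_lo, smul_zero, zero_add, lo_dd, map_zero] at this
      exact neg_eq_zero.1 this
    have hda : dd A f (x - up s (lo s x)) = -(f s • lo s x) := by
      rw [map_sub, up_dd hs, hdb, map_zero, neg_zero, sub_zero]
      rw [dd_insert hs] at hd
      exact eq_neg_of_add_eq_zero_right hd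
    have hc : ∃ c, Mem (Std G wt A J (w - wt s)) i c ∧ dd A f c = lo s x := by
      by_cases hi' : (J.card : ℤ) < i - 1
      · simpa using ih (w - wt s) (i - 1) hf' hr hi' _ hb hdb
      · have e : i = J.card + 1 := by omega
        subst e
        refine bottom hf' (by simpa using hb) fun _ => h s hsA A (by rw [erase_insert hs]) _ ?_
        have h1 := dd_mem_span A f (x - up s (lo s x)) J
        rw [hda] at h1
        simpa using h1
    obtain ⟨c, hc, hdc⟩ := hc
    obtain ⟨e, he, hde⟩ := ih w i hf' hr hi _ (ha.add (mem_smul (hf s hsA) hc)) (by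
      rw [map_add, map_smul, hda, hdc, neg_add_cancel])
    refine ⟨e - up s c, (mem_incl hs hJ he).sub (mem_up hsA (mem_incl hs hJ hc)), ?_⟩
    have h1 : lo s (up s c) = c := by
      have := lo_up_self s c
      rwa [lo_zero hs hJ hc, map_zero, add_zero] at this
    rw [dd_insert hs, map_sub, map_sub, lo_zero hs hJ he, h1, hde, up_dd hs, hdc, zero_sub,
      smul_neg]
    abel

/-- Signed powers of a regular sequence. -/
theorem ke_pow (G : Grd R) (g : γ → R) (v : γ → Wt) (σ : γ → R) (c : γ → ℕ) (A J : Finset γ)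
    (w : Wt) (i : ℤ) (hg : ∀ a ∈ A, g a ∈ G.H (v a)) (h : Reg A g)
    (hσ : ∀ a ∈ A, σ a = 1 ∨ σ a = -1) (hc : ∀ a ∈ A, 1 ≤ c a) (hi : (J.card : ℤ) < i) :
    KE G (fun a => σ a * g a ^ c a) (fun a => c a • v a) A J w i := by
  have hsg : ∀ {u e : R} {t : Wt}, e = 1 ∨ e = -1 → u ∈ G.H t → e * u ∈ G.H t := by
    rintro u e t (rfl | rfl) hu
    · simpa using hu
    · simpa using hu
  induction hn : ∑ a ∈ A, c a using Nat.strong_induction_on generalizing σ c w with
  | _ n ih =>
    by_cases h1 : ∀ a ∈ A, c a = 1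
    · refine ke_congr G (f := fun a => σ a * g a) (wt := v) (fun a ha => by simp [h1 a ha])
        (fun a ha => by simp [h1 a ha])
        (ke_reg G _ _ A J w i (fun a ha => hsg (hσ a ha) (hg a ha)) (reg_sign h hσ) hi)
    obtain ⟨s, hs, hcs⟩ : ∃ s ∈ A, c s ≠ 1 := by simpa using h1
    have hc1 := hc s hs
    obtain ⟨m, hm⟩ : ∃ m, c s = m + 1 := ⟨c s - 1, by omega⟩
    have hlt : ∀ j, j < c s → ∑ a ∈ A, Function.update c s j a < n := by
      intro j hj
      rw [← hn]
      refine sum_lt_sum (fun a _ => ?_) ⟨s, hs, by simpa using hj⟩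
      by_cases e : a = s
      · subst e; simpa using hj.le
      · simp [e]
    have hup : ∀ j, 1 ≤ j → ∀ a ∈ A, 1 ≤ Function.update c s j a := by
      intro j hj a ha
      by_cases e : a = s
      · subst e; simpa using hj
      · simpa [e] using hc a ha
    refine ke_mul G _ _ A J w i s hs (σ s * g s ^ m) (g s) (m • v s) (v s)
      (hsg (hσ s hs) (G.pow_mem (hg s hs) m)) (hg s hs) (by rw [hm, pow_succ, mul_assoc])
      (by rw [hm, succ_nsmul]) ?_ ?_
    · refine ke_congr G (fun a _ => ?_) (fun a _ => ?_)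
        (ih _ (hlt m (by omega)) σ (Function.update c s m) w hσ (hup m (by omega)) rfl)
      · by_cases e : a = s
        · subst e; simp
        · simp [e]
      · by_cases e : a = s
        · subst e; simp
        · simp [e]
    · refine ke_congr G (fun a _ => ?_) (fun a _ => ?_)
        (ih _ (hlt 1 (by omega)) (Function.update σ s 1) (Function.update c s 1) (w - m • v s)
          (fun a ha => ?_) (hup 1 le_rfl) rfl)
      · by_cases e : a = s
        · subst e; simp
        · simp [e]
      · by_cases e : a = s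
        · subst e; simp
        · simp [e]
      · by_cases e : a = s
        · subst e; simp
        · simpa [e] using hσ a ha

/-- Transport of regularity from sites to the generators of one copy. -/
theorem Reg.copy {ι : Type} [Fintype ι] [DecidableEq ι] {S : Finset ι} {g : ι → R} (h : Reg S g)
    (c : Bool) : Reg (S ×ˢ {c}) fun a : ι × Bool => g a.1 := by
  intro s hs B hB u hu
  have e : (fun a : ι × Bool => g a.1) '' (B : Set (ι × Bool)) =
      g '' (B.image Prod.fst : Finset ι) := by
    rw [coe_image, Set.image_image]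
  rw [e] at hu ⊢
  obtain ⟨hs1, hs2⟩ := mem_product.1 hs
  refine h s.1 hs1 _ (fun b hb => ?_) u hu
  obtain ⟨a, ha, rfl⟩ := mem_image.1 hb
  obtain ⟨h1, h2⟩ := mem_erase.1 (hB ha)
  obtain ⟨h3, h4⟩ := mem_product.1 h2
  refine mem_erase.2 ⟨fun h5 => h1 (Prod.ext h5 ?_), h3⟩
  rw [mem_singleton.1 h4, mem_singleton.1 hs2]

end Pool.Agent.Lib.MP_deca50_lc.Three
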