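import Pool.Agent.Lib.MP_deca50_lc.Three.Reg

/-! Exactness of the multiplication by the first-copy cycle. -/

set_option linter.unusedSectionVars false

namespace Pool.Agent.Lib.MP_deca50_lc.Three

open Finset

section Aux

variable {R : Type} [CommRing R] {γ : Type} [Fintype γ] [DecidableEq γ]

theorem tt_sg_compl (a : γ) (I : Finset γ) : sg R a I * sg R a Iᶜ = sg R a univ := by
  unfold sg
  rw [← pow_add, ← card_union_of_disjoint (disjoint_filter_filter disjoint_compl_right),
    ← filter_union, union_compl]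

theorem tt_lo_compl (a : γ) (x : Finset γ → R) :
    lo a (fun I => x Iᶜ) = fun I => sg R a univ * up a x Iᶜ := by
  funext I
  rw [lo_apply, up_apply]
  by_cases h : a ∈ I
  · simp [h]
  · rw [if_neg h, if_pos (mem_compl.2 h), compl_insert, ← tt_sg_compl a I, mul_assoc,
      ← mul_assoc (sg R a Iᶜ), sg_mul_self, one_mul]

theorem tt_dd_compl (A : Finset γ) (f : γ → R) (x : Finset γ → R) :
    dd A (fun a => sg R a univ * f a) (fun I => x Iᶜ) = fun I => xi A f x Iᶜ := by
  funext I
  rw [dd_apply, xi_apply, Finset.sum_apply, Finset.sum_apply]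
  refine sum_congr rfl fun a _ => ?_
  simp only [tt_lo_compl, Pi.smul_apply, smul_eq_mul]
  linear_combination (f a * up a x Iᶜ) * sg_mul_self (R := R) a univ

/-- Complementation turns exactness of the contraction into exactness of the multiplication. -/
theorem tt_coexa (A : Finset γ) (f : γ → R) (U : Finset γ → AddSubgroup R) (i : ℤ)
    (h : Exa A (fun a => sg R a univ * f a) (fun I => U Iᶜ) (Fintype.card γ - i))
    (x : Finset γ → R) (hx : Mem U i x) (h0 : xi A f x = 0) :
    ∃ y, Mem U (i - 1) y ∧ xi A f y = x := by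
  obtain ⟨y, hy, e⟩ := h (fun I => x Iᶜ) (fun I => ⟨(hx Iᶜ).1, fun hI => (hx Iᶜ).2 fun h1 => hI (by
    have := card_add_card_compl I
    omega)⟩) (by rw [tt_dd_compl, h0]; rfl)
  refine ⟨fun I => y Iᶜ, fun I => ⟨?_, fun hI => (hy Iᶜ).2 fun h1 => hI ?_⟩, ?_⟩
  · simpa using (hy Iᶜ).1
  · have := card_add_card_compl I
    omega
  · have h1 := tt_dd_compl A f (fun I => y Iᶜ)
    simp only [compl_compl] at h1
    funext I
    have h2 := congrFun (h1.symm.trans e) Iᶜ
    simpa using h2

/-- The generators outside `A` are not touched. -/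
theorem tt_slice (A : Finset γ) (f : γ → R) (V : Finset γ → AddSubgroup R) (j : ℤ)
    (h : ∀ J ⊆ Aᶜ, Exa A f (slice Aᶜ J V) j) : Exa A f V j := by
  have e1 : dd A (fun a => if a ∈ A then f a else 0) = dd A f :=
    sum_congr rfl fun a ha => by simp only [if_pos ha]
  have e2 : dd (A ∪ Aᶜ) (fun a => if a ∈ A then f a else 0) = dd A f := by
    rw [← e1, dd, sum_union disjoint_compl_right, dd, add_eq_left]
    exact sum_eq_zero fun a ha => by rw [if_neg (mem_compl.1 ha), zero_smul]
  have h1 := exa_filter A Aᶜ disjoint_compl_right (fun a => if a ∈ A then f a else 0) V j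
    (fun b hb I _ g _ => by rw [if_neg (mem_compl.1 hb), zero_mul]; exact (V I).zero_mem)
    (fun J hJ => by
      have := h J hJ
      unfold Exa at this ⊢
      rwa [e1])
  unfold Exa at h1 ⊢
  rwa [e2] at h1

theorem tt_exa_zero (A : Finset γ) (f : γ → R) (V : Finset γ → AddSubgroup R) (j : ℤ)
    (h : ∀ I, ∀ g ∈ V I, g = 0) : Exa A f V j := by
  intro x hx _
  have : x = 0 := funext fun I => h I _ (hx I).1
  exact ⟨0, Mem.zero _ _, by rw [this, map_zero]⟩

end Aux

variable {R : Type} [CommRing R] [IsDomain R] {ι : Type} [Fintype ι] [DecidableEq ι]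
  {p Q k ρ : ℕ} (X : Ctx R ι p Q k ρ)

theorem tt_site_same {t s : ι} {I : Finset (ι × Bool)} (h : s = t ∨ (s, true) ∈ I) :
    ((I.erase (s, false)).image Prod.fst).erase t = (I.image Prod.fst).erase t := by
  ext u
  simp only [mem_erase, mem_image, Prod.exists, exists_and_right, exists_eq_right, ne_eq,
    Prod.mk.injEq, Bool.exists_bool]
  by_cases hu : u = s
  · subst hu
    rcases h with h | h <;> simp [h]
  · simp [hu]

theorem tt_site_new {t s : ι} {I : Finset (ι × Bool)} (h : ¬ (s = t ∨ (s, true) ∈ I))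
    (hs : (s, false) ∈ I) :
    (I.image Prod.fst).erase t = insert s (((I.erase (s, false)).image Prod.fst).erase t) ∧
      s ∉ ((I.erase (s, false)).image Prod.fst).erase t := by
  rw [not_or] at h
  refine ⟨?_, by simp [h.2]⟩
  ext u
  simp only [mem_erase, mem_image, Prod.exists, exists_and_right, exists_eq_right, ne_eq,
    Prod.mk.injEq, Bool.exists_bool, mem_insert]
  by_cases hu : u = s
  · subst hu
    simp [h.1, hs]
  · simp [hu]

/-- The exponent of `z` at a first-copy generator in the slice `J` of the complements. -/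
def ttC (p : ℕ) (t : ι) (J : Finset (ι × Bool)) (a : ι × Bool) : ℕ :=
  if a.1 = t ∨ (a.1, true) ∉ J then p else p - 1

/-- The weight of the coefficient of `I`. -/
def ttW (p : ℕ) (w : Wt) (i : ℤ) (I : Finset (ι × Bool)) : Wt :=
  w - ∑ a ∈ I, wE a - (i - I.card) • (ew 0 + p • ew 2)

/-- The total weight after rescaling. -/
def ttPhi (p : ℕ) (t : ι) (w : Wt) (i : ℤ) (J I : Finset (ι × Bool)) : Wt :=
  ttW p w i Iᶜ - ∑ _s ∈ (Iᶜ.image Prod.fst).erase t, ew 2
    + ∑ a ∈ I ∩ univ ×ˢ {false}, ttC p t J a • ew 2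

theorem tt_mem_iff {J I : Finset (ι × Bool)} (h : I \ univ ×ˢ {false} = J) (s : ι) :
    (s, true) ∉ J ↔ (s, true) ∈ Iᶜ := by
  simp [← h]

theorem tt_phi_insert (hp : 2 ≤ p) (t : ι) (w : Wt) (i : ℤ) {J I : Finset (ι × Bool)}
    (h : I \ univ ×ˢ {false} = J) {s : ι} (hs : (s, false) ∉ I) :
    ttPhi p t w i J (insert (s, false) I) = ttPhi p t w i J I := by
  have hs' : (s, false) ∈ Iᶜ := mem_compl.2 hs
  have h1 : (Iᶜ.card : ℤ) = (Iᶜ.erase (s, false)).card + 1 := by
    exact_mod_cast (card_erase_add_one hs').symm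
  have h2 : wE (s, false) = ew 0 := rfl
  unfold ttPhi ttW
  rw [compl_insert, insert_inter_of_mem (by simp), sum_insert (by simp [hs]),
    ← add_sum_erase _ wE hs', h1, h2, ttC]
  simp only [tt_mem_iff h]
  split_ifs with hc
  · rw [tt_site_same hc]
    module
  · obtain ⟨e1, e2⟩ := tt_site_new hc hs'
    obtain ⟨q, rfl⟩ : ∃ q, p = q + 1 := ⟨p - 1, by omega⟩
    rw [e1, sum_insert e2, Nat.add_sub_cancel]
    module

theorem tt_phi (hp : 2 ≤ p) (t : ι) (w : Wt) (i : ℤ) {J : Finset (ι × Bool)}
    (hJ : J ⊆ (univ ×ˢ {false})ᶜ) (K : Finset (ι × Bool)) (hK : K ⊆ univ ×ˢ {false}) :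
    ttPhi p t w i J (K ∪ J) = ttPhi p t w i J J := by
  induction K using Finset.induction_on with
  | empty => rw [empty_union]
  | insert a K ha ih =>
    obtain ⟨s, b⟩ := a
    have hA := hK (mem_insert_self _ _)
    obtain rfl : b = false := by simpa using hA
    have hK' := (subset_insert _ _).trans hK
    rw [insert_union, tt_phi_insert hp t w i, ih hK']
    · rw [union_sdiff_distrib, sdiff_eq_empty_iff_subset.2 hK', empty_union,
        sdiff_eq_self_of_disjoint (disjoint_compl_left.mono_left hJ)]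
    · rw [mem_union, not_or]
      exact ⟨ha, fun h => mem_compl.1 (hJ h) hA⟩

theorem tt_phi_zero (hp : 2 ≤ p) (t : ι) (w : Wt) (i : ℤ) {J : Finset (ι × Bool)}
    (hJ : J ⊆ (univ ×ˢ {false})ᶜ) :
    ttPhi p t w i J J 0 = w 0 - i + Fintype.card (ι × Bool) - Fintype.card ι - J.card := by
  rw [← tt_phi hp t w i hJ _ subset_rfl]
  have h1 : ∑ a ∈ ((univ : Finset ι) ×ˢ {false} ∪ J)ᶜ, wE a 0 = 0 := by
    refine sum_eq_zero fun a ha => ?_
    obtain ⟨s, b⟩ := a
    cases b
    · simp at ha
    · rfl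
  have h2 := card_add_card_compl ((univ : Finset ι) ×ˢ {false} ∪ J)
  rw [card_union_of_disjoint (disjoint_compl_right.mono_right hJ), card_product, card_singleton,
    card_univ, mul_one] at h2
  have h3 : ew 2 0 = 0 := rfl
  have h4 : ew 0 0 = 1 := rfl
  simp only [ttPhi, ttW, Pi.add_apply, Pi.sub_apply, Finset.sum_apply, Pi.smul_apply, h1, h3, h4,
    smul_zero, sum_const_zero, smul_eq_mul]
  omega

/-- The rescaled slices are exact. -/
theorem Ctx.tt_ke (hp : 2 ≤ p) (t : ι) (J : Finset (ι × Bool)) (hJ : J ⊆ (univ ×ˢ {false})ᶜ)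
    (v : Wt) (j : ℤ) (hj : (J.card : ℤ) + k < j) :
    KE X.toGrd (fun a => sg R a univ * X.z a.1 ^ ttC p t J a) (fun a => ttC p t J a • ew 2)
      (univ ×ˢ {false}) J v j := by
  obtain ⟨Z, -, hZ⟩ := exists_subset_card_eq (s := (univ : Finset ι)) (n := ρ)
    (by rw [card_univ, X.card]; omega)
  have hc := card_add_card_compl Z
  rw [X.card] at hc
  have hR : Reg Z X.z := by
    simpa using X.reg false ∅ Z (disjoint_empty_left Z) (by simp) hZ.le
  have hA : (univ : Finset ι) ×ˢ {false} = Z ×ˢ {false} ∪ Zᶜ ×ˢ {false} := by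
    rw [← union_product, union_compl]
  rw [hA]
  refine ke_filter _ _ _ _ _ _ _ _ ?_ ?_ (fun b _ => ?_) fun J' hJ' => ?_
  · exact disjoint_product.2 (Or.inl disjoint_compl_right)
  · rw [← hA]
    exact disjoint_compl_left.mono_left hJ
  · exact sg_mul_mem _ _ _ (X.toGrd.pow_mem (X.z_mem _) _)
  · refine ke_pow X.toGrd (fun a : ι × Bool => X.z a.1) (fun _ => ew 2) (fun a => sg R a univ)
      (ttC p t J) _ _ _ _ (fun a _ => X.z_mem _) (hR.copy false) (fun a _ => sg_eq _ _)
      (fun a _ => ?_) ?_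
    · unfold ttC
      split_ifs <;> omega
    · have h1 := card_union_le J J'
      have h2 := card_le_card hJ'
      rw [card_product, card_singleton] at h2
      omega

/-- Lemma T. -/
theorem Ctx.tt (hp : 2 ≤ p) (t : ι) (w : Wt) (i : ℤ) (hw : w 0 < ρ) (x : Finset (ι × Bool) → R)
    (hx : Mem (X.PW t (Gt t) w) i x) (h0 : X.xc false univ x = 0) :
    ∃ y, Mem (X.PW t (Gt t) (w - (ew 0 + p • ew 2))) (i - 1) y ∧ X.xc false univ y = x := by
  have key : Exa (univ ×ˢ {false}) (fun a => sg R a univ * X.z a.1 ^ p)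
      (fun I => X.PU t (Gt t) Iᶜ ⊓ X.H (ttW p w i Iᶜ)) (Fintype.card (ι × Bool) - i) := by
    refine tt_slice _ _ _ _ fun J hJ => ?_
    have hs : ∀ I : Finset (ι × Bool), I ∩ (univ ×ˢ {false})ᶜ = I \ univ ×ˢ {false} :=
      fun I => (sdiff_eq_inter_compl _ _).symm
    by_cases ht : (t, true) ∈ J
    swap
    · refine tt_exa_zero _ _ _ _ fun I g hg => ?_
      unfold slice at hg
      split_ifs at hg with h1
      · have h2 : ¬ Iᶜ ⊆ Gt t := fun h2 => by
          simpa [Gt, G0] using h2 ((tt_mem_iff ((hs I).symm.trans h1) t).1 ht)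
        have h3 := hg.1
        rw [Ctx.PU, if_neg h2] at h3
        exact h3
      · exact hg
    refine exa_rescale _ _ (fun a => sg R a univ * X.z a.1 ^ ttC p t J a) _
      (Std X.toGrd (fun a => ttC p t J a • ew 2) (univ ×ˢ {false}) J (ttPhi p t w i J J))
      (fun I => X.uz t Iᶜ) _ (fun I => prod_ne_zero_iff.2 fun s _ => X.z_ne s) (fun I g => ?_)
      (fun a ha I haI hU => ?_) ?_
    · unfold slice Std
      rw [hs I]
      split_ifs with h1
      · have h2 : Iᶜ ⊆ Gt t := by
          rintro ⟨s, b⟩ hb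
          have h3 : (t, true) ∉ Iᶜ := fun h3 => (tt_mem_iff h1 t).2 h3 ht
          by_cases h4 : s = t
          · subst h4
            cases b
            · exact mem_insert_self _ _
            · exact absurd hb h3
          · simp [Gt, G0, h4]
        have h3 := tt_phi hp t w i hJ (I ∩ univ ×ˢ {false}) inter_subset_right
        rw [← h1, union_comm, sdiff_union_inter, h1] at h3
        rw [← h3, ttPhi, add_sub_cancel_right, Ctx.uz,
          ← X.toGrd.dvd_iff (X.toGrd.prod_mem _ X.z (fun _ => ew 2) fun s _ => X.z_mem s),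
          AddSubgroup.mem_inf, Ctx.PU, if_pos h2, Submodule.mem_toAddSubgroup,
          Ideal.mem_span_singleton, and_comm]
        rfl
      · simp
    · obtain ⟨s, b⟩ := a
      obtain rfl : b = false := by simpa using ha
      have h1 : I \ univ ×ˢ {false} = J := by
        by_contra h1
        exact hU (by rw [Std, if_neg (by rwa [insert_sdiff_of_mem _ ha])])
      simp only [Ctx.uz, compl_insert, ttC, tt_mem_iff h1]
      split_ifs with hc
      · rw [tt_site_same hc]
      · obtain ⟨e1, e2⟩ := tt_site_new hc (mem_compl.2 haI)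
        obtain ⟨q, rfl⟩ : ∃ q, p = q + 1 := ⟨p - 1, by omega⟩
        rw [e1, prod_insert e2, Nat.add_sub_cancel]
        ring
    · have h1 := tt_phi_zero hp t w i hJ
      by_cases h2 : ttPhi p t w i J J 0 < 0
      · refine tt_exa_zero _ _ _ _ fun I g hg => ?_
        unfold Std at hg
        split_ifs at hg
        · refine X.neg _ 0 g ?_ hg
          have h3 : ew 2 0 = 0 := rfl
          simpa [Finset.sum_apply, h3] using h2
        · exact hg
      · have h3 := X.card
        exact X.tt_ke hp t J hJ _ _ (by omega)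
  have hx' : Mem (fun I => X.PU t (Gt t) I ⊓ X.H (ttW p w i I)) i x := fun I => by
    refine ⟨?_, (hx I).2⟩
    by_cases h : (I.card : ℤ) = i
    · simp only [ttW, h, sub_self, zero_smul, sub_zero]
      exact (hx I).1
    · rw [(hx I).2 h]
      exact AddSubgroup.zero_mem _
  obtain ⟨y, hy, e⟩ := tt_coexa _ (fun a : ι × Bool => X.z a.1 ^ p) _ i key x hx' h0
  refine ⟨y, fun I => ⟨?_, (hy I).2⟩, e⟩
  by_cases h : (I.card : ℤ) = i - 1
  · have h1 := (hy I).1
    simp only [ttW, h, sub_sub_cancel, one_smul] at h1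
    rw [sub_right_comm] at h1
    exact h1
  · rw [(hy I).2 h]
    exact AddSubgroup.zero_mem _

end Pool.Agent.Lib.MP_deca50_lc.Three
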