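import Pool.Agent.Lib.MP_deca50_lc.Three.KV

/-! Exactness of the differential on the two-copy complex. -/

set_option linter.unusedSectionVars false

namespace Pool.Agent.Lib.MP_deca50_lc.Three

open Finset

variable {R : Type} [CommRing R] [IsDomain R] {ι : Type} [Fintype ι] [DecidableEq ι]
  {p Q k ρ : ℕ} (X : Ctx R ι p Q k ρ)

/-- The sites other than `t` touched by `I`. -/
def twS (t : ι) (I : Finset (ι × Bool)) : Finset ι := (I.image Prod.fst).erase t

theorem twS_mono (t : ι) {I I' : Finset (ι × Bool)} (h : I ⊆ I') : twS t I ⊆ twS t I' :=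
  erase_subset_erase t (image_subset_image h)

theorem twS_card (t : ι) (I : Finset (ι × Bool)) : (twS t I).card ≤ I.card :=
  card_erase_le.trans card_image_le

/-- Adding a generator of the leading copy. -/
theorem twS_insert (t : ι) (S Y : Finset ι) (c : Bool) (J I : Finset (ι × Bool))
    (hY : ∀ s ∈ S, s ∈ Y ↔ s ∈ twS t J ∨ s = t) (hI : I \ S ×ˢ {c} = J) (a : ι × Bool)
    (ha : a ∈ S ×ˢ ({c} : Finset Bool)) (haI : a ∉ I) :
    (a.1 ∈ Y → twS t (insert a I) = twS t I) ∧
      (a.1 ∉ Y → a.1 ∉ twS t I ∧ twS t (insert a I) = insert a.1 (twS t I)) := by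
  have ha' := mem_product.1 ha
  have hJI : J ⊆ I := hI ▸ sdiff_subset
  unfold twS at hY ⊢
  rw [image_insert]
  refine ⟨fun h => ?_, fun h => ?_⟩
  · rcases (hY _ ha'.1).1 h with h | h
    · rw [insert_eq_of_mem (image_subset_image hJI (mem_of_mem_erase h))]
    · rw [h, erase_insert_eq_erase]
  · have h' := not_or.1 fun e => h ((hY _ ha'.1).2 e)
    refine ⟨fun e => h'.1 ?_, erase_insert_of_ne h'.2⟩
    obtain ⟨b, hb, e1⟩ := mem_image.1 (mem_of_mem_erase e)
    refine mem_erase.2 ⟨h'.2, mem_image.2 ⟨b, ?_, e1⟩⟩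
    rw [← hI]
    refine mem_sdiff.2 ⟨hb, fun hbA => haI ?_⟩
    have : b = a := Prod.ext e1
      ((mem_singleton.1 (mem_product.1 hbA).2).trans (mem_singleton.1 ha'.2).symm)
    exact this ▸ hb

theorem twS_weight (t : ι) (S Y : Finset ι) (c : Bool) (J : Finset (ι × Bool))
    (hY : ∀ s ∈ S, s ∈ Y ↔ s ∈ twS t J ∨ s = t) (hJ : Disjoint J (S ×ˢ {c}))
    (K : Finset (ι × Bool)) (hK : K ⊆ S ×ˢ {c}) :
    ∑ _s ∈ twS t (K ∪ J), ew 2 + ∑ a ∈ K, wE a = ∑ _s ∈ twS t J, ew 2 + ∑ a ∈ K, wY Y a := by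
  induction K using Finset.induction_on with
  | empty => simp
  | insert a K haK ih =>
    have ha := hK (mem_insert_self a K)
    have hK' : K ⊆ S ×ˢ {c} := (subset_insert a K).trans hK
    have hI : (K ∪ J) \ S ×ˢ {c} = J := by
      rw [union_sdiff_distrib, sdiff_eq_empty_iff_subset.2 hK', empty_union,
        sdiff_eq_self_of_disjoint hJ]
    have haI : a ∉ K ∪ J := fun h =>
      (mem_union.1 h).elim haK fun h' => disjoint_left.1 hJ h' ha
    obtain ⟨e1, e2⟩ := twS_insert t S Y c J (K ∪ J) hY hI a ha haI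
    have ih' := ih hK'
    rw [insert_union, sum_insert haK, sum_insert haK]
    by_cases h : a.1 ∈ Y
    · rw [e1 h, wY, if_pos h, wE]
      linear_combination ih'
    · rw [(e2 h).2, sum_insert (e2 h).1, wY, if_neg h, wE]
      linear_combination ih'

theorem Ctx.tw_close (t : ι) (w : Wt) (b : ι × Bool) (I : Finset (ι × Bool)) (hb : b ∉ I) (g : R)
    (hg : g ∈ X.PW t (Gt t) w (insert b I)) : X.fE b * g ∈ X.PW t (Gt t) w I := by
  obtain ⟨h1, h2⟩ := AddSubgroup.mem_inf.1 hg
  refine AddSubgroup.mem_inf.2 ⟨?_, ?_⟩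
  · unfold Ctx.PU at h1 ⊢
    by_cases h : insert b I ⊆ Gt t
    · rw [if_pos h] at h1
      rw [if_pos ((subset_insert b I).trans h)]
      have h3 : X.uz t (insert b I) ∣ g := Ideal.mem_span_singleton.1 h1
      have h4 : X.uz t I ∣ X.uz t (insert b I) :=
        prod_dvd_prod_of_subset _ _ _ (twS_mono t (subset_insert b I))
      exact Ideal.mem_span_singleton.2 ((h4.trans h3).mul_left _)
    · rw [if_neg h, AddSubgroup.mem_bot] at h1
      rw [h1, mul_zero]
      exact zero_mem _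
  · have := X.mul_mem _ _ _ _ (X.y_mem b.2 b.1) h2
    rw [sum_insert hb] at this
    have e : ew (bl b.2) + (w - (wE b + ∑ a ∈ I, wE a)) = w - ∑ a ∈ I, wE a := by
      rw [wE]; ring
    rwa [e] at this

/-- A slice of the two-copy complex is a rescaled one-copy complex. -/
theorem Ctx.tw_slice (t : ι) (S Y : Finset ι) (c : Bool) (B J : Finset (ι × Bool)) (w : Wt) (i : ℤ)
    (hAB : Disjoint (S ×ˢ {c}) B) (hG : S ×ˢ {c} ∪ B = Gt t) (hJ : J ⊆ B)
    (hY : ∀ s ∈ S, s ∈ Y ↔ s ∈ twS t J ∨ s = t)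
    (h : KE X.toGrd (X.fY Y) (wY Y) (S ×ˢ {c}) J
      (w - ∑ a ∈ J, wE a - ∑ _s ∈ twS t J, ew 2) i) :
    Exa (S ×ˢ {c}) X.fE (slice B J (X.PW t (Gt t) w)) i := by
  have hJA : Disjoint J (S ×ˢ {c}) := (hAB.mono_right hJ).symm
  refine exa_rescale _ _ (X.fY Y) _ _ (X.uz t) i
    (fun I => prod_ne_zero_iff.2 fun s _ => X.z_ne s) (fun I g => ?_) (fun a ha I haI hne => ?_) h
  · unfold slice Std
    by_cases hI : I \ S ×ˢ {c} = J
    · have hIK : I = I ∩ S ×ˢ {c} ∪ J := by
        rw [← hI, union_comm, sdiff_union_inter]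
      have hsub : I ⊆ Gt t := by
        rw [← hG, hIK]
        exact union_subset_union inter_subset_right hJ
      have hIB : I ∩ B = J := by
        rw [hIK, union_inter_distrib_right, inter_eq_left.2 hJ,
          disjoint_iff_inter_eq_empty.1 (hAB.mono_left inter_subset_right), empty_union]
      have hsum : ∑ a ∈ I, wE a = ∑ a ∈ I ∩ S ×ˢ {c}, wE a + ∑ a ∈ J, wE a := by
        rw [← sum_union (hJA.symm.mono_left inter_subset_right), ← hIK]
      have hw := twS_weight t S Y c J hY hJA (I ∩ S ×ˢ {c}) inter_subset_right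
      rw [← hIK] at hw
      have e : w - ∑ a ∈ J, wE a - ∑ _s ∈ twS t J, ew 2 - ∑ a ∈ I ∩ S ×ˢ {c}, wY Y a
          = w - ∑ a ∈ I, wE a - ∑ _s ∈ twS t I, ew 2 := by
        linear_combination hw + hsum
      have hu : X.uz t I ∈ X.H (∑ _s ∈ twS t I, ew 2) :=
        X.toGrd.prod_mem (twS t I) X.z (fun _ => ew 2) fun s _ => X.z_mem s
      rw [if_pos hI, if_pos hIB, e, ← X.toGrd.dvd_iff hu]
      unfold Ctx.PW Ctx.PU
      rw [AddSubgroup.mem_inf, if_pos hsub, and_comm]
      exact and_congr_right fun _ => Ideal.mem_span_singleton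
    · rw [if_neg hI]
      have : g ∈ (if I ∩ B = J then X.PW t (Gt t) w I else ⊥) ↔ g = 0 := by
        refine ⟨fun hg => ?_, fun hg => hg ▸ zero_mem _⟩
        by_cases hIB : I ∩ B = J
        · rw [if_pos hIB] at hg
          have h1 := (AddSubgroup.mem_inf.1 hg).1
          unfold Ctx.PU at h1
          rw [if_neg, AddSubgroup.mem_bot] at h1
          · exact h1
          intro hsub
          refine hI ?_
          rw [← hIB]
          ext b
          rw [mem_sdiff, mem_inter]
          refine and_congr_right fun hb => ⟨fun h2 => ?_, fun h2 h3 => disjoint_left.1 hAB h3 h2⟩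
          exact (mem_union.1 (hG ▸ hsub hb)).resolve_left h2
        · rwa [if_neg hIB, AddSubgroup.mem_bot] at hg
      rw [this]
      simp
  · have hI : I \ S ×ˢ {c} = J := by
      by_contra hc
      refine hne ?_
      unfold Std
      rw [if_neg]
      rwa [insert_sdiff_of_mem _ ha]
    obtain ⟨e1, e2⟩ := twS_insert t S Y c J I hY hI a ha haI
    change X.fE a * ∏ s ∈ twS t (insert a I), X.z s = X.fY Y a * ∏ s ∈ twS t I, X.z s
    unfold Ctx.fE Ctx.fY
    by_cases hy : a.1 ∈ Y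
    · rw [e1 hy, if_pos hy]
    · rw [(e2 hy).2, prod_insert (e2 hy).1, if_neg hy, mul_assoc]

theorem tw_gt (t : ι) :
    (univ.erase t) ×ˢ ({true} : Finset Bool) ∪ univ ×ˢ {false} = Gt t := by
  ext ⟨s, b⟩
  cases b <;> by_cases h : s = t <;> simp [Gt, G0, h]

theorem tw_disj (t : ι) :
    Disjoint ((univ.erase t) ×ˢ ({true} : Finset Bool)) ((univ : Finset ι) ×ˢ {false}) := by
  rw [disjoint_left]
  rintro ⟨s, b⟩
  cases b <;> simp

theorem tw_sum (S : Finset ι) (c : Bool) (J : Finset (ι × Bool)) (hJ : J ⊆ S ×ˢ {c}) :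
    ∑ a ∈ J, wE a = J.card • ew (bl c) := by
  rw [← sum_const]
  exact sum_congr rfl fun a ha => by rw [wE, mem_singleton.1 (mem_product.1 (hJ ha)).2]

/-- Lemma TW. -/
theorem Ctx.tw (t : ι) (w : Wt) (i : ℤ) (h1 : w 0 < i) (h2 : w 0 ≤ k) (h3 : w 2 - w 1 < k)
    (h4 : w 1 - w 2 + w 0 < ρ) : Exa (Gt t) X.fE (X.PW t (Gt t) w) i := by
  have key := exa_filter _ _ (tw_disj t) X.fE (X.PW t (Gt t) w) i
    (fun b _ I hb g hg => X.tw_close t w b I hb g hg) fun J hJ => ?_
  · rwa [tw_gt] at key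
  have hY : twS t J ⊆ univ.erase t := erase_subset_erase t (subset_univ _)
  refine X.tw_slice t _ (twS t J) true _ J w i (tw_disj t) (tw_gt t) hJ
    (fun s hs => (or_iff_left (ne_of_mem_erase hs)).symm) ?_
  rw [tw_sum _ _ J hJ, sum_const]
  by_cases hc : (J.card : ℤ) ≤ w 0
  · have hcard : ((twS t J).card : ℤ) ≤ J.card := by exact_mod_cast twS_card t J
    have hS : twS t J ∪ (univ.erase t) \ twS t J = univ.erase t := union_sdiff_of_subset hY
    have hW : ((univ.erase t) \ twS t J).card + (twS t J).card + 1 ≤ k + ρ := by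
      rw [card_sdiff_add_card_eq_card hY, card_erase_add_one (mem_univ t), card_univ, X.card]
    have := X.kv true (twS t J) ((univ.erase t) \ twS t J) disjoint_sdiff J
      (by rw [hS]; exact ((tw_disj t).mono_right hJ).symm)
      (w - J.card • ew (bl false) - (twS t J).card • ew 2) i (by omega) (by omega) hW
      (by simp [ew, bl]; omega) (by simp [ew, bl]; omega)
    rwa [hS] at this
  · intro x hx _
    refine ⟨0, Mem.zero _ _, ?_⟩
    rw [map_zero]
    funext I
    have hI := (hx I).1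
    unfold Std at hI
    split_ifs at hI
    · refine (X.neg _ 0 _ ?_ hI).symm
      have : (∑ a ∈ I ∩ (univ.erase t) ×ˢ {true}, wY (twS t J) a) 0 = 0 := by
        rw [Finset.sum_apply]
        refine sum_eq_zero fun a ha => ?_
        rw [wY, mem_singleton.1 (mem_product.1 (mem_inter.1 ha).2).2]
        split_ifs <;> simp [ew, bl]
      rw [Pi.sub_apply, this]
      simp [ew, bl]
      omega
    · exact (AddSubgroup.mem_bot.1 hI).symm

/-- Lemma F. -/
theorem Ctx.ff (t : ι) (w : Wt) (i : ℤ) (h1 : (k : ℤ) < w 2 + 1) (h2 : w 2 + 1 < k + w 0) :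
    Exa (Gt t) X.fE (X.PW t (Gt t) w) i := by
  have hG := (union_comm _ _).trans (tw_gt t)
  have key := exa_filter _ _ (tw_disj t).symm X.fE (X.PW t (Gt t) w) i
    (fun b _ I hb g hg => X.tw_close t w b I hb g hg) fun J hJ => ?_
  · rwa [hG] at key
  refine X.tw_slice t _ (insert t (twS t J)) false _ J w i (tw_disj t).symm hG hJ
    (fun s _ => mem_insert.trans or_comm) ?_
  rw [tw_sum _ _ J hJ, sum_const]
  have hc : (insert t (twS t J)).card = (twS t J).card + 1 :=
    card_insert_of_notMem (notMem_erase t _)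
  refine X.kf false _ J ((tw_disj t).mono_left hJ) _ i ?_ ?_ <;> rw [hc] <;> simp [ew, bl] <;> omega

end Pool.Agent.Lib.MP_deca50_lc.Three
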