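import Pool.Agent.Lib.MP_deca50_lc.Three.TW
import Pool.Agent.Lib.MP_deca50_lc.Three.TT
import Pool.Agent.Lib.MP_deca50_lc.Three.Pr

/-! The zigzag. -/

set_option linter.unusedSectionVars false

namespace Pool.Agent.Lib.MP_deca50_lc.Three

open Finset

variable {R : Type} [CommRing R] [IsDomain R] {ι : Type} [Fintype ι] [DecidableEq ι]
  {p Q k ρ : ℕ} (X : Ctx R ι p Q k ρ)

theorem zg_wt (a b c : ℤ) (p : ℕ) :
    (![a, b, c] : Wt) + (ew (bl false) + p • ew 2) = ![a + 1, b, c + p] := by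
  funext j; fin_cases j <;> simp [ew, bl]

theorem zg_wt' (a b c : ℤ) (p : ℕ) :
    (![a, b, c] : Wt) - (ew 0 + p • ew 2) = ![a - 1, b, c - p] := by
  funext j; fin_cases j <;> simp [ew]

theorem zg_card (I : Finset (ι × Bool)) :
    (∑ a ∈ I, wE a) 0 + (∑ a ∈ I, wE a) 1 = (I.card : ℤ) := by
  rw [Finset.sum_apply, Finset.sum_apply, ← sum_add_distrib, card_eq_sum_ones, Nat.cast_sum]
  refine sum_congr rfl fun a _ => ?_
  rcases a with ⟨s, _ | _⟩ <;> simp [wE, ew, bl]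

/-- The complex vanishes above the degree `w 0 + w 1`. -/
theorem Ctx.zg_top (t : ι) (A : Finset (ι × Bool)) (w : Wt) (i : ℤ) (h : w 0 + w 1 < i)
    {x : Finset (ι × Bool) → R} (hx : Mem (X.PW t A w) i x) : x = 0 := by
  funext I
  by_cases hI : (I.card : ℤ) = i
  · have h1 := zg_card I
    have h2 : x I ∈ X.H (w - ∑ a ∈ I, wE a) := (AddSubgroup.mem_inf.1 (hx I).1).2
    by_cases h3 : (w - ∑ a ∈ I, wE a) 0 < 0
    · exact X.neg _ 0 _ h3 h2
    · refine X.neg _ 1 _ ?_ h2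
      rw [Pi.sub_apply] at h3 ⊢
      omega
  · exact (hx I).2 hI

theorem Ctx.zg_pu (t : ι) (A : Finset (ι × Bool)) (w : Wt) (i : ℤ)
    {x : Finset (ι × Bool) → R} (hx : Mem (X.PW t A w) i x) : Mem (X.PU t A) i x :=
  hx.mono fun _ => inf_le_left

theorem zg_sub (t : ι) : (univ : Finset ι) ×ˢ ({false} : Finset Bool) ⊆ Gt t := by
  rintro ⟨s, b⟩ h
  obtain rfl : b = false := by simpa using h
  by_cases hs : s = t <;> simp [Gt, G0, hs]

theorem Ctx.zg_anti (t : ι) (x : Finset (ι × Bool) → R) :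
    X.dt t (X.xc false univ x) = -X.xc false univ (X.dt t x) := by
  have h := dd_xi (Gt t) ((univ : Finset ι) ×ˢ ({false} : Finset Bool)) X.fE
    (fun a => X.z a.1 ^ p) x
  have e : (∑ b ∈ (univ : Finset ι) ×ˢ ({false} : Finset Bool),
      if b ∈ Gt t then X.fE b * X.z b.1 ^ p else 0) = 0 := by
    rw [sum_congr rfl fun b hb => if_pos (zg_sub t hb), sum_product]
    simpa [Ctx.fE] using X.kappa false
  rw [e, zero_smul] at h
  exact eq_neg_of_add_eq_zero_left h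

theorem Ctx.zg_xx (x : Finset (ι × Bool) → R) : X.xc false univ (X.xc false univ x) = 0 :=
  xi_xi _ _ x

theorem Ctx.zg_dd (t : ι) (x : Finset (ι × Bool) → R) : X.dt t (X.dt t x) = 0 := dd_dd _ _ x

theorem Ctx.zg_xm (hp : 2 ≤ p) (t : ι) (a b c i : ℤ) {x : Finset (ι × Bool) → R}
    (hx : Mem (X.PW t (Gt t) ![a, b, c]) i x) :
    Mem (X.PW t (Gt t) ![a + 1, b, c + p]) (i + 1) (X.xc false univ x) := by
  rw [← zg_wt]
  exact X.xc_mem (by omega) t _ false univ (zg_sub t) _ i hx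

/-- One step down with Lemma T. -/
theorem Ctx.zg_down (hp : 2 ≤ p) (t : ι) (a b c i : ℤ) (ha : a < ρ)
    {u u' Y Y' : Finset (ι × Bool) → R} (hu : Mem (X.PW t (Gt t) ![a, b, c]) i u)
    (hY : Mem (X.PW t (Gt t) ![a, b, c]) (i + 1) Y) (e : X.dt t u' = -X.xc false univ u)
    (e' : u' = X.dt t Y' + X.xc false univ Y) :
    ∃ Z, Mem (X.PW t (Gt t) ![a - 1, b, c - p]) (i - 1) Z ∧
      u = X.dt t Y + X.xc false univ Z := by
  have h1 : X.xc false univ (u - X.dt t Y) = 0 := by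
    rw [e', map_add, X.zg_dd, X.zg_anti, zero_add, neg_inj] at e
    rw [map_sub, e, sub_self]
  obtain ⟨Z, hZ, eZ⟩ := X.tt hp t ![a, b, c] i ha _ (hu.sub (X.dd_mem t _ (Gt t) _ i hY)) h1
  rw [zg_wt'] at hZ
  exact ⟨Z, hZ, by rw [eZ]; exact (add_sub_cancel _ _).symm⟩

theorem Ctx.zg_main (hp : 2 ≤ p) (t : ι) (n r : ℕ)
    (h1 : ((p : ℤ) - 1) * (n + 1) - (k - 1) < r) (h2 : r + n < ρ)
    (Ψ : (Finset (ι × Bool) → R) →+ (Finset (ι × Bool) → R))
    (hd : ∀ x, Ψ (X.dt t x) = X.dt t (Ψ x))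
    (hx : ∀ x, Ψ (X.xc false univ x) = X.xc false univ (Ψ x))
    (hm : ∀ i x, Mem (X.PU t (Gt t)) i x → Mem (X.PU t (Gt t)) i (Ψ x)) (c : ℕ) :
    ∀ j : ℤ, j + c = n + 1 → 1 ≤ j → ∀ u, Mem (X.PW t (Gt t) ![r + j, n - r, p * j]) (2 * j) u →
      X.xc false univ (X.dt t u) = 0 →
      ((k : ℤ) ≤ p * (j + 1) ∨ ∃ x, Mem (X.PW t (Gt t) ![j, n, p * j]) (2 * j) x ∧
        X.xc false univ (X.dt t x) = 0 ∧ u = X.pr ![r + j, n - r, p * j] (Ψ x)) →
      ∃ Y Z, Mem (X.PW t (Gt t) ![r + j, n - r, p * j]) (2 * j + 1) Y ∧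
        Mem (X.PW t (Gt t) ![r + j - 1, n - r, p * j - p]) (2 * j - 1) Z ∧
        u = X.dt t Y + X.xc false univ Z := by
  induction c with
  | zero =>
    intro j hj _ u hu _ _
    refine ⟨0, 0, Mem.zero _ _, Mem.zero _ _, ?_⟩
    rw [X.zg_top t _ _ _ (by simp; omega) hu]
    simp
  | succ c ih =>
    intro j hj hj1 u hu h0 hs
    have hp' : (2 : ℤ) ≤ p := by exact_mod_cast hp
    have hjn : j ≤ n := by omega
    have hw1 : (r : ℤ) + j + 1 = r + (j + 1) := by ring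
    have hw2 : (p : ℤ) * j + p = p * (j + 1) := by ring
    have hi : 2 * j + 1 + 1 = 2 * (j + 1) := by ring
    have key : ∃ v, Mem (X.PW t (Gt t) ![r + (j + 1), n - r, p * (j + 1)]) (2 * (j + 1)) v ∧
        X.dt t v = -X.xc false univ u ∧
        ((k : ℤ) ≤ p * (j + 1 + 1) ∨
          ∃ x, Mem (X.PW t (Gt t) ![j + 1, n, p * (j + 1)]) (2 * (j + 1)) x ∧
            X.xc false univ (X.dt t x) = 0 ∧
            v = X.pr ![r + (j + 1), n - r, p * (j + 1)] (Ψ x)) := by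
      by_cases hk : (k : ℤ) ≤ p * (j + 1)
      · have m := (X.zg_xm hp t _ _ _ _ hu).neg
        rw [hw1, hw2] at m
        have hmono : ((p : ℤ) - 1) * (j + 1) ≤ ((p : ℤ) - 1) * (n + 1) :=
          mul_le_mul_of_nonneg_left (by omega) (by omega)
        obtain ⟨v, hv, ev⟩ := X.ff t ![r + (j + 1), n - r, p * (j + 1)] (2 * j + 1)
          (by simp; omega) (by simp; nlinarith) _ m
          (by change X.dt t _ = 0; rw [map_neg, X.zg_anti, h0]; simp)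
        rw [hi] at hv
        exact ⟨v, hv, ev, Or.inl (by nlinarith)⟩
      · obtain ⟨x, mx, ex, rfl⟩ := hs.resolve_left hk
        have m := (X.zg_xm hp t _ _ _ _ mx).neg
        rw [hw2] at m
        have hle : j + 1 ≤ (p : ℤ) * (j + 1) := by nlinarith
        obtain ⟨x', hx', ex'⟩ := X.tw t ![j + 1, n, p * (j + 1)] (2 * j + 1)
          (by simp; omega) (by simp; omega) (by simp; omega) (by simp; omega) _ m
          (by change X.dt t _ = 0; rw [map_neg, X.zg_anti, ex]; simp)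
        rw [hi] at hx'
        have ex'' : X.dt t x' = -X.xc false univ x := ex'
        refine ⟨_, X.pr_mem t _ _ _ (hm _ _ (X.zg_pu t _ _ _ hx')), ?_,
          Or.inr ⟨x', hx', by rw [ex'', map_neg, X.zg_xx, neg_zero], rfl⟩⟩
        have e1 : X.dt t (X.pr ![r + (j + 1), n - r, p * (j + 1)] (Ψ x')) =
            X.pr ![r + (j + 1), n - r, p * (j + 1)] (X.dt t (Ψ x')) := (X.pr_dd _ _ _).symm
        rw [e1, ← hd, ex'', map_neg, X.pr_neg, hx, ← hw1, ← hw2, ← zg_wt, X.pr_xc]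
    obtain ⟨v, hv, ev, sv⟩ := key
    obtain ⟨Y', Y, -, hY, eY⟩ := ih (j + 1) (by omega) (by omega) v hv
      (by rw [ev, map_neg, X.zg_xx, neg_zero]) sv
    have a1 : (r : ℤ) + (j + 1) - 1 = r + j := by ring
    have a2 : (p : ℤ) * (j + 1) - p = p * j := by ring
    have a3 : 2 * (j + 1) - 1 = 2 * j + 1 := by ring
    rw [a1, a2, a3] at hY
    obtain ⟨Z, hZ, eZ⟩ := X.zg_down hp t _ _ _ _ (by omega) hu hY ev eY
    exact ⟨Y, Z, hY, hZ, eZ⟩

/-- Lemma ZIGZAG for an operator `Ψ` commuting with the differential and with `xc false`. -/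
theorem Ctx.zig (hp : 2 ≤ p) (t : ι) (n r : ℕ)
    (h1 : ((p : ℤ) - 1) * (n + 1) - (k - 1) < r) (h2 : r + n < ρ)
    (Ψ : (Finset (ι × Bool) → R) →+ (Finset (ι × Bool) → R))
    (hd : ∀ x, Ψ (X.dt t x) = X.dt t (Ψ x))
    (hx : ∀ x, Ψ (X.xc false univ x) = X.xc false univ (Ψ x))
    (hm : ∀ i x, Mem (X.PU t (Gt t)) i x → Mem (X.PU t (Gt t)) i (Ψ x))
    (x0 x1 : Finset (ι × Bool) → R) (m0 : Mem (X.PW t (Gt t) ![0, n, 0]) 0 x0)
    (m1 : Mem (X.PW t (Gt t) ![1, n, p]) 2 x1) (e : X.dt t x1 = -X.xc false univ x0) :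
    ∃ Y0 Y1, Mem (X.PW t (Gt t) ![r, n - r, 0]) 1 Y0 ∧ Mem (X.PW t (Gt t) ![r + 1, n - r, p]) 3 Y1 ∧
      X.pr ![r, n - r, 0] (Ψ x0) = X.dt t Y0 ∧
      X.pr ![r + 1, n - r, p] (Ψ x1) = X.dt t Y1 + X.xc false univ Y0 := by
  have mu : Mem (X.PW t (Gt t) ![r + 1, n - r, p]) 2 (X.pr ![r + 1, n - r, p] (Ψ x1)) :=
    X.pr_mem t _ _ _ (hm _ _ (X.zg_pu t _ _ _ m1))
  have mu0 : Mem (X.PW t (Gt t) ![r, n - r, 0]) 0 (X.pr ![r, n - r, 0] (Ψ x0)) :=
    X.pr_mem t _ _ _ (hm _ _ (X.zg_pu t _ _ _ m0))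
  have ev : X.dt t (X.pr ![r + 1, n - r, p] (Ψ x1)) =
      -X.xc false univ (X.pr ![r, n - r, 0] (Ψ x0)) := by
    have e1 : X.dt t (X.pr ![r + 1, n - r, p] (Ψ x1)) =
        X.pr ![r + 1, n - r, p] (X.dt t (Ψ x1)) := (X.pr_dd _ _ _).symm
    rw [e1, ← hd, e, map_neg, X.pr_neg, hx, ← X.pr_xc, zg_wt, zero_add]
  have hmain := X.zg_main hp t n r h1 h2 Ψ hd hx hm n 1 (by ring) le_rfl
  simp only [mul_one, add_sub_cancel_right, sub_self] at hmain
  obtain ⟨Y1, Y0, hY1, hY0, eY⟩ := hmain _ mu (by rw [ev, map_neg, X.zg_xx, neg_zero])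
    (Or.inr ⟨x1, m1, by rw [e, map_neg, X.zg_xx, neg_zero], rfl⟩)
  have hY0' : Mem (X.PW t (Gt t) ![r, n - r, 0]) (0 + 1) Y0 := hY0
  obtain ⟨Z, hZ, eZ⟩ := X.zg_down hp t _ _ _ _ (by omega) mu0 hY0' ev eY
  have hZ0 : Z = 0 := funext fun I => (hZ I).2 (by omega)
  exact ⟨Y0, Y1, hY0, hY1, by rw [eZ, hZ0, map_zero, add_zero], eY⟩

end Pool.Agent.Lib.MP_deca50_lc.Three
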